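import Pool.Agent.OLF.Germ

set_option autoImplicit false

/-!
Commuting elements of the group satisfy a relation modulo labels: two commuting elements with
independent germs would contradict a sum of labels over a large box.
-/

namespace Pool.Agent.OLF

open Pool.Agent.Lib_helper28.OF (IsDyadic)
open Amb Filter Topology

/-! ### a sum over a box -/

lemma box_contradiction {cX cZ eZ : ℤ → ℤ → ZMod 2} {χ1 χ2 : ℤ → ZMod 2}
    (hrel : ∀ i j, cX i j + cZ (i - 1) j = cZ i j + cX i (j - 1)) (N : ℕ)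
    (hcX : ∀ i j, cX i j ≠ 0 → |j| < N)
    (hcZ : ∀ i j, cZ i j = eZ i j + χ1 i * (χ2 (j - 1) + χ2 j))
    (heZ : ∀ i j, eZ i j ≠ 0 → |i| < N)
    (h1 : χ1 N = 1) (h1' : χ1 (-N) = 0) (h2 : χ2 N = 1) (h2' : χ2 (-N) = 0) : False := by
  have key : ∀ a b : ℕ, cX (a + 1 - N) (b + 1 - N) - cX (a + 1 - N) (b - N) =
      cZ (a + 1 - N) (b + 1 - N) - cZ (a - N) (b + 1 - N) := by
    intro a b
    have h := hrel (a + 1 - N) (b + 1 - N)
    have e1 : (a : ℤ) + 1 - N - 1 = a - N := by ring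
    have e2 : (b : ℤ) + 1 - N - 1 = b - N := by ring
    rw [e1, e2] at h
    linear_combination h
  have hNN : |(N : ℤ)| = N := abs_of_nonneg (Int.natCast_nonneg N)
  have hNN' : |(-N : ℤ)| = N := by rw [abs_neg, hNN]
  have s1 : ∑ a ∈ Finset.range (2 * N), ∑ b ∈ Finset.range (2 * N),
      (cX (a + 1 - N) (b + 1 - N) - cX (a + 1 - N) (b - N)) = 0 := by
    refine Finset.sum_eq_zero fun a _ => ?_
    have h := Finset.sum_range_sub (fun b : ℕ => cX (a + 1 - N) ((b : ℤ) - N)) (2 * N)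
    have e : ∀ b : ℕ, (((b + 1 : ℕ) : ℤ) - N) = (b : ℤ) + 1 - N := fun b => by push_cast; ring
    simp only [e] at h
    rw [h]
    have e1 : (((2 * N : ℕ) : ℤ) - N) = N := by push_cast; ring
    have e2 : (((0 : ℕ) : ℤ) - N) = -N := by push_cast; ring
    rw [e1, e2]
    have z1 : cX (a + 1 - N) N = 0 := by
      by_contra hne
      have := hcX _ _ hne
      omega
    have z2 : cX (a + 1 - N) (-N) = 0 := by
      by_contra hne
      have := hcX _ _ hne
      omega
    rw [z1, z2, sub_zero]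
  have s2 : ∑ a ∈ Finset.range (2 * N), ∑ b ∈ Finset.range (2 * N),
      (cZ (a + 1 - N) (b + 1 - N) - cZ (a - N) (b + 1 - N)) = 1 := by
    rw [Finset.sum_comm]
    have inner : ∀ b : ℕ, ∑ a ∈ Finset.range (2 * N),
        (cZ (a + 1 - N) (b + 1 - N) - cZ (a - N) (b + 1 - N)) =
        χ2 (((b + 1 : ℕ) : ℤ) - N) - χ2 ((b : ℤ) - N) := by
      intro b
      have h := Finset.sum_range_sub (fun a : ℕ => cZ ((a : ℤ) - N) (b + 1 - N)) (2 * N)
      have e : ∀ b : ℕ, (((b + 1 : ℕ) : ℤ) - N) = (b : ℤ) + 1 - N := fun b => by push_cast; ring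
      simp only [e] at h
      rw [h, e]
      have e1 : (((2 * N : ℕ) : ℤ) - N) = N := by push_cast; ring
      have e2 : (((0 : ℕ) : ℤ) - N) = -N := by push_cast; ring
      have e3 : (b : ℤ) + 1 - N - 1 = b - N := by ring
      have z1 : eZ N (b + 1 - N) = 0 := by
        by_contra hne
        have := heZ _ _ hne
        omega
      have z2 : eZ (-N) (b + 1 - N) = 0 := by
        by_contra hne
        have := heZ _ _ hne
        omega
      rw [e1, e2, hcZ, hcZ, z1, z2, h1, h1', e3]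
      generalize χ2 ((b : ℤ) - N) = x
      generalize χ2 ((b : ℤ) + 1 - N) = y
      revert x y
      decide
    rw [Finset.sum_congr rfl fun b _ => inner b]
    rw [Finset.sum_range_sub (fun b : ℕ => χ2 ((b : ℤ) - N)) (2 * N)]
    have e1 : (((2 * N : ℕ) : ℤ) - N) = N := by push_cast; ring
    have e2 : (((0 : ℕ) : ℤ) - N) = -N := by push_cast; ring
    rw [e1, e2, h2, h2', sub_zero]
  have s3 : ∑ a ∈ Finset.range (2 * N), ∑ b ∈ Finset.range (2 * N),
      (cX (a + 1 - N) (b + 1 - N) - cX (a + 1 - N) (b - N)) =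
      ∑ a ∈ Finset.range (2 * N), ∑ b ∈ Finset.range (2 * N),
      (cZ (a + 1 - N) (b + 1 - N) - cZ (a - N) (b + 1 - N)) :=
    Finset.sum_congr rfl fun a _ => Finset.sum_congr rfl fun b _ => key a b
  rw [s1, s2] at s3
  exact absurd s3 (by decide)

/-! ### powers -/

lemma inv_fix_pt {x : Amb} {s : ℝ} (hx : x.f s = s) : (x⁻¹).f s = s := by
  rw [inv_f_apply, OrderIso.symm_apply_eq, hx]

lemma zpow_fix_pt {x : Amb} {s : ℝ} (hx : x.f s = s) (p : ℤ) : (x ^ p).f s = s := by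
  have hnat : ∀ n : ℕ, (x ^ n).f s = s := by
    intro n
    induction n with
    | zero => simp [one_f_apply]
    | succ n ih => rw [pow_succ, mul_f_apply, hx, ih]
  obtain ⟨n, rfl | rfl⟩ := Int.eq_nat_or_neg p
  · rw [zpow_natCast]; exact hnat n
  · rw [zpow_neg, zpow_natCast]; exact inv_fix_pt (hnat n)

lemma RG_mul {x y : Amb} {s : ℝ} {r r' : ℤ} (hy : y.f s = s) (h : RG x.f s r)
    (h' : RG y.f s r') : RG (x * y).f s (r + r') :=
  RG.comp (f := x.f) (g := y.f) h' (by rw [hy]; exact h)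

lemma RG_inv {x : Amb} {s : ℝ} {r : ℤ} (hx : x.f s = s) (h : RG x.f s r) :
    RG (x⁻¹).f s (-r) := by
  have := h.symm
  rw [hx] at this
  exact this

lemma RG_zpow {x : Amb} {s : ℝ} {r : ℤ} (hx : x.f s = s) (h : RG x.f s r) (p : ℤ) :
    RG (x ^ p).f s (p * r) := by
  have hnat : ∀ n : ℕ, RG (x ^ n).f s (n * r) := by
    intro n
    induction n with
    | zero =>
      rw [pow_zero, one_f, Nat.cast_zero, zero_mul]
      exact RG.refl s
    | succ n ih =>
      rw [pow_succ]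
      have := RG_mul hx ih h
      have e : (n : ℤ) * r + r = ((n + 1 : ℕ) : ℤ) * r := by push_cast; ring
      rwa [e] at this
  obtain ⟨n, rfl | rfl⟩ := Int.eq_nat_or_neg p
  · rw [zpow_natCast]; exact hnat n
  · rw [zpow_neg, zpow_natCast]
    have h1 : (x ^ n).f s = s := by
      have := zpow_fix_pt hx (n : ℤ)
      rwa [zpow_natCast] at this
    have := RG_inv h1 (hnat n)
    have e : -((n : ℤ) * r) = (-(n : ℤ)) * r := by ring
    rwa [e] at this

/-! ### orbits -/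

lemma isStd_small {s : ℝ} (hs : IsDyadic s) : ∃ M0 : ℕ, ∀ M ≥ M0, IsStd s (s + 1 / 2 ^ M) := by
  obtain ⟨a, n, rfl⟩ := hs
  refine ⟨n, fun M hM => ?_⟩
  obtain ⟨d, rfl⟩ := Nat.exists_eq_add_of_le hM
  refine ⟨n + d, a * 2 ^ d, ?_, ?_⟩
  · push_cast
    rw [pow_add]
    field_simp
  · push_cast
    rw [pow_add]
    field_simp

lemma finite_std {s p0 : ℝ} (h : s < p0) : {u : ℝ | p0 ≤ u ∧ IsStd s u}.Finite := by
  obtain ⟨B, hB⟩ := exists_nat_gt (1 / (p0 - s))
  refine Set.Finite.subset ((Finset.range B).image (fun m : ℕ => s + 1 / 2 ^ m)).finite_toSet ?_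
  rintro u ⟨h1, m, k, h2, h3⟩
  have h4 : u = s + 1 / 2 ^ m := by rw [h2, h3]; ring
  have hp : (0 : ℝ) < 2 ^ m := by positivity
  have hd : 0 < p0 - s := sub_pos.2 h
  have h5 : p0 - s ≤ 1 / 2 ^ m := by linarith
  have h6 : (2 : ℝ) ^ m ≤ 1 / (p0 - s) := by
    rw [le_div_iff₀ hd]
    rw [le_div_iff₀ hp] at h5
    linarith
  have h7 : (m : ℝ) < 2 ^ m := by exact_mod_cast Nat.lt_two_pow_self
  have h8 : (m : ℝ) < B := by linarith
  rw [h4]
  simp only [Finset.coe_image, Finset.coe_range]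
  exact ⟨m, by exact_mod_cast h8, rfl⟩

lemma bound_of_inj {p : ℤ → ℝ} (hp : Function.Injective p) {F : Set ℝ} (hF : F.Finite) :
    ∃ N : ℕ, ∀ i, p i ∈ F → |i| < N := by
  have hfin : (p ⁻¹' F).Finite := hF.preimage hp.injOn
  refine ⟨hfin.toFinset.sup Int.natAbs + 1, fun i hi => ?_⟩
  have h1 : i ∈ hfin.toFinset := hfin.mem_toFinset.2 hi
  have h2 := Finset.le_sup (f := Int.natAbs) h1
  rw [Int.abs_eq_natAbs]
  exact_mod_cast Nat.lt_succ_of_le h2

lemma chi_eq_one {s t : ℝ} (h : IsStd s t) : chi s t = 1 := if_pos h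

lemma chi_eq_zero {s t : ℝ} (h : ¬ IsStd s t) : chi s t = 0 := if_neg h

lemma orbit {X : Amb} {s : ℝ} {e : ℤ} (hs : IsDyadic s) (hX : X.f s = s) (hg : RG X.f s (-e))
    (he : 0 < e) {δ : ℝ} (hδ : 0 < δ) : ∃ p : ℤ → ℝ, Function.Injective p ∧ (∀ i, s < p i) ∧
    p 0 < s + δ ∧ (∀ i, p i = (X ^ i).f (p 0)) ∧
    ∃ N : ℕ, (∀ i : ℤ, N ≤ i → chi s (p i) = 1) ∧ ∀ i : ℤ, i ≤ -N → chi s (p i) = 0 := by
  obtain ⟨e', rfl⟩ : ∃ e' : ℕ, e = e' := ⟨e.toNat, by omega⟩
  have he' : 0 < e' := by omega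
  obtain ⟨ε, hε, hlin⟩ := exists_right hg
  obtain ⟨M0, hM0⟩ := isStd_small hs
  obtain ⟨M1, hM1⟩ := exists_pow_lt_of_lt_one (lt_min hδ hε) (show (1 / 2 : ℝ) < 1 by norm_num)
  set M := M0 + M1 with hM
  have hMlt : (1 : ℝ) / 2 ^ M < min δ ε := by
    refine lt_of_le_of_lt ?_ hM1
    rw [one_div_pow]
    apply one_div_le_one_div_of_le (by positivity)
    exact pow_le_pow_right₀ (by norm_num) (by omega)
  set p0 := s + 1 / 2 ^ M with hp0
  have hpos : ∀ k : ℕ, (0 : ℝ) < 1 / 2 ^ k := fun k => by positivity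
  let p : ℤ → ℝ := fun i => (X ^ i).f p0
  have hp00 : p 0 = p0 := by
    change (X ^ (0 : ℤ)).f p0 = p0
    rw [zpow_zero, one_f_apply]
  have hnat : ∀ n : ℕ, p n = s + 1 / 2 ^ (M + e' * n) := by
    intro n
    induction n with
    | zero =>
      rw [Nat.cast_zero, hp00, hp0, Nat.mul_zero, Nat.add_zero]
    | succ n ih =>
      have e1 : p ((n + 1 : ℕ) : ℤ) = X.f (p n) := by
        change (X ^ ((n + 1 : ℕ) : ℤ)).f p0 = X.f ((X ^ (n : ℤ)).f p0)
        rw [← mul_f_apply, ← zpow_one_add]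
        congr 3
        push_cast; ring
      rw [e1, hlin (p n) (by rw [ih]; linarith [hpos (M + e' * n)]) ?_, hX, ih]
      · rw [zpow_neg, zpow_natCast]
        have e2 : M + e' * (n + 1) = e' + (M + e' * n) := by ring
        rw [e2, pow_add]
        field_simp
        ring
      · rw [ih]
        have h1 : (1 : ℝ) / 2 ^ (M + e' * n) ≤ 1 / 2 ^ M := by
          apply one_div_le_one_div_of_le (by positivity)
          exact pow_le_pow_right₀ (by norm_num) (by omega)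
        have h2 := (lt_min_iff.1 hMlt).2
        linarith
  have hX0 : X.f p0 < p0 := by
    have h1 := hnat 1
    have h2 : p ((1 : ℕ) : ℤ) = X.f p0 := by
      change (X ^ ((1 : ℕ) : ℤ)).f p0 = _
      rw [Nat.cast_one, zpow_one]
    rw [← h2, h1, hp0]
    have h3 : (1 : ℝ) / 2 ^ (M + e' * 1) < 1 / 2 ^ M := by
      apply one_div_lt_one_div_of_lt (by positivity)
      exact pow_lt_pow_right₀ (by norm_num) (by omega)
    linarith
  have hanti : StrictAnti p := by
    apply strictAnti_int_of_succ_lt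
    intro i
    change (X ^ (i + 1)).f p0 < (X ^ i).f p0
    rw [zpow_add_one, mul_f_apply]
    exact (X ^ i).f.lt_iff_lt.2 hX0
  have hps : ∀ i, s < p i := by
    intro i
    have h1 : (X ^ i).f s < (X ^ i).f p0 := (X ^ i).f.lt_iff_lt.2 (by
      rw [hp0]; linarith [hpos M])
    rwa [zpow_fix_pt hX] at h1
  obtain ⟨N, hN⟩ := bound_of_inj hanti.injective (finite_std (hps 0))
  refine ⟨p, hanti.injective, hps, ?_, ?_, N, ?_, ?_⟩
  · rw [hp00, hp0]
    have := (lt_min_iff.1 hMlt).1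
    linarith
  · intro i
    rw [hp00]
  · intro i hi
    obtain ⟨n, rfl⟩ : ∃ n : ℕ, i = n := ⟨i.toNat, by omega⟩
    rw [hnat]
    exact chi_eq_one (hM0 _ (by omega))
  · intro i hi
    apply chi_eq_zero
    intro hstd
    have h0 : p 0 ≤ p i := hanti.antitone (by omega)
    have := hN i ⟨h0, hstd⟩
    have h2 := neg_abs_le i
    omega

/-! ### no independent pair -/

lemma no_pair_neg {X Z : Amb} (hX : Reach 1 X) (hZ : Reach 1 Z) (hc : X * Z = Z * X) {s t : ℝ}
    (hst : s < t) (ds : IsDyadic s) (dt : IsDyadic t) (hXs : X.f s = s) (hXt : X.f t = t)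
    (hZ1 : ∀ u ≤ t, Z.f u = u) {e e' : ℤ} (he : 0 < e) (he' : 0 < e')
    (h1 : RG X.f s (-e)) (h2 : RG X.f t 0) (h3 : RG Z.f t (-e')) : False := by
  obtain ⟨p, hp1, hp2, hp3, hp4, N1, hN1, hN1'⟩ := orbit ds hXs h1 he (sub_pos.2 hst)
  obtain ⟨δ, hδ, hfix⟩ := exists_right (h2.fix hXt)
  obtain ⟨q, hq1, hq2, hq3, hq4, N2, hN2, hN2'⟩ := orbit dt (hZ1 t le_rfl) h3 he' hδ
  have hpt : ∀ i, p i < t := by
    intro i
    have h4 : (X ^ i).f (p 0) < (X ^ i).f t := (X ^ i).f.lt_iff_lt.2 (by linarith)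
    rwa [zpow_fix_pt hXt, ← hp4] at h4
  have hZp : ∀ i, Z.f (p i) = p i := fun i => hZ1 _ (hpt i).le
  have hXq : ∀ j, X.f (q j) = q j := by
    intro j
    have h4 : X * Z ^ j = Z ^ j * X := ((show Commute X Z from hc).zpow_right j).eq
    have h5 : X.f (q 0) = q 0 := hfix _ (hq2 0).le hq3
    rw [hq4 j, ← mul_f_apply, h4, mul_f_apply, h5]
  have hXp : ∀ i, X.f.symm (p i) = p (i - 1) := by
    intro i
    rw [OrderIso.symm_apply_eq, hp4 i, hp4 (i - 1), ← mul_f_apply, ← zpow_one_add]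
    congr 3
    ring
  have hZq : ∀ j, Z.f.symm (q j) = q (j - 1) := by
    intro j
    rw [OrderIso.symm_apply_eq, hq4 j, hq4 (j - 1), ← mul_f_apply, ← zpow_one_add]
    congr 3
    ring
  have sXs : X.f.symm s = s := by rw [OrderIso.symm_apply_eq, hXs]
  have sXt : X.f.symm t = t := by rw [OrderIso.symm_apply_eq, hXt]
  have sXq : ∀ j, X.f.symm (q j) = q j := fun j => by rw [OrderIso.symm_apply_eq, hXq]
  have sZs : Z.f.symm s = s := by rw [OrderIso.symm_apply_eq, hZ1 s hst.le]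
  have sZt : Z.f.symm t = t := by rw [OrderIso.symm_apply_eq, hZ1 t le_rfl]
  have sZp : ∀ i, Z.f.symm (p i) = p i := fun i => by rw [OrderIso.symm_apply_eq, hZp]
  let F : ℤ → ℤ → Qd := fun i j => ![s, p i, t, q j]
  have F0 : ∀ i j, F i j 0 = s := fun _ _ => rfl
  have F1 : ∀ i j, F i j 1 = p i := fun _ _ => rfl
  have F2 : ∀ i j, F i j 2 = t := fun _ _ => rfl
  have F3 : ∀ i j, F i j 3 = q j := fun _ _ => rfl
  have mX : ∀ i j, mv X.f.symm (F i j) = F (i - 1) j := by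
    intro i j
    funext a
    rw [mv_apply]
    fin_cases a
    · exact sXs
    · exact hXp i
    · exact sXt
    · exact sXq j
  have mZ : ∀ i j, mv Z.f.symm (F i j) = F i (j - 1) := by
    intro i j
    funext a
    rw [mv_apply]
    fin_cases a
    · exact sZs
    · exact sZp i
    · exact sZt
    · exact hZq j
  obtain ⟨W, _, _, hW3⟩ := hX.supp
  obtain ⟨W', _, _, hW3'⟩ := hZ.supp
  obtain ⟨N3, hN3⟩ := bound_of_inj hq1 W.finite_toSet
  obtain ⟨N4, hN4⟩ := bound_of_inj hp1 W'.finite_toSet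
  refine box_contradiction (cX := fun i j => X.c (F i j)) (cZ := fun i j => Z.c (F i j))
    (eZ := fun i j => ee Z (F i j)) (χ1 := fun i => chi s (p i)) (χ2 := fun j => chi t (q j))
    ?_ (N1 + N2 + N3 + N4) ?_ ?_ ?_ ?_ ?_ ?_ ?_
  · intro i j
    have h4 : (X * Z).c (F i j) = (Z * X).c (F i j) := by rw [hc]
    rw [mul_c, mul_c, mX, mZ] at h4
    exact h4
  · intro i j hne
    have h4 : af X.f t (q j) = 0 := by
      unfold af
      rw [sXt, sXq]
      generalize chi t (q j) = x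
      revert x
      decide
    have h5 := c_eq X (F i j)
    rw [F2, F3, h4, mul_zero, add_zero] at h5
    simp only [h5] at hne
    have h6 := hN3 j (hW3 _ hne 3)
    push_cast
    omega
  · intro i j
    have h4 : af Z.f t (q j) = chi t (q (j - 1)) + chi t (q j) := by
      unfold af
      rw [sZt, hZq]
    have h5 := c_eq Z (F i j)
    rw [F0, F1, F2, F3, h4] at h5
    exact h5
  · intro i j hne
    have h6 := hN4 i (hW3' _ hne 1)
    push_cast
    omega
  · exact hN1 _ (by push_cast; omega)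
  · exact hN1' _ (by push_cast; omega)
  · exact hN2 _ (by push_cast; omega)
  · exact hN2' _ (by push_cast; omega)

lemma no_pair {X Z : Amb} (hX : Reach 1 X) (hZ : Reach 1 Z) (hc : X * Z = Z * X) {s t : ℝ}
    (hst : s < t) (ds : IsDyadic s) (dt : IsDyadic t) (hXs : X.f s = s) (hXt : X.f t = t)
    (hZ1 : ∀ u ≤ t, Z.f u = u) {r k : ℤ} (hr : r ≠ 0) (hk : k ≠ 0)
    (h1 : RG X.f s r) (h2 : RG X.f t 0) (h3 : RG Z.f t k) : False := by
  have hX' : ∃ X' : Amb, Reach 1 X' ∧ X' * Z = Z * X' ∧ X'.f s = s ∧ X'.f t = t ∧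
      RG X'.f t 0 ∧ ∃ e : ℤ, 0 < e ∧ RG X'.f s (-e) := by
    rcases lt_or_gt_of_ne hr with h | h
    · exact ⟨X, hX, hc, hXs, hXt, h2, -r, by omega, by rwa [neg_neg]⟩
    · refine ⟨X⁻¹, GG.inv_mem (mem_GG.2 hX), ?_, inv_fix_pt hXs, inv_fix_pt hXt, ?_, r, h,
        RG_inv hXs h1⟩
      · exact ((show Commute X Z from hc).inv_left).eq
      · have := RG_inv hXt h2
        rwa [neg_zero] at this
  have hZ' : ∃ Z' : Amb, Reach 1 Z' ∧ (∀ Y : Amb, Y * Z = Z * Y → Y * Z' = Z' * Y) ∧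
      (∀ u ≤ t, Z'.f u = u) ∧ ∃ e : ℤ, 0 < e ∧ RG Z'.f t (-e) := by
    rcases lt_or_gt_of_ne hk with h | h
    · exact ⟨Z, hZ, fun Y hY => hY, hZ1, -k, by omega, by rwa [neg_neg]⟩
    · refine ⟨Z⁻¹, GG.inv_mem (mem_GG.2 hZ), fun Y hY => ?_, fun u hu => inv_fix_pt (hZ1 u hu), k,
        h, RG_inv (hZ1 t le_rfl) h3⟩
      exact ((show Commute Y Z from hY).inv_right).eq
  obtain ⟨X', a1, a2, a3, a4, a5, e, a6, a7⟩ := hX'
  obtain ⟨Z', b1, b2, b3, e', b4, b5⟩ := hZ'
  exact no_pair_neg a1 b1 (b2 X' a2) hst ds dt a3 a4 b3 a6 b4 a7 a5 b5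

/-! ### commuting elements -/

lemma fix_of_lt {f : ℝ ≃o ℝ} {s : ℝ} (h : ∀ x < s, f x = x) : f s = s := by
  rcases lt_trichotomy (f s) s with h1 | h1 | h1
  · exact f.injective (h _ h1)
  · exact h1
  · have h2 : f.symm s < s := by
      rw [← f.lt_iff_lt, f.apply_symm_apply]; exact h1
    have h3 := h _ h2
    rw [f.apply_symm_apply] at h3
    linarith

/-- data at the first moved point -/
lemma first_point {g : Amb} (hg : Gm g.f) {s : ℝ} (h : ∀ x < s, g.f x = x) :
    ∃ r : ℤ, RG g.f s r ∧ g.f s = s ∧ (r ≠ 0 → IsDyadic s) := by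
  have hs := fix_of_lt h
  obtain ⟨r, l, h1, h2, h3⟩ := hg.gm s
  have hl : l = 0 := by
    apply h2.eq_zero
    filter_upwards [self_mem_nhdsWithin] with y hy
    rcases (show y ≤ s from hy).lt_or_eq with h4 | h4
    · exact h y h4
    · rw [h4]; exact hs
  exact ⟨r, h1, hs, fun h4 => h3 (by rw [hl]; exact h4)⟩

lemma comm_fix_first {x z : Amb} (h : x * z = z * x) {t : ℝ} (ht : ∀ y < t, z.f y = y)
    (hinf : ∀ t' > t, ∃ y < t', z.f y ≠ y) : x.f t = t := by
  have key : ∀ w : Amb, w * z = z * w → w.f t ≤ t := by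
    intro w hw
    by_contra hcon
    push Not at hcon
    obtain ⟨y, hy, hy2⟩ := hinf _ hcon
    apply hy2
    have h1 : w.f.symm y < t := by
      rw [← w.f.lt_iff_lt, w.f.apply_symm_apply]; exact hy
    have h2 := ht _ h1
    have h3 : (w * z).f (w.f.symm y) = (z * w).f (w.f.symm y) := by rw [hw]
    rw [mul_f_apply, mul_f_apply, h2, w.f.apply_symm_apply] at h3
    exact h3.symm
  have h1 := key x h
  have h2 := key x⁻¹ (by
    rw [inv_mul_eq_iff_eq_mul, ← mul_assoc, h, mul_assoc, mul_inv_cancel, mul_one])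
  rw [inv_f_apply] at h2
  have h3 : t ≤ x.f t := by
    have := x.f.monotone h2
    rwa [x.f.apply_symm_apply] at this
  exact le_antisymm h1 h3

/-- Commuting elements of the group have a common power relation modulo labels. -/
theorem comm_relation {x y : Amb} (hx : Reach 1 x) (hy : Reach 1 y) (h : x * y = y * x) :
    ∃ p q : ℤ, (p ≠ 0 ∨ q ≠ 0) ∧ ∀ t, (x ^ p * y ^ q).f t = t := by
  by_cases hE : ∃ s, x.f s ≠ s ∨ y.f s ≠ s
  swap
  · push Not at hE
    refine ⟨1, 0, Or.inl one_ne_zero, fun t => ?_⟩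
    rw [zpow_one, zpow_zero, mul_one]
    exact (hE t).1
  -- first moved point
  have hfirst : ∀ (E : Set ℝ), E.Nonempty → (∀ e ∈ E, 0 < e) → ∃ s, (∀ e < s, e ∉ E) ∧
      ∀ s' > s, ∃ e < s', e ∈ E := by
    intro E hE1 hE2
    have hb : BddBelow E := ⟨0, fun e he => (hE2 e he).le⟩
    refine ⟨sInf E, fun e he h => ?_, fun s' hs' => ?_⟩
    · exact absurd (csInf_le hb h) (not_le.2 he)
    · obtain ⟨e, he1, he2⟩ := exists_lt_of_csInf_lt hE1 hs'
      exact ⟨e, he2, he1⟩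
  obtain ⟨s, hs1, hs2⟩ := hfirst {s | x.f s ≠ s ∨ y.f s ≠ s} hE (by
    intro e he
    by_contra hcon
    push Not at hcon
    rcases he with h1 | h1
    · exact h1 (hx.f_nonpos hcon)
    · exact h1 (hy.f_nonpos hcon))
  have hxs : ∀ e < s, x.f e = e := fun e he => by
    by_contra hcon; exact hs1 e he (Or.inl hcon)
  have hys : ∀ e < s, y.f e = e := fun e he => by
    by_contra hcon; exact hs1 e he (Or.inr hcon)
  obtain ⟨r, hr1, hr3, hrd⟩ := first_point hx.gm hxs
  obtain ⟨r', hr1', hr3', hrd'⟩ := first_point hy.gm hys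
  have hne : ¬ (r = 0 ∧ r' = 0) := by
    rintro ⟨rfl, rfl⟩
    obtain ⟨ε, hε, h2⟩ := exists_right ((hr1.fix hr3).and (hr1'.fix hr3'))
    obtain ⟨e, he1, he2⟩ := hs2 (s + ε) (by linarith)
    rcases lt_or_ge e s with h3 | h3
    · exact hs1 e h3 he2
    · have := h2 e h3 he1
      rcases he2 with h4 | h4
      · exact h4 this.1
      · exact h4 this.2
  refine ⟨r', -r, ?_, ?_⟩
  · by_contra hcon
    push Not at hcon
    exact hne ⟨by linarith [hcon.2], hcon.1⟩
  set z := x ^ r' * y ^ (-r) with hz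
  by_contra hcon
  push Not at hcon
  have hzR : Reach 1 z := (GG.mul_mem (GG.zpow_mem (mem_GG.2 hx) r')
    (GG.zpow_mem (mem_GG.2 hy) (-r)))
  obtain ⟨t, ht1, ht2⟩ := hfirst {t | z.f t ≠ t} hcon (by
    intro e he
    by_contra hcon2
    push Not at hcon2
    exact he (hzR.f_nonpos hcon2))
  have hzt : ∀ e < t, z.f e = e := fun e he => by
    by_contra hcon; exact ht1 e he hcon
  obtain ⟨k, hk1, hk3, hkd⟩ := first_point hzR.gm hzt
  have hk0 : k ≠ 0 := by
    rintro rfl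
    obtain ⟨ε, hε, h2⟩ := exists_right (hk1.fix hk3)
    obtain ⟨e, he1, he2⟩ := ht2 (t + ε) (by linarith)
    rcases lt_or_ge e t with h3 | h3
    · exact ht1 e h3 he2
    · exact he2 (h2 e h3 he1)
  have hxz : x * z = z * x := by
    rw [hz]
    have c1 : Commute x (x ^ r') := (Commute.refl x).zpow_right r'
    have c2 : Commute x (y ^ (-r)) := (show Commute x y from h).zpow_right (-r)
    exact (c1.mul_right c2).eq
  have hyz : y * z = z * y := by
    rw [hz]
    have c1 : Commute y (x ^ r') := (show Commute y x from h.symm).zpow_right r'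
    have c2 : Commute y (y ^ (-r)) := (Commute.refl y).zpow_right (-r)
    exact (c1.mul_right c2).eq
  have hxt : x.f t = t := comm_fix_first hxz hzt ht2
  have hyt : y.f t = t := comm_fix_first hyz hzt ht2
  -- the germ of `z` at `s` is trivial
  have hzs : RG z.f s 0 := by
    have h1 := RG_mul (zpow_fix_pt hr3' (-r)) (RG_zpow hr3 hr1 r') (RG_zpow hr3' hr1' (-r))
    have e : r' * r + -r * r' = 0 := by ring
    rwa [e, ← hz] at h1
  have hzs' : z.f s = s := by
    rw [hz, mul_f_apply, zpow_fix_pt hr3', zpow_fix_pt hr3]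
  have hzlt : ∀ e < s, z.f e = e := by
    intro e he
    rw [hz, mul_f_apply, zpow_fix_pt (hys e he), zpow_fix_pt (hxs e he)]
  have hst : s < t := by
    by_contra hcon2
    push Not at hcon2
    obtain ⟨ε, hε, h2⟩ := exists_right (hzs.fix hzs')
    obtain ⟨e, he1, he2⟩ := ht2 (s + ε) (by linarith)
    rcases lt_or_ge e s with h3 | h3
    · exact he2 (hzlt e h3)
    · exact he2 (h2 e h3 he1)
  have ds : IsDyadic s := by
    by_cases h1 : r = 0
    · exact hrd' (fun h2 => hne ⟨h1, h2⟩)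
    · exact hrd h1
  have hzle : ∀ u ≤ t, z.f u = u := by
    intro u hu
    rcases hu.lt_or_eq with h1 | h1
    · exact hzt u h1
    · rw [h1]; exact hk3
  -- the general argument
  have main : ∀ w : Amb, Reach 1 w → w * z = z * w → w.f s = s → w.f t = t → ∀ ρ : ℤ, ρ ≠ 0 →
      RG w.f s ρ → False := by
    intro w hw hwz hws hwt ρ hρ hwρ
    obtain ⟨κ, _, hκ, _, _⟩ := hw.gm.gm t
    have f1 : (z ^ (-κ)).f s = s := zpow_fix_pt hzs' _
    have f2 : (z ^ (-κ)).f t = t := zpow_fix_pt hk3 _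
    have g1 := RG_mul f1 (RG_zpow hws hwρ k) (RG_zpow hzs' hzs (-κ))
    have g2 := RG_mul f2 (RG_zpow hwt hκ k) (RG_zpow hk3 hk1 (-κ))
    have e1 : k * ρ + -κ * 0 = k * ρ := by ring
    have e2 : k * κ + -κ * k = 0 := by ring
    rw [e1] at g1
    rw [e2] at g2
    have c1 : Commute (w ^ k * z ^ (-κ)) z :=
      ((show Commute w z from hwz).zpow_left k).mul_left ((Commute.refl z).zpow_left (-κ))
    exact no_pair (GG.mul_mem (GG.zpow_mem (mem_GG.2 hw) k) (GG.zpow_mem (mem_GG.2 hzR) (-κ)))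
      hzR c1.eq hst ds (hkd hk0) (by rw [mul_f_apply, f1, zpow_fix_pt hws])
      (by rw [mul_f_apply, f2, zpow_fix_pt hwt]) hzle (mul_ne_zero hk0 hρ) hk0 g1 g2 hk1
  by_cases h1 : r = 0
  · exact main y hy hyz hr3' hyt r' (fun h2 => hne ⟨h1, h2⟩) hr1'
  · exact main x hx hxz hr3 hxt r h1 hr1

/-- elements with trivial `f` have order at most two -/
lemma sq_of_trivial {x : Amb} (h : ∀ t, x.f t = t) : x * x = 1 := by
  have h2 : x = iota x.c := Amb.ext rfl (by ext t; exact h t)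
  rw [h2, iota_mul_iota, ← iota_zero]
  congr 1
  funext q
  generalize x.c q = a
  revert a
  decide

end Pool.Agent.OLF
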