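import Pool.Agent.OLF.Type
import Pool.Agent.OLF.Comm
import Pool.Agent.Lib_helper28.OFThompson

set_option autoImplicit false

/-!
The faithful oligomorphic action on signed quadruples of division points.
-/

namespace Pool.Agent.OLF

open Pool.Agent.Lib_helper28.OF (IsDyadic TypeFP Oligomorphic ThompsonF uF vF uv_comm uv_ne_one
  exists_dyadic_between)
open Amb
open scoped Pointwise

/-! ### division points -/

/-- the interior division points -/
def SS : Set ℝ := {t | ∃ (n : ℕ) (g : Amb) (i : ℕ), Reach n g ∧ 1 ≤ i ∧ i < n ∧ t = g.f (i : ℝ)}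

lemma SS_smul {u : Amb} (hu : u ∈ GG) {t : ℝ} (ht : t ∈ SS) : u.f t ∈ SS := by
  obtain ⟨n, g, i, hg, h1, h2, rfl⟩ := ht
  exact ⟨n, u * g, i, hg.left hu, h1, h2, rfl⟩

lemma DP_smul {u : Amb} (hu : u ∈ GG) {t : ℝ} (ht : t ∈ DP) : u.f t ∈ DP := by
  obtain ⟨n, g, i, hg, h1, rfl⟩ := ht
  exact ⟨n, u * g, i, hg.left hu, h1, rfl⟩

lemma Reach.f_zero {n : ℕ} {g : Amb} (h : Reach n g) : g.f ((0 : ℕ) : ℝ) = 0 := by
  rw [Nat.cast_zero]
  exact h.f_nonpos le_rfl

lemma Reach.f_last {n : ℕ} {g : Amb} (h : Reach n g) : g.f (n : ℝ) = 1 := by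
  rw [h.f_ge le_rfl]; ring

lemma SS_pos {t : ℝ} (ht : t ∈ SS) : 0 < t ∧ t < 1 := by
  obtain ⟨n, g, i, hg, h1, h2, rfl⟩ := ht
  constructor
  · rw [← hg.f_zero, g.f.lt_iff_lt]
    exact_mod_cast h1
  · rw [← hg.f_last, g.f.lt_iff_lt]
    exact_mod_cast h2

lemma DP_cases {t : ℝ} (ht : t ∈ DP) : t ∈ SS ∨ t = 0 ∨ t = 1 := by
  obtain ⟨n, g, i, hg, h1, rfl⟩ := ht
  rcases Nat.eq_zero_or_pos i with rfl | h2
  · exact Or.inr (Or.inl hg.f_zero)
  · rcases h1.lt_or_eq with h3 | rfl
    · exact Or.inl ⟨n, g, i, hg, h2, h3, rfl⟩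
    · exact Or.inr (Or.inr hg.f_last)

lemma SS_sub_DP {t : ℝ} (ht : t ∈ SS) : t ∈ DP := by
  obtain ⟨n, g, i, hg, h1, h2, rfl⟩ := ht
  exact ⟨n, g, i, hg, h2.le, rfl⟩

lemma zero_mem_DP : (0 : ℝ) ∈ DP := ⟨1, 1, 0, Reach.one, by omega, Reach.one.f_zero.symm⟩

lemma base_isV : IsV base := ⟨1, 1, Reach.one, rfl⟩

lemma exists_vertex (A : Finset ℝ) (hA : ∀ a ∈ A, a ∈ SS) :
    ∃ (n : ℕ) (g : Amb), Reach n g ∧ A ⊆ Tn n g := by
  classical
  have : Nonempty Cell := ⟨base⟩
  have h1 : ∀ a ∈ A, ∃ x : Cell, IsV x ∧ a ∈ x.T := by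
    intro a ha
    obtain ⟨n, g, i, hg, h1, h2, rfl⟩ := hA a ha
    exact ⟨cell n g ∅, ⟨n, g, hg, rfl⟩, f_mem_Tn h2.le⟩
  choose! v hv1 hv2 using h1
  obtain ⟨w, hw1, hw2⟩ := directed_finset (A.image v) (by
    intro x hx
    obtain ⟨a, ha, rfl⟩ := Finset.mem_image.1 hx
    exact hv1 a ha)
  obtain ⟨n, g, hg, rfl⟩ := hw1.isV base_isV
  refine ⟨n, g, hg, fun a ha => ?_⟩
  exact (hw2 _ (Finset.mem_image_of_mem v ha)).T_sub (hv2 a ha)

lemma normal_form (A : Finset ℝ) (hA : ∀ a ∈ A, a ∈ SS) :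
    ∃ g : Amb, Reach (A.card + 1) g ∧ im g (Finset.Ico 1 (A.card + 1)) = A := by
  classical
  have hex : ∃ n, ∃ g : Amb, Reach n g ∧ A ⊆ Tn n g := exists_vertex A hA
  obtain ⟨g, hg, hgA⟩ := Nat.find_spec hex
  have hmin : ∀ m < Nat.find hex, ¬ ∃ g : Amb, Reach m g ∧ A ⊆ Tn m g :=
    fun m hm => Nat.find_min hex hm
  generalize Nat.find hex = n at hg hgA hmin
  have himA : im g (Finset.Ico 1 n) = A := by
    ext s
    constructor
    · intro hs
      obtain ⟨i, hi, rfl⟩ := Finset.mem_image.1 hs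
      obtain ⟨h1, h2⟩ := Finset.mem_Ico.1 hi
      by_contra hcon
      obtain ⟨k, rfl⟩ : ∃ k, i = k + 1 := ⟨i - 1, by omega⟩
      obtain ⟨m, rfl⟩ : ∃ m, n = m + 1 := ⟨n - 1, by omega⟩
      refine hmin m (by omega) ⟨g * (lh k)⁻¹, hg.merge k (by omega), ?_⟩
      rw [Tn_merge g (by omega)]
      intro a ha
      refine Finset.mem_erase.2 ⟨?_, hgA ha⟩
      rintro rfl
      exact hcon ha
    · intro hs
      obtain ⟨i, hi, rfl⟩ := mem_Tn.1 (hgA hs)
      obtain ⟨h1, h2⟩ := SS_pos (hA _ hs)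
      rw [mem_im, Finset.mem_Ico]
      constructor
      · rcases Nat.eq_zero_or_pos i with rfl | h
        · rw [hg.f_zero] at h1; exact absurd h1 (lt_irrefl _)
        · exact h
      · rcases Nat.lt_or_ge i n with h | h
        · exact h
        · have : i = n := by omega
          subst this
          rw [hg.f_last] at h2; exact absurd h2 (lt_irrefl _)
  have hcard : A.card = n - 1 := by
    rw [← himA, im_card, Nat.card_Ico]
  have hn := hg.pos
  have : A.card + 1 = n := by omega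
  rw [this]
  exact ⟨g, hg, himA⟩

lemma exists_reach (n : ℕ) : ∃ g, Reach (n + 1) g := by
  induction n with
  | zero => exact ⟨1, Reach.one⟩
  | succ n ih =>
    obtain ⟨g, hg⟩ := ih
    exact ⟨_, hg.split 0 (by omega)⟩

/-! ### the dyadic numbers in `[0, 1]` are division points -/

/-- split the first `j` leaves -/
lemma split_some {n : ℕ} {g : Amb} (hg : Reach n g) : ∀ j ≤ n, ∃ g' : Amb, Reach (n + j) g' ∧
    (∀ t : ℝ, 0 ≤ t → t ≤ 2 * j → g'.f t = g.f (t / 2)) ∧
    ∀ t : ℝ, 2 * j ≤ t → g'.f t = g.f (t - j) := by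
  intro j
  induction j with
  | zero =>
    intro _
    refine ⟨g, hg, fun t h1 h2 => ?_, fun t _ => ?_⟩
    · have : t = 0 := by push_cast at h2; linarith
      rw [this, zero_div]
    · simp
  | succ j ih =>
    intro hj
    obtain ⟨g', hg', h1, h2⟩ := ih (by omega)
    have hr := hg'.split (2 * j) (by omega)
    refine ⟨g' * lh ((2 * j : ℕ) : ℝ), hr, fun t h3 h4 => ?_, fun t h3 => ?_⟩
    · push_cast at h4
      rw [mul_f_apply, lh_f]
      rcases le_total t (2 * j) with h5 | h5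
      · rw [lam_of_le (by push_cast; linarith), h1 t h3 h5]
      · rw [lam_mid (by push_cast; linarith) (by push_cast; linarith), h2 _ (by push_cast; linarith)]
        congr 1
        push_cast; ring
    · push_cast at h3
      rw [mul_f_apply, lh_f, lam_of_ge (by push_cast; linarith), h2 _ (by linarith)]
      congr 1
      push_cast; ring

lemma exists_pow_chart (m : ℕ) : ∃ g : Amb, Reach (2 ^ m) g ∧
    ∀ t : ℝ, 0 ≤ t → t ≤ 2 ^ m → g.f t = t / 2 ^ m := by
  induction m with
  | zero =>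
    refine ⟨1, Reach.one, fun t _ _ => ?_⟩
    simp [one_f_apply]
  | succ m ih =>
    obtain ⟨g, hg, h1⟩ := ih
    obtain ⟨g', hg', h2, _⟩ := split_some hg (2 ^ m) le_rfl
    refine ⟨g', by rw [pow_succ, mul_two]; exact hg', fun t h3 h4 => ?_⟩
    rw [pow_succ] at h4
    rw [h2 t h3 (by push_cast; linarith), h1 _ (by linarith) (by linarith), pow_succ]
    field_simp

lemma dyadic_mem_DP {d : ℝ} (hd : IsDyadic d) (h0 : 0 ≤ d) (h1 : d ≤ 1) : d ∈ DP := by
  obtain ⟨a, m, rfl⟩ := hd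
  have hp : (0 : ℝ) < 2 ^ m := by positivity
  rw [le_div_iff₀ hp, zero_mul] at h0
  rw [div_le_iff₀ hp, one_mul] at h1
  have ha : 0 ≤ a := by exact_mod_cast h0
  obtain ⟨k, rfl⟩ : ∃ k : ℕ, a = k := ⟨a.toNat, by omega⟩
  obtain ⟨g, hg, h2⟩ := exists_pow_chart m
  refine ⟨2 ^ m, g, k, hg, ?_, ?_⟩
  · exact_mod_cast h1
  · rw [Int.cast_natCast] at h1 ⊢
    exact (h2 _ (Nat.cast_nonneg k) h1).symm

/-- elements fixing all division points are trivial on the line -/
lemma f_eq_of_fix {u : Amb} (hu : Reach 1 u) (h : ∀ t ∈ DP, u.f t = t) (x : ℝ) : u.f x = x := by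
  rcases le_total x 0 with h0 | h0
  · exact hu.f_nonpos h0
  rcases le_total 1 x with h1 | h1
  · rw [hu.f_ge (by exact_mod_cast h1)]; simp
  have hub : u.f x ≤ 1 := by
    rw [← hu.f_one]
    exact u.f.monotone h1
  have hlb : 0 ≤ u.f x := by
    rw [← hu.f_zero']
    exact u.f.monotone h0
  rcases lt_trichotomy (u.f x) x with h2 | h2 | h2
  · obtain ⟨a, e, ha, _, he, h3, h4⟩ := exists_dyadic_between h2
    have h5 := h a (dyadic_mem_DP ha (by linarith) (by linarith))
    have h6 : u.f x < u.f a := by rw [h5]; exact h3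
    have h7 := u.f.lt_iff_lt.1 h6
    linarith
  · exact h2
  · obtain ⟨a, e, ha, _, he, h3, h4⟩ := exists_dyadic_between h2
    have h5 := h a (dyadic_mem_DP ha (by linarith) (by linarith))
    have h6 : u.f x < u.f a := u.f.lt_iff_lt.2 h3
    linarith

/-- an element fixing all division points whose labels vanish on quadruples of division points is
trivial -/
lemma eq_one_of {u : Amb} (hu : Reach 1 u) (h : ∀ t ∈ DP, u.f t = t)
    (hc : ∀ q : Qd, (∀ i, q i ∈ DP) → u.c q = 0) : u = 1 := by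
  have hf := f_eq_of_fix hu h
  have hs : ∀ t, u.f.symm t = t := fun t => by rw [OrderIso.symm_apply_eq, hf]
  obtain ⟨W, h1, _, h3⟩ := hu.supp
  refine Amb.ext ?_ ?_
  · funext q
    rw [one_c]
    have haf : ∀ s t, af u.f s t = 0 := by
      intro s t
      unfold af
      rw [hs, hs]
      generalize chi s t = x
      revert x
      decide
    by_contra hne
    have h4 := c_eq u q
    rw [haf, mul_zero, add_zero] at h4
    have h5 := h3 q (by rw [← h4]; exact hne)
    exact hne (hc q fun i => h1 _ (h5 i))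
  · ext t
    exact hf t

/-! ### the action -/

/-- signed quadruples of division points -/
def PS : Type := {x : Qd × ZMod 2 // ∀ i, x.1 i ∈ DP}

/-- the action on signed quadruples -/
def am (u : Amb) (x : Qd × ZMod 2) : Qd × ZMod 2 := (mv u.f x.1, x.2 + u.c (mv u.f x.1))

lemma am_one (x : Qd × ZMod 2) : am 1 x = x := by
  unfold am
  rw [mv_one, one_c, add_zero]

lemma am_mul (u v : Amb) (x : Qd × ZMod 2) : am (u * v) x = am u (am v x) := by
  unfold am
  rw [mul_c, mv_mul, mv_symm_mv]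
  ext1
  · rfl
  · simp only; ring

lemma am_DP {u : Amb} (hu : u ∈ GG) {x : Qd × ZMod 2} (hx : ∀ i, x.1 i ∈ DP) :
    ∀ i, (am u x).1 i ∈ DP := fun i => DP_smul hu (hx i)

noncomputable instance actPS : MulAction GG PS where
  smul u x := ⟨am u.1 x.1, am_DP u.2 x.2⟩
  one_smul x := Subtype.ext (am_one x.1)
  mul_smul u v x := Subtype.ext (am_mul u.1 v.1 x.1)

lemma smul_PS_coe (u : GG) (x : PS) : (u • x).1 = am u.1 x.1 := rfl

lemma trivial_of_fix {u : GG} (h : ∀ x : PS, u • x = x) : u = 1 := by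
  apply Subtype.ext
  have h1 : ∀ q : Qd, (∀ i, q i ∈ DP) → am u.1 (q, 0) = (q, 0) := by
    intro q hq
    have := congrArg Subtype.val (h ⟨(q, 0), hq⟩)
    exact this
  apply eq_one_of u.2
  · intro t ht
    have h2 := h1 (fun _ => t) (fun _ => ht)
    have h3 := congrFun (congrArg Prod.fst h2) 0
    exact h3
  · intro q hq
    have h2 := h1 q hq
    have h3 : mv u.1.f q = q := congrArg Prod.fst h2
    have h4 : (0 : ZMod 2) + u.1.c (mv u.1.f q) = 0 := congrArg Prod.snd h2
    rwa [h3, zero_add] at h4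

theorem faithful_PS : FaithfulSMul GG PS := by
  refine ⟨fun {u v} h => ?_⟩
  have h1 : v⁻¹ * u = 1 := by
    apply trivial_of_fix
    intro x
    rw [mul_smul, h x, inv_smul_smul]
  rw [inv_mul_eq_one] at h1
  exact h1.symm

theorem infinite_PS : Infinite PS := by
  let φ : ℕ → PS := fun n => ⟨(fun _ => 1 / 2 ^ n, 0), fun _ => dyadic_mem_DP ⟨1, n, by simp⟩
    (by positivity) (by
      rw [div_le_one (by positivity)]
      exact one_le_pow₀ (by norm_num))⟩
  refine Infinite.of_injective φ ?_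
  intro a b hab
  have h1 : (1 : ℝ) / 2 ^ a = 1 / 2 ^ b := by
    have h2 : (φ a).1.1 0 = (φ b).1.1 0 := by rw [hab]
    exact h2
  have h3 : (2 : ℝ) ^ a = 2 ^ b := by
    rw [one_div, one_div] at h1
    exact inv_injective h1
  exact pow_right_injective₀ (by norm_num) (by norm_num) h3

/-! ### coordinates -/

/-- underlying signed quadruples -/
noncomputable def re (B : Finset PS) : Finset (Qd × ZMod 2) := by
  classical exact B.image (fun x : PS => x.1)

lemma mem_re {B : Finset PS} {x : PS} : x.1 ∈ re B ↔ x ∈ B := by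
  classical
  unfold re
  rw [Finset.mem_image]
  constructor
  · rintro ⟨y, hy, h⟩
    rwa [← Subtype.ext h]
  · intro h
    exact ⟨x, h, rfl⟩

lemma exists_of_mem_re {B : Finset PS} {x : Qd × ZMod 2} (h : x ∈ re B) :
    ∃ y ∈ B, y.1 = x := by
  classical
  unfold re at h
  exact Finset.mem_image.1 h

lemma re_DP {B : Finset PS} {x : Qd × ZMod 2} (h : x ∈ re B) : ∀ i, x.1 i ∈ DP := by
  obtain ⟨y, _, rfl⟩ := exists_of_mem_re h
  exact y.2

lemma re_card (B : Finset PS) : (re B).card = B.card := by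
  classical
  unfold re
  exact Finset.card_image_of_injective _ Subtype.val_injective

open Classical in
/-- the interior coordinates -/
noncomputable def co (B : Finset PS) : Finset ℝ :=
  ((re B).biUnion (fun x => Finset.univ.image (fun i => x.1 i))).filter (fun t => t ∈ SS)

lemma mem_co {B : Finset PS} {t : ℝ} : t ∈ co B ↔ (∃ x ∈ re B, ∃ i, x.1 i = t) ∧ t ∈ SS := by
  classical
  simp [co]

lemma co_card (B : Finset PS) : (co B).card ≤ 4 * B.card := by
  classical
  unfold co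
  refine (Finset.card_filter_le _ _).trans ?_
  refine Finset.card_biUnion_le.trans ?_
  rw [← re_card, mul_comm, ← smul_eq_mul, ← Finset.sum_const]
  refine Finset.sum_le_sum fun x _ => ?_
  exact Finset.card_image_le.trans (by simp)

lemma co_cases {B : Finset PS} {x : Qd × ZMod 2} (h : x ∈ re B) (i : Fin 4) :
    x.1 i ∈ co B ∨ x.1 i = 0 ∨ x.1 i = 1 := by
  rcases DP_cases (re_DP h i) with h1 | h1
  · exact Or.inl (mem_co.2 ⟨⟨x, h, i, rfl⟩, h1⟩)
  · exact Or.inr h1

open Classical in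
/-- the quadruples occurring with exactly one sign -/
noncomputable def QB (B : Finset PS) : Finset Qd :=
  ((re B).filter (fun x => (x.1, x.2 + 1) ∉ re B)).image Prod.fst

lemma mem_QB {B : Finset PS} {q : Qd} : q ∈ QB B ↔
    ∃ ε : ZMod 2, (q, ε) ∈ re B ∧ (q, ε + 1) ∉ re B := by
  classical
  unfold QB
  rw [Finset.mem_image]
  constructor
  · rintro ⟨⟨q', ε⟩, h, rfl⟩
    exact ⟨ε, (Finset.mem_filter.1 h).1, (Finset.mem_filter.1 h).2⟩
  · rintro ⟨ε, h1, h2⟩
    exact ⟨(q, ε), Finset.mem_filter.2 ⟨h1, h2⟩, rfl⟩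

lemma smul_iff (u : GG) (B : Finset PS) :
    u • (B : Set PS) = (B : Set PS) ↔
      (co B).image u.1.f = co B ∧ ∀ q ∈ QB B, u.1.c q = 0 := by
  classical
  have hu : Reach 1 u.1 := u.2
  have fixmv : (co B).image u.1.f = co B → ∀ x ∈ re B, mv u.1.f x.1 = x.1 := by
    intro hco x hx
    funext i
    rw [mv_apply]
    rcases co_cases hx i with h | h | h
    · exact fix_of_image hco h
    · rw [h, hu.f_zero']
    · rw [h, hu.f_one]
  constructor
  · intro h
    have hre : ∀ x ∈ re B, am u.1 x ∈ re B := by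
      intro x hx
      obtain ⟨y, hy, rfl⟩ := exists_of_mem_re hx
      have h1 : u • y ∈ (B : Set PS) := by
        rw [← h]
        exact Set.smul_mem_smul_set hy
      exact mem_re.2 h1
    have hco : (co B).image u.1.f = co B := by
      apply Finset.eq_of_subset_of_card_le
      · intro t ht
        obtain ⟨s, hs, rfl⟩ := Finset.mem_image.1 ht
        obtain ⟨⟨x, hx, i, rfl⟩, hS⟩ := mem_co.1 hs
        exact mem_co.2 ⟨⟨am u.1 x, hre x hx, i, rfl⟩, SS_smul u.2 hS⟩
      · rw [Finset.card_image_of_injective _ u.1.f.injective]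
    refine ⟨hco, fun q hq => ?_⟩
    obtain ⟨ε, h1, h2⟩ := mem_QB.1 hq
    have h3 := fixmv hco _ h1
    have h4 := hre _ h1
    unfold am at h4
    simp only at h3 h4
    rw [h3] at h4
    have h01 : ∀ a : ZMod 2, a = 0 ∨ a = 1 := by decide
    rcases h01 (u.1.c q) with h5 | h5
    · exact h5
    · rw [h5] at h4
      exact absurd h4 h2
  · rintro ⟨hco, hq⟩
    have hsub : u • (B : Set PS) ⊆ (B : Set PS) := by
      rintro _ ⟨y, hy, rfl⟩
      have hy' : y.1 ∈ re B := mem_re.2 hy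
      have h3 := fixmv hco _ hy'
      change u • y ∈ (B : Set PS)
      have h4 : (u • y).1 ∈ re B := by
        rw [smul_PS_coe]
        unfold am
        rw [h3]
        have h01 : ∀ a : ZMod 2, a = 0 ∨ a = 1 := by decide
        rcases h01 (u.1.c y.1.1) with h5 | h5
        · rw [h5, add_zero]; exact hy'
        · rw [h5]
          by_contra hcon
          have h6 := hq y.1.1 (mem_QB.2 ⟨y.1.2, hy', hcon⟩)
          rw [h5] at h6
          exact absurd h6 (by decide)
      exact mem_re.1 h4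
    refine Set.eq_of_subset_of_ncard_le hsub ?_ B.finite_toSet
    have : u • (B : Set PS) = (fun x => u • x) '' (B : Set PS) := rfl
    rw [this, Set.ncard_image_of_injective _ (MulAction.injective u)]

/-- stabilisers as setups -/
noncomputable def stabSetup (B : Finset PS) :
    Setup (co B) (QB B) (MulAction.stabilizer GG (B : Set PS)) where
  e := GG.subtype.comp (MulAction.stabilizer GG (B : Set PS)).subtype
  hC := fun _ _ => rfl
  hA := fun _ _ => rfl
  inj := by
    intro a b h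
    apply Subtype.ext
    apply Subtype.ext
    exact h
  hQ := by
    intro q hq i
    obtain ⟨ε, h1, _⟩ := mem_QB.1 hq
    exact co_cases h1 i
  range := by
    intro g
    constructor
    · rintro ⟨h, rfl⟩
      refine ⟨h.1.2, ?_⟩
      exact (smul_iff h.1 B).1 (MulAction.mem_stabilizer_iff.1 h.2)
    · rintro ⟨h1, h2⟩
      exact ⟨⟨⟨g, h1⟩, MulAction.mem_stabilizer_iff.2 ((smul_iff ⟨g, h1⟩ B).2 h2)⟩, rfl⟩

theorem stab_typeFP (B : Finset PS) (n : ℕ) :
    TypeFP n (MulAction.stabilizer GG (B : Set PS)) := by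
  obtain ⟨m, g, hg, hA⟩ := exists_vertex (co B) (fun a ha => (mem_co.1 ha).2)
  exact typeFP_of_setup (stabSetup B) hg hA n

/-! ### oligomorphy -/

/-- a chosen chart with `a + 1` leaves -/
noncomputable def ga (a : ℕ) : Amb := (exists_reach a).choose

lemma ga_reach (a : ℕ) : Reach (a + 1) (ga a) := (exists_reach a).choose_spec

/-- signed quadruples with coordinates in one of the chosen charts -/
def Fn (n : ℕ) : Set PS := {x | ∃ a ≤ 4 * n, ∀ i, x.1.1 i ∈ Tn (a + 1) (ga a)}

lemma Fn_finite (n : ℕ) : (Fn n).Finite := by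
  classical
  have h1 : ∀ T : Finset ℝ, {x : PS | ∀ i, x.1.1 i ∈ T}.Finite := by
    intro T
    have h2 : ((Fintype.piFinset (fun _ : Fin 4 => T) ×ˢ (Finset.univ : Finset (ZMod 2)) :
        Finset (Qd × ZMod 2)) : Set (Qd × ZMod 2)).Finite := Finset.finite_toSet _
    refine (h2.preimage (f := Subtype.val) Subtype.val_injective.injOn).subset ?_
    intro x hx
    simp only [Set.mem_preimage, Finset.coe_product, Set.mem_prod, Finset.mem_coe,
      Fintype.mem_piFinset, Finset.mem_univ, and_true]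
    exact hx
  have h2 : Fn n ⊆ ⋃ a ∈ Finset.range (4 * n + 1), {x : PS | ∀ i, x.1.1 i ∈ Tn (a + 1) (ga a)} := by
    rintro x ⟨a, ha, hx⟩
    simp only [Set.mem_iUnion]
    exact ⟨a, Finset.mem_range.2 (by omega), hx⟩
  exact Set.Finite.subset (Set.Finite.biUnion (Finset.finite_toSet _) fun a _ => h1 _) h2

lemma move_into {B : Finset PS} {n : ℕ} (hB : B.card = n) :
    ∃ u : GG, u • (B : Set PS) ⊆ Fn n := by
  classical
  obtain ⟨g, hg, him⟩ := normal_form (co B) (fun a ha => (mem_co.1 ha).2)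
  set a := (co B).card with ha
  have hu : ga a * g⁻¹ ∈ GG := hg.torsor (ga_reach a)
  refine ⟨⟨ga a * g⁻¹, hu⟩, ?_⟩
  rintro _ ⟨y, hy, rfl⟩
  refine ⟨a, by rw [← hB]; exact co_card B, fun i => ?_⟩
  change (ga a * g⁻¹).f (y.1.1 i) ∈ _
  have h1 : y.1.1 i ∈ Tn (a + 1) g := by
    rcases co_cases (mem_re.2 hy) i with h | h | h
    · rw [← him] at h
      obtain ⟨k, hk, h2⟩ := Finset.mem_image.1 h
      rw [← h2]
      exact f_mem_Tn (Finset.mem_Ico.1 hk).2.le
    · rw [h, ← hg.f_zero]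
      exact f_mem_Tn (Nat.zero_le _)
    · rw [h, ← hg.f_last]
      exact f_mem_Tn le_rfl
  obtain ⟨k, hk, h2⟩ := mem_Tn.1 h1
  rw [← h2, ← mul_f_apply, inv_mul_cancel_right]
  exact f_mem_Tn hk

theorem oligomorphic_PS : Oligomorphic GG PS := by
  intro n _
  have hfin : ((fun X : Set PS => MulAction.orbit GG X) '' (𝒫 (Fn n))).Finite :=
    ((Fn_finite n).finite_subsets).image _
  refine hfin.subset ?_
  rintro _ ⟨B, hB, rfl⟩
  obtain ⟨u, hu⟩ := move_into hB
  exact ⟨u • (B : Set PS), hu, MulAction.orbit_smul u (B : Set PS)⟩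

/-! ### no copy of Thompson's group -/

/-- No injective homomorphism from a group with suitable elements. -/
lemma no_embedding {F : Type} [Group F] (u v : F) (huv : u * v = v * u)
    (h1 : ∀ p q : ℤ, (p ≠ 0 ∨ q ≠ 0) → u ^ p * v ^ q ≠ 1)
    (φ : F →* Amb) (hφ : Function.Injective φ) (hG : ∀ x, Reach 1 (φ x)) : False := by
  have hcomm : φ u * φ v = φ v * φ u := by rw [← map_mul, huv, map_mul]
  obtain ⟨p, q, hpq, htriv⟩ := comm_relation (hG u) (hG v) hcomm
  have h2 := sq_of_trivial htriv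
  rw [← map_zpow, ← map_zpow, ← map_mul, ← map_mul] at h2
  have h3 : (u ^ p * v ^ q) * (u ^ p * v ^ q) = 1 := by
    apply hφ
    rw [h2, map_one]
  have hc : Commute (v ^ q) (u ^ p) :=
    ((show Commute v u from huv.symm).zpow_left q).zpow_right p
  have h4 : u ^ (p + p) * v ^ (q + q) = 1 := by
    rw [← h3, zpow_add, zpow_add, mul_assoc, mul_assoc, ← mul_assoc (v ^ q) (u ^ p), hc.eq,
      mul_assoc]
  exact h1 (p + p) (q + q) (by omega) h4

theorem no_F : ¬ ∃ K : Subgroup GG, Nonempty (K ≃* ThompsonF) := by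
  rintro ⟨K, ⟨e⟩⟩
  let φ : ThompsonF →* Amb := GG.subtype.comp (K.subtype.comp e.symm.toMonoidHom)
  exact no_embedding uF vF uv_comm (fun p q h => uv_ne_one h) φ
    (Subtype.val_injective.comp (K.subtype_injective.comp e.symm.injective))
    (fun x => (e.symm x).1.2)

theorem main : ∃ (G : Type) (_ : Group G) (S : Type) (_ : MulAction G S),
    Infinite S ∧ FaithfulSMul G S ∧ Oligomorphic G S ∧
    (∀ A : Finset S, ∀ n : ℕ, TypeFP n (MulAction.stabilizer G (A : Set S))) ∧
    ¬ ∃ K : Subgroup G, Nonempty (K ≃* ThompsonF) :=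
  ⟨GG, inferInstance, PS, inferInstance, infinite_PS, faithful_PS, oligomorphic_PS, stab_typeFP,
    no_F⟩

end Pool.Agent.OLF
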