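import Mathlib

set_option autoImplicit false

/-!
The ambient group: labels in `ZMod 2` on quadruples of points and an order automorphism of the
line. The splitting elements use the set of standard dyadic intervals.
-/

namespace Pool.Agent.OLF

/-- ordered quadruples of points -/
abbrev Qd := Fin 4 → ℝ

/-- the quadruple `q` consists of points of `P` -/
def Inq (P : Finset ℝ) (q : Qd) : Prop := ∀ i, q i ∈ P

lemma Inq.mono {P Q : Finset ℝ} (hPQ : P ⊆ Q) {q : Qd} (h : Inq P q) : Inq Q q :=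
  fun i => hPQ (h i)

/-- move a quadruple -/
def mv (e : ℝ ≃o ℝ) (q : Qd) : Qd := fun i => e (q i)

lemma mv_apply (e : ℝ ≃o ℝ) (q : Qd) (i : Fin 4) : mv e q i = e (q i) := rfl

lemma mv_refl (q : Qd) : mv (OrderIso.refl ℝ) q = q := rfl

lemma mv_symm_mv (e : ℝ ≃o ℝ) (q : Qd) : mv e.symm (mv e q) = q := by
  funext i; simp [mv_apply]

lemma mv_mv_symm (e : ℝ ≃o ℝ) (q : Qd) : mv e (mv e.symm q) = q := by
  funext i; simp [mv_apply]

lemma mv_trans (e e' : ℝ ≃o ℝ) (q : Qd) : mv (e.trans e') q = mv e' (mv e q) := rfl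

/-- Ambient group: labels `c` on quadruples of points and an order automorphism `f` of the line. -/
@[ext] structure Amb where
  c : Qd → ZMod 2
  f : ℝ ≃o ℝ

namespace Amb

instance : Mul Amb where
  mul x y :=
    { c := fun q => x.c q + y.c (mv x.f.symm q)
      f := y.f.trans x.f }

instance : One Amb where
  one := { c := fun _ => 0, f := OrderIso.refl ℝ }

instance : Inv Amb where
  inv x :=
    { c := fun q => - x.c (mv x.f q)
      f := x.f.symm }

lemma mul_c (x y : Amb) (q : Qd) : (x * y).c q = x.c q + y.c (mv x.f.symm q) := rfl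
lemma mul_f (x y : Amb) : (x * y).f = y.f.trans x.f := rfl
lemma mul_f_apply (x y : Amb) (t : ℝ) : (x * y).f t = x.f (y.f t) := rfl
lemma mul_f_symm_apply (x y : Amb) (t : ℝ) : (x * y).f.symm t = y.f.symm (x.f.symm t) := rfl
lemma one_c (q : Qd) : (1 : Amb).c q = 0 := rfl
lemma one_f : (1 : Amb).f = OrderIso.refl ℝ := rfl
lemma one_f_apply (t : ℝ) : (1 : Amb).f t = t := rfl
lemma one_f_symm_apply (t : ℝ) : (1 : Amb).f.symm t = t := rfl
lemma inv_c (x : Amb) (q : Qd) : (x⁻¹).c q = - x.c (mv x.f q) := rfl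
lemma inv_f (x : Amb) : (x⁻¹).f = x.f.symm := rfl
lemma inv_f_apply (x : Amb) (t : ℝ) : (x⁻¹).f t = x.f.symm t := rfl
lemma inv_f_symm_apply (x : Amb) (t : ℝ) : (x⁻¹).f.symm t = x.f t := rfl

lemma mv_mul (x y : Amb) (q : Qd) : mv (x * y).f q = mv x.f (mv y.f q) := rfl
lemma mv_mul_symm (x y : Amb) (q : Qd) : mv (x * y).f.symm q = mv y.f.symm (mv x.f.symm q) := rfl
lemma mv_one (q : Qd) : mv (1 : Amb).f q = q := rfl
lemma mv_one_symm (q : Qd) : mv (1 : Amb).f.symm q = q := rfl

instance : Group Amb := Group.ofLeftAxioms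
  (by
    intro x y z
    refine Amb.ext ?_ ?_
    · funext q
      simp only [mul_c, mv_mul_symm]; ring
    · ext t; rfl)
  (by
    intro x
    refine Amb.ext ?_ ?_
    · funext q
      simp only [mul_c, one_c, mv_one_symm]; ring
    · ext t; rfl)
  (by
    intro x
    refine Amb.ext ?_ ?_
    · funext q
      simp only [mul_c, inv_c, one_c, inv_f, OrderIso.symm_symm]; ring
    · ext t
      simp [mul_f_apply, inv_f_apply, one_f_apply])

/-- pure labels -/
def iota (c : Qd → ZMod 2) : Amb := { c := c, f := OrderIso.refl ℝ }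

lemma iota_c (c : Qd → ZMod 2) (q : Qd) : (iota c).c q = c q := rfl
lemma iota_f_apply (c : Qd → ZMod 2) (t : ℝ) : (iota c).f t = t := rfl
lemma iota_f_symm_apply (c : Qd → ZMod 2) (t : ℝ) : (iota c).f.symm t = t := rfl
lemma mv_iota (c : Qd → ZMod 2) (q : Qd) : mv (iota c).f q = q := rfl
lemma mv_iota_symm (c : Qd → ZMod 2) (q : Qd) : mv (iota c).f.symm q = q := rfl

lemma iota_zero : iota (fun _ => 0) = 1 := rfl

lemma iota_mul_iota (c d : Qd → ZMod 2) : iota c * iota d = iota (fun q => c q + d q) := rfl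

lemma iota_inv (c : Qd → ZMod 2) : (iota c)⁻¹ = iota (fun q => - c q) := rfl

lemma iota_mul_c (c : Qd → ZMod 2) (g : Amb) (q : Qd) :
    (iota c * g).c q = c q + g.c q := rfl
lemma iota_mul_f (c : Qd → ZMod 2) (g : Amb) : (iota c * g).f = g.f := by
  ext t; rfl

lemma mul_iota (g : Amb) (c : Qd → ZMod 2) :
    g * iota c = iota (fun q => c (mv g.f.symm q)) * g := by
  refine Amb.ext ?_ ?_
  · funext q
    rw [iota_mul_c, mul_c, iota_c, add_comm]
  · ext t; rfl

lemma iota_mul' (g : Amb) (c : Qd → ZMod 2) :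
    iota c * g = g * iota (fun q => c (mv g.f q)) := by
  rw [mul_iota]
  simp only [mv_mv_symm]

/-! ### splitting -/

/-- the piecewise linear map halving `[u, u+2]` -/
noncomputable def lam (u : ℝ) : ℝ ≃o ℝ where
  toFun x := if x ≤ u then x else if x ≤ u + 2 then (x + u) / 2 else x - 1
  invFun y := if y ≤ u then y else if y ≤ u + 1 then 2 * y - u else y + 1
  left_inv := by
    intro x
    dsimp only
    split_ifs <;> linarith
  right_inv := by
    intro y
    dsimp only
    split_ifs <;> linarith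
  map_rel_iff' := by
    intro x y
    simp only [Equiv.coe_fn_mk]
    constructor
    · intro h
      by_contra hxy
      push Not at hxy
      revert h
      split_ifs <;> intro h <;> linarith
    · intro h
      split_ifs <;> linarith

lemma lam_apply (u x : ℝ) :
    lam u x = if x ≤ u then x else if x ≤ u + 2 then (x + u) / 2 else x - 1 := rfl
lemma lam_symm_apply (u y : ℝ) :
    (lam u).symm y = if y ≤ u then y else if y ≤ u + 1 then 2 * y - u else y + 1 := rfl

lemma lam_of_le {u x : ℝ} (h : x ≤ u) : lam u x = x := by simp [lam_apply, h]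
lemma lam_mid {u x : ℝ} (h : u ≤ x) (h' : x ≤ u + 2) : lam u x = (x + u) / 2 := by
  rw [lam_apply]; split_ifs <;> linarith
lemma lam_of_ge {u x : ℝ} (h : u + 2 ≤ x) : lam u x = x - 1 := by
  rw [lam_apply]; split_ifs <;> linarith
lemma lam_symm_of_le {u x : ℝ} (h : x ≤ u) : (lam u).symm x = x := by simp [lam_symm_apply, h]
lemma lam_symm_mid {u x : ℝ} (h : u ≤ x) (h' : x ≤ u + 1) : (lam u).symm x = 2 * x - u := by
  rw [lam_symm_apply]; split_ifs <;> linarith
lemma lam_symm_of_ge {u x : ℝ} (h : u + 1 ≤ x) : (lam u).symm x = x + 1 := by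
  rw [lam_symm_apply]; split_ifs <;> linarith

lemma lam_comm {u v : ℝ} (h : u + 1 ≤ v) (x : ℝ) :
    lam u (lam (v + 1) x) = lam v (lam u x) := by
  rcases le_total x u with h1 | h1
  · rw [lam_of_le (show x ≤ v + 1 by linarith), lam_of_le h1, lam_of_le (show x ≤ v by linarith)]
  rcases le_total x (u + 2) with h2 | h2
  · rw [lam_of_le (show x ≤ v + 1 by linarith), lam_mid h1 h2, lam_of_le (by linarith)]
  rcases le_total x (v + 1) with h3 | h3
  · rw [lam_of_le h3, lam_of_ge h2, lam_of_le (by linarith)]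
  rcases le_total x (v + 3) with h4 | h4
  · rw [lam_mid h3 (by linarith), lam_of_ge (show u + 2 ≤ x by linarith),
      lam_of_ge (by linarith), lam_mid (by linarith) (by linarith)]
    ring
  · rw [lam_of_ge (show v + 1 + 2 ≤ x by linarith), lam_of_ge (show u + 2 ≤ x by linarith),
      lam_of_ge (by linarith), lam_of_ge (by linarith)]

/-- `[s, t]` is a standard dyadic interval -/
def IsStd (s t : ℝ) : Prop := ∃ (m : ℕ) (k : ℤ), s = k / 2 ^ m ∧ t = (k + 1) / 2 ^ m

open Classical in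
/-- indicator of the standard dyadic intervals -/
noncomputable def chi (s t : ℝ) : ZMod 2 := if IsStd s t then 1 else 0

/-- indicator of `[u, u+1]` -/
noncomputable def de (u s t : ℝ) : ZMod 2 := if s = u ∧ t = u + 1 then 1 else 0

lemma isStd_int (u : ℤ) : IsStd (u : ℝ) ((u : ℝ) + 1) := ⟨0, u, by simp, by simp⟩

lemma isStd_lam {u : ℤ} {s t : ℝ} :
    IsStd ((lam u).symm s) ((lam u).symm t) ↔ IsStd s t ∧ ¬ (s = u ∧ t = u + 1) := by
  constructor
  · rintro ⟨m, k, h1, h2⟩
    have hp : (0 : ℝ) < 2 ^ m := by positivity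
    have hs : s = lam u (k / 2 ^ m) := by rw [← h1, OrderIso.apply_symm_apply]
    have ht : t = lam u ((k + 1) / 2 ^ m) := by rw [← h2, OrderIso.apply_symm_apply]
    rcases le_or_gt (((k : ℝ) + 1) / 2 ^ m) u with hb | hb
    · have ha : (k : ℝ) / 2 ^ m ≤ u := le_trans (by gcongr; linarith) hb
      rw [lam_of_le ha] at hs
      rw [lam_of_le hb] at ht
      refine ⟨⟨m, k, hs, ht⟩, ?_⟩
      rintro ⟨_, h4⟩
      linarith
    rcases le_or_gt ((u : ℝ) + 2) ((k : ℝ) / 2 ^ m) with ha | ha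
    · have hb' : (u : ℝ) + 2 ≤ ((k : ℝ) + 1) / 2 ^ m := le_trans ha (by gcongr; linarith)
      rw [lam_of_ge ha] at hs
      rw [lam_of_ge hb'] at ht
      refine ⟨⟨m, k - 2 ^ m, ?_, ?_⟩, ?_⟩
      · rw [hs]; push_cast; field_simp
      · rw [ht]; push_cast; field_simp; ring
      · rintro ⟨h3, _⟩
        linarith
    · have e1 : (u : ℝ) ≤ k / 2 ^ m := by
        rw [lt_div_iff₀ hp] at hb
        have h5 : u * 2 ^ m < k + 1 := by exact_mod_cast hb
        have h6 : u * 2 ^ m ≤ k := by omega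
        rw [le_div_iff₀ hp]
        exact_mod_cast h6
      have e2 : ((k : ℝ) + 1) / 2 ^ m ≤ u + 2 := by
        rw [div_lt_iff₀ hp] at ha
        have h5 : k < (u + 2) * 2 ^ m := by exact_mod_cast ha
        have h6 : k + 1 ≤ (u + 2) * 2 ^ m := by omega
        rw [div_le_iff₀ hp]
        exact_mod_cast h6
      rw [lam_mid e1 ha.le] at hs
      rw [lam_mid hb.le e2] at ht
      have hs' : s = ((k + u * 2 ^ m : ℤ) : ℝ) / 2 ^ (m + 1) := by
        rw [hs]; push_cast; rw [pow_succ]; field_simp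
      have ht' : t = (((k + u * 2 ^ m : ℤ) : ℝ) + 1) / 2 ^ (m + 1) := by
        rw [ht]; push_cast; rw [pow_succ]; field_simp; ring
      refine ⟨⟨m + 1, k + u * 2 ^ m, hs', ht'⟩, ?_⟩
      rintro ⟨h3, h4⟩
      have h5 : t - s = 1 / 2 ^ (m + 1) := by rw [hs', ht']; ring
      rw [h3, h4] at h5
      have h6 : (1 : ℝ) / 2 ^ (m + 1) ≤ 1 / 2 := by
        rw [pow_succ]
        have h7 : (1 : ℝ) ≤ 2 ^ m := one_le_pow₀ (by norm_num)
        rw [div_le_div_iff₀ (by positivity) (by norm_num)]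
        linarith
      linarith
  · rintro ⟨⟨m, k, rfl, rfl⟩, hne⟩
    have hp : (0 : ℝ) < 2 ^ m := by positivity
    have hst : (k : ℝ) / 2 ^ m ≤ (k + 1) / 2 ^ m := by gcongr; linarith
    rcases le_or_gt (((k : ℝ) + 1) / 2 ^ m) u with hb | hb
    · rw [lam_symm_of_le hb, lam_symm_of_le (hst.trans hb)]
      exact ⟨m, k, rfl, rfl⟩
    rcases le_or_gt ((u : ℝ) + 1) ((k : ℝ) / 2 ^ m) with ha | ha
    · rw [lam_symm_of_ge ha, lam_symm_of_ge (ha.trans hst)]
      refine ⟨m, k + 2 ^ m, ?_, ?_⟩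
      · push_cast; field_simp
      · push_cast; field_simp; ring
    · have e1 : (u : ℝ) ≤ k / 2 ^ m := by
        rw [lt_div_iff₀ hp] at hb
        have h5 : u * 2 ^ m < k + 1 := by exact_mod_cast hb
        have h6 : u * 2 ^ m ≤ k := by omega
        rw [le_div_iff₀ hp]
        exact_mod_cast h6
      have e2 : ((k : ℝ) + 1) / 2 ^ m ≤ u + 1 := by
        rw [div_lt_iff₀ hp] at ha
        have h5 : k < (u + 1) * 2 ^ m := by exact_mod_cast ha
        have h6 : k + 1 ≤ (u + 1) * 2 ^ m := by omega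
        rw [div_le_iff₀ hp]
        exact_mod_cast h6
      rw [lam_symm_mid e1 ha.le, lam_symm_mid hb.le e2]
      rcases m with _ | m
      · exfalso
        apply hne
        simp only [pow_zero, div_one] at e1 e2 ha hb ⊢
        have h1 : u ≤ k := by exact_mod_cast e1
        have h2 : k < u + 1 := by exact_mod_cast ha
        have h3 : k = u := by omega
        rw [h3]; exact ⟨rfl, rfl⟩
      · refine ⟨m, k - u * 2 ^ m, ?_, ?_⟩
        · push_cast; rw [pow_succ]; field_simp
        · push_cast; rw [pow_succ]; field_simp; ring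

lemma chi_lam (u : ℤ) (s t : ℝ) :
    chi ((lam u).symm s) ((lam u).symm t) = chi s t + de u s t := by
  unfold chi de
  by_cases h1 : s = u ∧ t = (u : ℝ) + 1
  · rw [if_neg (fun h => (isStd_lam.1 h).2 h1), if_pos h1, h1.1, h1.2, if_pos (isStd_int u)]
    decide
  · rw [if_neg h1, add_zero]
    by_cases h2 : IsStd s t
    · rw [if_pos h2, if_pos (isStd_lam.2 ⟨h2, h1⟩)]
    · rw [if_neg h2, if_neg (fun h => h2 (isStd_lam.1 h).1)]

lemma de_lam_left {u v : ℝ} (h : u + 1 ≤ v) (s t : ℝ) :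
    de (v + 1) ((lam u).symm s) ((lam u).symm t) = de v s t := by
  have e1 : (lam u).symm t = v + 1 + 1 ↔ t = v + 1 := by
    rw [OrderIso.symm_apply_eq, lam_of_ge (by linarith)]; ring_nf
  have e2 : (lam u).symm s = v + 1 ↔ s = v := by
    rw [OrderIso.symm_apply_eq, lam_of_ge (by linarith)]; ring_nf
  simp only [de, e1, e2]

lemma de_lam_right {u v : ℝ} (h : u + 1 ≤ v) (s t : ℝ) :
    de u ((lam v).symm s) ((lam v).symm t) = de u s t := by
  have e1 : (lam v).symm t = u + 1 ↔ t = u + 1 := by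
    rw [OrderIso.symm_apply_eq, lam_of_le (by linarith)]
  have e2 : (lam v).symm s = u ↔ s = u := by
    rw [OrderIso.symm_apply_eq, lam_of_le (by linarith)]
  simp only [de, e1, e2]

/-- the splitting element -/
noncomputable def lh (u : ℝ) : Amb :=
  { c := fun q => chi (q 0) (q 1) * de u (q 2) (q 3), f := lam u }

lemma lh_c (u : ℝ) (q : Qd) : (lh u).c q = chi (q 0) (q 1) * de u (q 2) (q 3) := rfl
lemma lh_f (u : ℝ) : (lh u).f = lam u := rfl

/-- the label in the commutation relation -/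
noncomputable def c0 (u v : ℝ) (q : Qd) : ZMod 2 :=
  de u (q 0) (q 1) * de v (q 2) (q 3) + de v (q 0) (q 1) * de u (q 2) (q 3)

/-- The twisted commutation relation. -/
lemma lh_comm {j k : ℕ} (h : j + 1 ≤ k) :
    lh (j : ℝ) * lh ((k : ℝ) + 1) = iota (c0 j k) * (lh (k : ℝ) * lh (j : ℝ)) := by
  have h' : (j : ℝ) + 1 ≤ k := by exact_mod_cast h
  refine Amb.ext ?_ ?_
  · funext q
    rw [iota_mul_c, mul_c, mul_c]
    simp only [lh_c, lh_f, mv_apply, c0]
    have e1 := chi_lam (j : ℤ) (q 0) (q 1)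
    have e2 := chi_lam (k : ℤ) (q 0) (q 1)
    simp only [Int.cast_natCast] at e1 e2
    rw [de_lam_left h', de_lam_right h', e1, e2]
    generalize chi (q 0) (q 1) = x
    generalize de (j : ℝ) (q 0) (q 1) = a
    generalize de (k : ℝ) (q 0) (q 1) = b
    generalize de (j : ℝ) (q 2) (q 3) = a'
    generalize de (k : ℝ) (q 2) (q 3) = b'
    revert x a b a' b'
    decide
  · ext t
    simp only [mul_f_apply, lh_f, iota_f_apply]
    exact lam_comm h' t

/-! ### cosets of labels -/

open Pointwise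

/-- all elements differing from `g` only in labels on quadruples from `P` -/
def cos (P : Finset ℝ) (g : Amb) : Set Amb :=
  {x | x.f = g.f ∧ ∀ q, ¬ Inq P q → x.c q = g.c q}

lemma mem_cos {P : Finset ℝ} {g x : Amb} : x ∈ cos P g ↔
    x.f = g.f ∧ ∀ q, ¬ Inq P q → x.c q = g.c q := Iff.rfl

lemma self_mem_cos (P : Finset ℝ) (g : Amb) : g ∈ cos P g := ⟨rfl, fun _ _ => rfl⟩

lemma mem_cos_symm {P : Finset ℝ} {g x : Amb} (h : x ∈ cos P g) : g ∈ cos P x :=
  ⟨h.1.symm, fun q hq => (h.2 q hq).symm⟩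

lemma mem_cos_trans {P : Finset ℝ} {g x y : Amb} (h : x ∈ cos P g) (h' : y ∈ cos P x) :
    y ∈ cos P g :=
  ⟨h'.1.trans h.1, fun q hq => (h'.2 q hq).trans (h.2 q hq)⟩

lemma mem_cos_mono {P Q : Finset ℝ} (hPQ : P ⊆ Q) {g x : Amb} (h : x ∈ cos P g) :
    x ∈ cos Q g :=
  ⟨h.1, fun q hq => h.2 q (fun h2 => hq (Inq.mono hPQ h2))⟩

lemma cos_eq {P : Finset ℝ} {g x : Amb} (h : x ∈ cos P g) : cos P x = cos P g := by
  ext y
  exact ⟨fun hy => mem_cos_trans h hy, fun hy => mem_cos_trans (mem_cos_symm h) hy⟩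

lemma mem_cos_of_eq {P Q : Finset ℝ} {g x : Amb} (h : cos P x = cos Q g) : x ∈ cos Q g := by
  rw [← h]; exact self_mem_cos P x

lemma cos_eq_iff {P : Finset ℝ} {g x : Amb} : cos P x = cos P g ↔ x ∈ cos P g :=
  ⟨mem_cos_of_eq, cos_eq⟩

lemma cos_eq_f {P Q : Finset ℝ} {g x : Amb} (h : cos P x = cos Q g) : x.f = g.f :=
  (mem_cos_of_eq h).1

lemma mem_cos_iff_iota {P : Finset ℝ} {g x : Amb} : x ∈ cos P g ↔
    ∃ c : Qd → ZMod 2, (∀ q, ¬ Inq P q → c q = 0) ∧ x = iota c * g := by
  constructor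
  · rintro ⟨h1, h3⟩
    refine ⟨fun q => x.c q - g.c q, fun q hq => by simp [h3 q hq], ?_⟩
    refine Amb.ext ?_ ?_
    · funext q; rw [iota_mul_c]; ring
    · rw [iota_mul_f, h1]
  · rintro ⟨c, hc, rfl⟩
    refine ⟨iota_mul_f c g, fun q hq => ?_⟩
    rw [iota_mul_c, hc q hq, zero_add]

lemma iota_mul_mem_cos {P : Finset ℝ} {g : Amb} {c : Qd → ZMod 2}
    (hc : ∀ q, ¬ Inq P q → c q = 0) : iota c * g ∈ cos P g :=
  mem_cos_iff_iota.2 ⟨c, hc, rfl⟩

lemma mul_mem_cos {P : Finset ℝ} {g x : Amb} (h : x ∈ cos P g) (u : Amb) :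
    x * u ∈ cos P (g * u) := by
  obtain ⟨c, hc, rfl⟩ := mem_cos_iff_iota.1 h
  rw [mul_assoc]
  exact iota_mul_mem_cos hc

lemma left_mul_mem_cos {P : Finset ℝ} {g x : Amb} (h : x ∈ cos P g) (u : Amb) :
    u * x ∈ cos (P.image u.f) (u * g) := by
  obtain ⟨c, hc, rfl⟩ := mem_cos_iff_iota.1 h
  rw [← mul_assoc, mul_iota, mul_assoc]
  refine iota_mul_mem_cos fun q hq => hc _ fun h => hq fun i => ?_
  exact Finset.mem_image.2 ⟨_, h i, by simp [mv_apply]⟩

lemma op_smul_cos (P : Finset ℝ) (g u : Amb) :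
    MulOpposite.op u • cos P g = cos P (g * u) := by
  ext x
  rw [Set.mem_smul_set_iff_inv_smul_mem]
  rw [← MulOpposite.op_inv, MulOpposite.smul_eq_mul_unop, MulOpposite.unop_op]
  constructor
  · intro h
    have := mul_mem_cos h u
    simpa using this
  · intro h
    have := mul_mem_cos h u⁻¹
    simpa using this

lemma image_inv_image (P : Finset ℝ) (u : Amb) : (P.image u.f).image (u⁻¹).f = P := by
  rw [Finset.image_image]
  have : ((u⁻¹).f ∘ u.f : ℝ → ℝ) = id := by
    funext t; simp [inv_f_apply]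
  rw [this, Finset.image_id]

lemma smul_cos (P : Finset ℝ) (g u : Amb) :
    u • cos P g = cos (P.image u.f) (u * g) := by
  ext x
  rw [Set.mem_smul_set_iff_inv_smul_mem, smul_eq_mul]
  constructor
  · intro h
    have := left_mul_mem_cos h u
    simpa using this
  · intro h
    have := left_mul_mem_cos h u⁻¹
    rw [image_inv_image] at this
    simpa using this

/-- enlarge the set of free labels -/
def sat (P : Finset ℝ) (y : Set Amb) : Set Amb := {x | ∃ z ∈ y, x ∈ cos P z}

lemma sat_cos {P Q : Finset ℝ} (h : P ⊆ Q) (g : Amb) : sat Q (cos P g) = cos Q g := by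
  ext x
  constructor
  · rintro ⟨z, hz, hx⟩
    exact mem_cos_trans (mem_cos_mono h hz) hx
  · intro hx
    exact ⟨g, self_mem_cos P g, hx⟩

lemma smul_sat (P : Finset ℝ) (y : Set Amb) (u : Amb) :
    u • sat P y = sat (P.image u.f) (u • y) := by
  ext x
  rw [Set.mem_smul_set_iff_inv_smul_mem, smul_eq_mul]
  constructor
  · rintro ⟨z, hz, hx⟩
    refine ⟨u * z, Set.smul_mem_smul_set hz, ?_⟩
    have := left_mul_mem_cos hx u
    simpa using this
  · rintro ⟨z, hz, hx⟩
    rw [Set.mem_smul_set_iff_inv_smul_mem, smul_eq_mul] at hz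
    refine ⟨u⁻¹ * z, hz, ?_⟩
    have := left_mul_mem_cos hx u⁻¹
    rw [image_inv_image] at this
    exact this

lemma smul_op_smul (y : Set Amb) (u v : Amb) :
    u • (MulOpposite.op v • y) = MulOpposite.op v • (u • y) := by
  rw [smul_comm]

end Amb

end Pool.Agent.OLF
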