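import Pool.Agent.OLF.Reach
import Pool.Agent.Lib_helper28.OFChain

set_option autoImplicit false

namespace Pool.Agent.OLF

open Amb
open Pool.Agent.Lib_helper28.OF
open scoped Pointwise

/-- Cells: division points, cube directions, label class. -/
@[ext] structure Cell where
  T : Finset ℝ
  ρ : Finset ℝ
  y : Set Amb

namespace Cell

noncomputable instance : SMul Amb Cell where
  smul g x := ⟨x.T.image g.f, x.ρ.image g.f, g • x.y⟩

lemma smul_T (g : Amb) (x : Cell) : (g • x).T = x.T.image g.f := rfl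
lemma smul_ρ (g : Amb) (x : Cell) : (g • x).ρ = x.ρ.image g.f := rfl
lemma smul_y (g : Amb) (x : Cell) : (g • x).y = g • x.y := rfl

noncomputable instance : MulAction Amb Cell where
  one_smul x := by
    have h1 : ((1 : Amb).f : ℝ → ℝ) = id := rfl
    refine Cell.ext ?_ ?_ ?_
    · rw [smul_T, h1, Finset.image_id]
    · rw [smul_ρ, h1, Finset.image_id]
    · rw [smul_y, one_smul]
  mul_smul g h x := by
    refine Cell.ext ?_ ?_ ?_
    · rw [smul_T, smul_T, smul_T, Finset.image_image]; rfl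
    · rw [smul_ρ, smul_ρ, smul_ρ, Finset.image_image]; rfl
    · rw [smul_y, smul_y, smul_y, mul_smul]

end Cell

/-- the cell of an element with directions `ρ` -/
noncomputable def cell (n : ℕ) (g : Amb) (ρ : Finset ℝ) : Cell := ⟨Tn n g, ρ, cos (Tn n g \ ρ) g⟩

/-- face of type 0: forget the direction `t`, keep the division point -/
noncomputable def f0 (t : ℝ) (x : Cell) : Cell :=
  ⟨x.T, x.ρ.erase t, sat (x.T \ x.ρ.erase t) x.y⟩

/-- face of type 1: merge at `t` -/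
noncomputable def f1 (t : ℝ) (x : Cell) : Cell :=
  ⟨x.T.erase t, x.ρ.erase t, MulOpposite.op (lh ((ix x.T t - 1 : ℕ) : ℝ))⁻¹ • x.y⟩

/-- add the direction `p` -/
noncomputable def hp (p : ℝ) (x : Cell) : Cell :=
  ⟨insert p x.T, insert p x.ρ, MulOpposite.op (lh ((ix x.T p - 1 : ℕ) : ℝ)) • x.y⟩

lemma f0_cell (n : ℕ) (g : Amb) (ρ : Finset ℝ) (t : ℝ) :
    f0 t (cell n g ρ) = cell n g (ρ.erase t) := by
  refine Cell.ext rfl rfl ?_
  simp only [f0, cell]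
  exact sat_cos (Finset.sdiff_subset_sdiff (Finset.Subset.refl _) (Finset.erase_subset _ _)) g

lemma f1_cell {n i : ℕ} (g : Amb) (ρ : Finset ℝ) (hi : i < n)
    (ht : g.f ((i + 1 : ℕ) : ℝ) ∈ ρ) :
    f1 (g.f ((i + 1 : ℕ) : ℝ)) (cell (n + 1) g ρ) =
      cell n (g * (lh i)⁻¹) (ρ.erase (g.f ((i + 1 : ℕ) : ℝ))) := by
  refine Cell.ext ?_ rfl ?_
  · simp only [f1, cell]
    rw [Tn_merge g hi]
  · simp only [f1, cell]
    rw [ix_Tn g (show i + 1 ≤ n + 1 by omega), op_smul_cos, Tn_merge g hi,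
      Nat.add_sub_cancel]
    congr 1
    ext s
    simp only [Finset.mem_sdiff, Finset.mem_erase]
    constructor
    · rintro ⟨h1, h2⟩
      have : s ≠ g.f ((i + 1 : ℕ) : ℝ) := fun h => h2 (h ▸ ht)
      exact ⟨⟨this, h1⟩, fun h => h2 h.2⟩
    · rintro ⟨⟨h1, h2⟩, h3⟩
      exact ⟨h2, fun h => h3 ⟨h1, h⟩⟩

lemma hp_cell {n i : ℕ} (g : Amb) (ρ : Finset ℝ) (hi : i < n) :
    hp (mid g i) (cell n g ρ) = cell (n + 1) (g * lh i) (insert (mid g i) ρ) := by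
  refine Cell.ext ?_ rfl ?_
  · simp only [hp, cell]
    rw [Tn_split g hi]
  · simp only [hp, cell]
    rw [ix_mid g hi.le, op_smul_cos, Tn_split g hi, Nat.add_sub_cancel]
    congr 1
    ext s
    simp only [Finset.mem_sdiff, Finset.mem_insert]
    constructor
    · rintro ⟨h1, h2⟩
      refine ⟨Or.inr h1, ?_⟩
      rintro (h | h)
      · exact mid_not_mem n g i (h ▸ h1)
      · exact h2 h
    · rintro ⟨h1 | h1, h3⟩
      · exact absurd (Or.inl h1) h3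
      · exact ⟨h1, fun h => h3 (Or.inr h)⟩

/-- validity of a triple -/
structure Good (n : ℕ) (g : Amb) (ρ : Finset ℝ) : Prop where
  reach : Reach n g
  sub : ρ ⊆ Tn n g
  zero : g.f ((0 : ℕ) : ℝ) ∉ ρ
  last : g.f (n : ℝ) ∉ ρ
  ind : ∀ i < n, ¬ (g.f (i : ℝ) ∈ ρ ∧ g.f ((i + 1 : ℕ) : ℝ) ∈ ρ)

/-- the valid cells -/
def Cells : Set Cell := {x | ∃ n g ρ, Good n g ρ ∧ x = cell n g ρ}

lemma Good.mono {n : ℕ} {g : Amb} {ρ ρ' : Finset ℝ} (h : Good n g ρ) (h' : ρ' ⊆ ρ) :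
    Good n g ρ' :=
  ⟨h.reach, h'.trans h.sub, fun h2 => h.zero (h' h2), fun h2 => h.last (h' h2),
    fun i hi h2 => h.ind i hi ⟨h' h2.1, h' h2.2⟩⟩

lemma Good.index {n : ℕ} {g : Amb} {ρ : Finset ℝ} (h : Good n g ρ) {t : ℝ} (ht : t ∈ ρ) :
    ∃ m i, n = m + 1 ∧ i < m ∧ t = g.f ((i + 1 : ℕ) : ℝ) := by
  obtain ⟨j, hj, rfl⟩ := mem_Tn.1 (h.sub ht)
  have h0 : j ≠ 0 := by rintro rfl; exact h.zero ht
  have hn : j ≠ n := by rintro rfl; exact h.last ht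
  exact ⟨n - 1, j - 1, by omega, by omega, by rw [Nat.sub_add_cancel (by omega)]⟩

lemma Good.merge {n i : ℕ} {g : Amb} {ρ : Finset ℝ} (h : Good (n + 1) g ρ) (hi : i < n)
    (ht : g.f ((i + 1 : ℕ) : ℝ) ∈ ρ) :
    Good n (g * (lh i)⁻¹) (ρ.erase (g.f ((i + 1 : ℕ) : ℝ))) := by
  refine ⟨h.reach.merge i hi, ?_, ?_, ?_, ?_⟩
  · rw [Tn_merge g hi]
    exact Finset.erase_subset_erase _ h.sub
  · rw [merge_f_le g (Nat.zero_le _)]
    exact fun h2 => h.zero (Finset.mem_of_mem_erase h2)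
  · rw [merge_f_ge g (by omega)]
    exact fun h2 => h.last (Finset.mem_of_mem_erase h2)
  · rintro j hj ⟨h1, h2⟩
    have h1' := Finset.mem_of_mem_erase h1
    have h2' := Finset.mem_of_mem_erase h2
    rcases lt_trichotomy j i with hji | rfl | hji
    · rw [merge_f_le g hji.le] at h1'
      rw [merge_f_le g (by omega)] at h2'
      exact h.ind j (by omega) ⟨h1', h2'⟩
    · rw [merge_f_le g le_rfl] at h1'
      exact h.ind j (by omega) ⟨h1', ht⟩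
    · rw [merge_f_ge g (by omega)] at h1' h2'
      exact h.ind (j + 1) (by omega) ⟨h1', h2'⟩

lemma Good.split {n i : ℕ} {g : Amb} {ρ : Finset ℝ} (h : Good n g ρ) (hi : i < n)
    (h1 : g.f (i : ℝ) ∉ ρ) (h2 : g.f ((i + 1 : ℕ) : ℝ) ∉ ρ) :
    Good (n + 1) (g * lh i) (insert (mid g i) ρ) := by
  have hne : ∀ j : ℕ, g.f (j : ℝ) ∉ ρ → g.f (j : ℝ) ∉ insert (mid g i) ρ := by
    intro j hj hj'
    rcases Finset.mem_insert.1 hj' with h3 | h3
    · exact mid_ne g i j h3.symm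
    · exact hj h3
  refine ⟨h.reach.split i hi, ?_, ?_, ?_, ?_⟩
  · rw [Tn_split g hi]
    exact Finset.insert_subset_insert _ h.sub
  · rw [split_f_le g (Nat.zero_le _)]
    exact hne 0 h.zero
  · rw [split_f_ge g (by omega)]
    exact hne n h.last
  · rintro j hj ⟨h3, h4⟩
    rcases lt_trichotomy j i with hji | rfl | hji
    · rw [split_f_le g hji.le] at h3
      rw [split_f_le g (by omega)] at h4
      rcases Finset.mem_insert.1 h3 with h5 | h5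
      · exact mid_ne _ _ _ h5.symm
      rcases Finset.mem_insert.1 h4 with h6 | h6
      · exact mid_ne _ _ _ h6.symm
      exact h.ind j (by omega) ⟨h5, h6⟩
    · rw [split_f_le g le_rfl] at h3
      exact hne j h1 h3
    · rw [split_f_ge g (by omega)] at h4
      obtain ⟨k, rfl⟩ : ∃ k, j = k + 1 := ⟨j - 1, by omega⟩
      rcases Nat.lt_or_ge i k with hk | hk
      · rw [split_f_ge g (by omega)] at h3
        rcases Finset.mem_insert.1 h3 with h5 | h5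
        · exact mid_ne _ _ _ h5.symm
        rcases Finset.mem_insert.1 h4 with h6 | h6
        · exact mid_ne _ _ _ h6.symm
        exact h.ind k (by omega) ⟨h5, h6⟩
      · have : k = i := by omega
        subst this
        exact hne _ h2 h4

lemma f0_mem {x : Cell} (hx : x ∈ Cells) (t : ℝ) : f0 t x ∈ Cells := by
  obtain ⟨n, g, ρ, h, rfl⟩ := hx
  exact ⟨n, g, ρ.erase t, h.mono (Finset.erase_subset _ _), f0_cell n g ρ t⟩

lemma f1_mem {x : Cell} (hx : x ∈ Cells) {t : ℝ} (ht : t ∈ x.ρ) : f1 t x ∈ Cells := by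
  obtain ⟨n, g, ρ, h, rfl⟩ := hx
  obtain ⟨m, i, rfl, hi, rfl⟩ := h.index ht
  exact ⟨m, _, _, h.merge hi ht, f1_cell g ρ hi ht⟩

/-- the commutation relation up to labels -/
lemma rel_mem {j k : ℕ} (hjk : j + 1 ≤ k) (b : Amb) {P : Finset ℝ}
    (h1 : b.f (j : ℝ) ∈ P) (h2 : b.f ((j + 1 : ℕ) : ℝ) ∈ P) (h3 : b.f (k : ℝ) ∈ P)
    (h4 : b.f ((k + 1 : ℕ) : ℝ) ∈ P) :
    b * lh j * lh ((k + 1 : ℕ) : ℝ) ∈ cos P (b * lh k * lh j) := by
  have e : b * lh j * lh ((k + 1 : ℕ) : ℝ) =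
      iota (fun q => c0 j k (mv b.f.symm q)) * (b * lh k * lh j) := by
    have hc := lh_comm hjk
    push_cast
    rw [mul_assoc, hc, ← mul_assoc, mul_iota, mul_assoc, mul_assoc]
  rw [e]
  apply iota_mul_mem_cos
  push_cast at h2 h4
  have key : ∀ (u : ℝ), b.f u ∈ P → b.f (u + 1) ∈ P → ∀ s t : ℝ, ¬ (s ∈ P ∧ t ∈ P) →
      de u (b.f.symm s) (b.f.symm t) = 0 := by
    intro u hu hu1 s t hst
    unfold de
    rw [if_neg]
    rintro ⟨hs, ht⟩
    apply hst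
    rw [OrderIso.symm_apply_eq] at hs ht
    rw [hs, ht]
    exact ⟨hu, hu1⟩
  intro q hq
  have hq' : ¬ ((q 0 ∈ P ∧ q 1 ∈ P) ∧ (q 2 ∈ P ∧ q 3 ∈ P)) := by
    rintro ⟨⟨h5, h6⟩, ⟨h7, h8⟩⟩
    apply hq
    intro i
    fin_cases i
    · exact h5
    · exact h6
    · exact h7
    · exact h8
  simp only [c0, mv_apply]
  by_cases h5 : q 0 ∈ P ∧ q 1 ∈ P
  · have h6 : ¬ (q 2 ∈ P ∧ q 3 ∈ P) := fun h => hq' ⟨h5, h⟩
    rw [key j h1 h2 _ _ h6, key k h3 h4 _ _ h6]; simp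
  · rw [key j h1 h2 _ _ h5, key k h3 h4 _ _ h5]; simp

lemma cell_congr {n : ℕ} {g h : Amb} {ρ : Finset ℝ} (e : g ∈ cos (Tn n h \ ρ) h) :
    cell n g ρ = cell n h ρ := by
  have hT : Tn n g = Tn n h := Tn_congr e.1
  refine Cell.ext hT rfl ?_
  simp only [cell]
  rw [hT, cos_eq e]

lemma cell_eq_imp {n m : ℕ} {g h : Amb} {ρ ρ' : Finset ℝ} (e : cell n g ρ = cell m h ρ') :
    n = m ∧ ρ = ρ' ∧ g ∈ cos (Tn m h \ ρ') h := by
  have h1 : Tn n g = Tn m h := congrArg Cell.T e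
  have h2 : ρ = ρ' := congrArg Cell.ρ e
  have h3 : cos (Tn n g \ ρ) g = cos (Tn m h \ ρ') h := congrArg Cell.y e
  have h4 : n = m := by
    have := congrArg Finset.card h1
    rw [Tn_card, Tn_card] at this
    omega
  exact ⟨h4, h2, mem_cos_of_eq h3⟩

/-- commutation of the merging faces, ordered version -/
lemma f1_f1_lt {x : Cell} (hx : x ∈ Cells) {s t : ℝ} (hs : s ∈ x.ρ) (ht : t ∈ x.ρ)
    (hst : s < t) : f1 s (f1 t x) = f1 t (f1 s x) := by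
  obtain ⟨n, g, ρ, h, rfl⟩ := hx
  change s ∈ ρ at hs
  change t ∈ ρ at ht
  obtain ⟨m, i, rfl, hi, rfl⟩ := h.index ht
  obtain ⟨m', j, hm', hj, rfl⟩ := h.index hs
  obtain rfl : m' = m := by omega
  have hji : j < i := by
    have : ((j + 1 : ℕ) : ℝ) < ((i + 1 : ℕ) : ℝ) := g.f.lt_iff_lt.1 hst
    have : j + 1 < i + 1 := by exact_mod_cast this
    omega
  have hji2 : j + 1 ≠ i := by
    rintro rfl
    exact h.ind (j + 1) (by omega) ⟨hs, ht⟩
  obtain ⟨k, rfl⟩ : ∃ k, i = k + 1 := ⟨i - 1, by omega⟩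
  obtain ⟨m, rfl⟩ : ∃ q, m' = q + 1 := ⟨m' - 1, by omega⟩
  -- first order
  rw [f1_cell g ρ hi ht]
  have e1 : g.f ((j + 1 : ℕ) : ℝ) = (g * (lh ((k + 1 : ℕ) : ℝ))⁻¹).f ((j + 1 : ℕ) : ℝ) :=
    (merge_f_le g (by omega)).symm
  have m1 : g.f ((j + 1 : ℕ) : ℝ) ∈ ρ.erase (g.f ((k + 1 + 1 : ℕ) : ℝ)) :=
    Finset.mem_erase.2 ⟨hst.ne, hs⟩
  have c1 := f1_cell (n := m) (i := j) (g * (lh ((k + 1 : ℕ) : ℝ))⁻¹)
    (ρ.erase (g.f ((k + 1 + 1 : ℕ) : ℝ))) (by omega) (by rw [← e1]; exact m1)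
  rw [← e1] at c1
  rw [c1]
  -- second order
  rw [f1_cell g ρ (show j < m + 1 by omega) hs]
  have e2 : g.f ((k + 1 + 1 : ℕ) : ℝ) = (g * (lh (j : ℝ))⁻¹).f ((k + 1 : ℕ) : ℝ) :=
    (merge_f_ge g (by omega)).symm
  have m2 : g.f ((k + 1 + 1 : ℕ) : ℝ) ∈ ρ.erase (g.f ((j + 1 : ℕ) : ℝ)) :=
    Finset.mem_erase.2 ⟨hst.ne', ht⟩
  have c2 := f1_cell (n := m) (i := k) (g * (lh (j : ℝ))⁻¹)
    (ρ.erase (g.f ((j + 1 : ℕ) : ℝ))) (by omega) (by rw [← e2]; exact m2)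
  rw [← e2] at c2
  rw [c2, Finset.erase_right_comm]
  -- compare
  set σ := (ρ.erase (g.f ((j + 1 : ℕ) : ℝ))).erase (g.f ((k + 1 + 1 : ℕ) : ℝ)) with hσ
  set a := g * (lh ((k + 1 : ℕ) : ℝ))⁻¹ * (lh (j : ℝ))⁻¹ with ha
  set b := g * (lh (j : ℝ))⁻¹ * (lh (k : ℝ))⁻¹ with hb
  have hσρ : ∀ q, q ∉ ρ → q ∉ σ := fun q hq hq' =>
    hq (Finset.mem_of_mem_erase (Finset.mem_of_mem_erase hq'))
  -- values of `a.f`
  have v1 : a.f (j : ℝ) = g.f (j : ℝ) := by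
    rw [ha, merge_f_le _ le_rfl, merge_f_le _ (by omega)]
  have v2 : a.f ((j + 1 : ℕ) : ℝ) = g.f ((j + 1 + 1 : ℕ) : ℝ) := by
    rw [ha, merge_f_ge _ le_rfl, merge_f_le _ (by omega)]
  have v3 : a.f (k : ℝ) = g.f ((k + 1 : ℕ) : ℝ) := by
    rw [ha, merge_f_ge _ (by omega), merge_f_le _ (by omega)]
  have v4 : a.f ((k + 1 : ℕ) : ℝ) = g.f ((k + 1 + 1 + 1 : ℕ) : ℝ) := by
    rw [ha, merge_f_ge _ (by omega), merge_f_ge _ (by omega)]
  have n1 : g.f (j : ℝ) ∉ ρ := fun hh => h.ind j (by omega) ⟨hh, hs⟩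
  have n2 : g.f ((j + 1 + 1 : ℕ) : ℝ) ∉ ρ := fun hh => h.ind (j + 1) (by omega) ⟨hs, hh⟩
  have n3 : g.f ((k + 1 : ℕ) : ℝ) ∉ ρ := fun hh => h.ind (k + 1) (by omega) ⟨hh, ht⟩
  have n4 : g.f ((k + 1 + 1 + 1 : ℕ) : ℝ) ∉ ρ := fun hh =>
    h.ind (k + 1 + 1) (by omega) ⟨ht, hh⟩
  have hmem := rel_mem (P := Tn m a \ σ) (show j + 1 ≤ k by omega) a
    (Finset.mem_sdiff.2 ⟨f_mem_Tn (by omega), by rw [v1]; exact hσρ _ n1⟩)
    (Finset.mem_sdiff.2 ⟨f_mem_Tn (by omega), by rw [v2]; exact hσρ _ n2⟩)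
    (Finset.mem_sdiff.2 ⟨f_mem_Tn (by omega), by rw [v3]; exact hσρ _ n3⟩)
    (Finset.mem_sdiff.2 ⟨f_mem_Tn (by omega), by rw [v4]; exact hσρ _ n4⟩)
  have hg : a * lh j * lh ((k + 1 : ℕ) : ℝ) = g := by
    rw [ha]; group
  rw [hg] at hmem
  have h5 := mul_mem_cos hmem ((lh (j : ℝ))⁻¹ * (lh (k : ℝ))⁻¹)
  have e5 : g * ((lh (j : ℝ))⁻¹ * (lh (k : ℝ))⁻¹) = b := by rw [hb]; group
  have e6 : a * lh (k : ℝ) * lh (j : ℝ) * ((lh (j : ℝ))⁻¹ * (lh (k : ℝ))⁻¹) = a := by group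
  rw [e5, e6] at h5
  exact (cell_congr h5).symm

lemma f1_f1 {x : Cell} (hx : x ∈ Cells) {s t : ℝ} (hs : s ∈ x.ρ) (ht : t ∈ x.ρ)
    (hst : s ≠ t) : f1 s (f1 t x) = f1 t (f1 s x) := by
  rcases lt_or_gt_of_ne hst with h | h
  · exact f1_f1_lt hx hs ht h
  · exact (f1_f1_lt hx ht hs h).symm

lemma f0_f0 {x : Cell} (hx : x ∈ Cells) (s t : ℝ) : f0 s (f0 t x) = f0 t (f0 s x) := by
  obtain ⟨n, g, ρ, h, rfl⟩ := hx
  rw [f0_cell, f0_cell, f0_cell, f0_cell, Finset.erase_right_comm]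

lemma f0_f1 {x : Cell} (hx : x ∈ Cells) {s t : ℝ} (ht : t ∈ x.ρ) (hst : s ≠ t) :
    f0 s (f1 t x) = f1 t (f0 s x) := by
  obtain ⟨n, g, ρ, h, rfl⟩ := hx
  change t ∈ ρ at ht
  obtain ⟨m, i, rfl, hi, rfl⟩ := h.index ht
  rw [f1_cell g ρ hi ht, f0_cell, f0_cell,
    f1_cell g _ hi (Finset.mem_erase.2 ⟨hst.symm, ht⟩), Finset.erase_right_comm]

/-! ### the pivot set -/

/-- midpoints of the leaves of the bottom vertex of a cell -/
def MM (x : Cell) : Set ℝ :=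
  {p | p ∈ x.ρ ∨ ∃ g ∈ x.y, ∃ i : ℕ, i + 1 < x.T.card ∧ p = mid g i ∧
    g.f (i : ℝ) ∉ x.ρ ∧ g.f ((i + 1 : ℕ) : ℝ) ∉ x.ρ}

lemma mem_MM_cell {n : ℕ} {g : Amb} {ρ : Finset ℝ} {p : ℝ} : p ∈ MM (cell n g ρ) ↔
    p ∈ ρ ∨ ∃ i < n, p = mid g i ∧ g.f (i : ℝ) ∉ ρ ∧ g.f ((i + 1 : ℕ) : ℝ) ∉ ρ := by
  unfold MM
  constructor
  · rintro (h | ⟨g', hg', i, hi, rfl, h1, h2⟩)
    · exact Or.inl h
    · right
      have hf : g'.f = g.f := hg'.1
      have hi' : i + 1 < (Tn n g).card := hi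
      rw [Tn_card] at hi'
      refine ⟨i, by omega, mid_congr hf i, ?_, ?_⟩
      · rw [← hf]; exact h1
      · rw [← hf]; exact h2
  · rintro (h | ⟨i, hi, rfl, h1, h2⟩)
    · exact Or.inl h
    · right
      refine ⟨g, self_mem_cos _ _, i, ?_, rfl, h1, h2⟩
      change i + 1 < (Tn n g).card
      rw [Tn_card]; omega

lemma hp_mem {x : Cell} (hx : x ∈ Cells) {p : ℝ} (hp1 : p ∈ MM x) (hp2 : p ∉ x.ρ) :
    hp p x ∈ Cells := by
  obtain ⟨n, g, ρ, h, rfl⟩ := hx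
  rcases mem_MM_cell.1 hp1 with h1 | ⟨i, hi, rfl, h1, h2⟩
  · exact absurd h1 hp2
  · exact ⟨n + 1, _, _, h.split hi h1 h2, hp_cell g ρ hi⟩

lemma hp_ρ (x : Cell) (p : ℝ) : (hp p x).ρ = insert p x.ρ := rfl
lemma f0_ρ (x : Cell) (t : ℝ) : (f0 t x).ρ = x.ρ.erase t := rfl
lemma f1_ρ (x : Cell) (t : ℝ) : (f1 t x).ρ = x.ρ.erase t := rfl
lemma hp_T (x : Cell) (p : ℝ) : (hp p x).T = insert p x.T := rfl
lemma f0_T (x : Cell) (t : ℝ) : (f0 t x).T = x.T := rfl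
lemma f1_T (x : Cell) (t : ℝ) : (f1 t x).T = x.T.erase t := rfl

lemma f1_hp {x : Cell} (hx : x ∈ Cells) {p : ℝ} (hp1 : p ∈ MM x) (hp2 : p ∉ x.ρ) :
    f1 p (hp p x) = x := by
  obtain ⟨n, g, ρ, h, rfl⟩ := hx
  rcases mem_MM_cell.1 hp1 with h1 | ⟨i, hi, rfl, h1, h2⟩
  · exact absurd h1 hp2
  · change mid g i ∉ ρ at hp2
    rw [hp_cell g ρ hi]
    have e := f1_cell (n := n) (g * lh i) (insert (mid g i) ρ) hi
      (by rw [split_f_mid]; exact Finset.mem_insert_self _ _)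
    rw [split_f_mid, Finset.erase_insert hp2, mul_inv_cancel_right] at e
    exact e

lemma hp_f1 {x : Cell} (hx : x ∈ Cells) {t : ℝ} (ht : t ∈ x.ρ) :
    hp t (f1 t x) = x := by
  obtain ⟨n, g, ρ, h, rfl⟩ := hx
  change t ∈ ρ at ht
  obtain ⟨m, i, rfl, hi, rfl⟩ := h.index ht
  rw [f1_cell g ρ hi ht]
  have e := hp_cell (n := m) (g * (lh i)⁻¹) (ρ.erase (g.f ((i + 1 : ℕ) : ℝ))) hi
  rw [merge_mid, inv_mul_cancel_right, Finset.insert_erase ht] at e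
  exact e

lemma mem_MM_f1 {x : Cell} (hx : x ∈ Cells) {t : ℝ} (ht : t ∈ x.ρ) :
    t ∈ MM (f1 t x) := by
  obtain ⟨n, g, ρ, h, rfl⟩ := hx
  change t ∈ ρ at ht
  obtain ⟨m, i, rfl, hi, rfl⟩ := h.index ht
  rw [f1_cell g ρ hi ht, mem_MM_cell]
  right
  refine ⟨i, hi, (merge_mid g i).symm, ?_, ?_⟩
  · rw [merge_f_le g le_rfl]
    exact fun h2 => h.ind i (by omega) ⟨Finset.mem_of_mem_erase h2, ht⟩
  · rw [merge_f_ge g le_rfl]
    exact fun h2 => h.ind (i + 1) (by omega) ⟨ht, Finset.mem_of_mem_erase h2⟩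

lemma MM_hp {x : Cell} (hx : x ∈ Cells) {p : ℝ} (hp1 : p ∈ MM x) (hp2 : p ∉ x.ρ) :
    MM (hp p x) = MM x := by
  obtain ⟨n, g, ρ, h, rfl⟩ := hx
  rcases mem_MM_cell.1 hp1 with h1 | ⟨i, hi, rfl, h1, h2⟩
  · exact absurd h1 hp2
  · rw [hp_cell g ρ hi]
    ext q
    rw [mem_MM_cell, mem_MM_cell]
    constructor
    · rintro (hq | ⟨j, hj, rfl, h3, h4⟩)
      · rcases Finset.mem_insert.1 hq with rfl | hq
        · exact Or.inr ⟨i, hi, rfl, h1, h2⟩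
        · exact Or.inl hq
      · right
        rcases lt_trichotomy j i with hji | rfl | hji
        · rw [split_f_le g hji.le] at h3
          rw [split_f_le g (by omega)] at h4
          exact ⟨j, by omega, split_mid_lt g hji,
            fun hh => h3 (Finset.mem_insert_of_mem hh),
            fun hh => h4 (Finset.mem_insert_of_mem hh)⟩
        · rw [split_f_mid] at h4
          exact absurd (Finset.mem_insert_self _ _) h4
        · obtain ⟨k, rfl⟩ : ∃ k, j = k + 1 := ⟨j - 1, by omega⟩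
          rcases Nat.lt_or_ge i k with hk | hk
          · rw [split_f_ge g (by omega)] at h3 h4
            exact ⟨k, by omega, split_mid_gt g hk,
              fun hh => h3 (Finset.mem_insert_of_mem hh),
              fun hh => h4 (Finset.mem_insert_of_mem hh)⟩
          · have : k = i := by omega
            subst this
            rw [split_f_mid] at h3
            exact absurd (Finset.mem_insert_self _ _) h3
    · rintro (hq | ⟨j, hj, rfl, h3, h4⟩)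
      · exact Or.inl (Finset.mem_insert_of_mem hq)
      · have hne : ∀ k : ℕ, g.f (k : ℝ) ∉ ρ → g.f (k : ℝ) ∉ insert (mid g i) ρ := by
          intro k hk hk'
          rcases Finset.mem_insert.1 hk' with h5 | h5
          · exact mid_ne g i k h5.symm
          · exact hk h5
        rcases lt_trichotomy j i with hji | rfl | hji
        · right
          refine ⟨j, by omega, (split_mid_lt g hji).symm, ?_, ?_⟩
          · rw [split_f_le g hji.le]; exact hne _ h3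
          · rw [split_f_le g (by omega)]; exact hne _ h4
        · exact Or.inl (Finset.mem_insert_self _ _)
        · right
          refine ⟨j + 1, by omega, (split_mid_gt g hji).symm, ?_, ?_⟩
          · rw [split_f_ge g (by omega)]; exact hne _ h3
          · rw [split_f_ge g (by omega)]; exact hne _ h4

lemma MM_f1 {x : Cell} (hx : x ∈ Cells) {t : ℝ} (ht : t ∈ x.ρ) :
    MM (f1 t x) = MM x := by
  have h1 := mem_MM_f1 hx ht
  have h2 := MM_hp (f1_mem hx ht) h1 (by rw [f1_ρ]; exact Finset.notMem_erase _ _)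
  rw [hp_f1 hx ht] at h2
  exact h2.symm

lemma f1_hp_comm {x : Cell} (hx : x ∈ Cells) {p t : ℝ} (hp1 : p ∈ MM x) (hp2 : p ∉ x.ρ)
    (ht : t ∈ x.ρ) : f1 t (hp p x) = hp p (f1 t x) := by
  have hne : p ≠ t := fun h => hp2 (h ▸ ht)
  have hX := hp_mem hx hp1 hp2
  have hpX : p ∈ (hp p x).ρ := Finset.mem_insert_self _ _
  have htX : t ∈ (hp p x).ρ := Finset.mem_insert_of_mem ht
  have h1 := f1_f1 hX hpX htX hne
  rw [f1_hp hx hp1 hp2] at h1
  rw [← h1, hp_f1 (f1_mem hX htX)]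
  rw [f1_ρ]
  exact Finset.mem_erase.2 ⟨hne, hpX⟩

/-! ### equivariance -/

lemma smul_f0 (u : Amb) (t : ℝ) (x : Cell) : u • f0 t x = f0 (u.f t) (u • x) := by
  refine Cell.ext rfl ?_ ?_
  · simp only [f0, Cell.smul_ρ]
    exact Finset.image_erase u.f.injective _ _
  · simp only [f0, Cell.smul_y, Cell.smul_ρ, Cell.smul_T]
    rw [smul_sat, ← Finset.image_erase u.f.injective, Finset.image_sdiff _ _ u.f.injective]

lemma smul_f1 (u : Amb) (t : ℝ) (x : Cell) : u • f1 t x = f1 (u.f t) (u • x) := by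
  refine Cell.ext ?_ ?_ ?_
  · simp only [f1, Cell.smul_T]
    exact Finset.image_erase u.f.injective _ _
  · simp only [f1, Cell.smul_ρ]
    exact Finset.image_erase u.f.injective _ _
  · simp only [f1, Cell.smul_y, Cell.smul_T]
    rw [smul_op_smul, ix_image]

lemma smul_cell (u g : Amb) (n : ℕ) (ρ : Finset ℝ) :
    u • cell n g ρ = cell n (u * g) (ρ.image u.f) := by
  refine Cell.ext ?_ rfl ?_
  · simp only [cell, Cell.smul_T]
    rw [Tn_left]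
  · simp only [cell, Cell.smul_y]
    rw [smul_cos, Finset.image_sdiff _ _ u.f.injective, Tn_left]

end Pool.Agent.OLF
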