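import Pool.Agent.OLF.Order

set_option autoImplicit false

namespace Pool.Agent.OLF

open Pool.Agent.Lib_helper28.OF

open Amb Finsupp
open Relation

/-- differential on cells -/
noncomputable def Dc (x : Cell) : Cell →₀ ℤ :=
  ∑ t ∈ x.ρ, sgn t x.ρ • (single (f0 t x) 1 - single (f1 t x) 1)

/-- differential -/
noncomputable def dc : (Cell →₀ ℤ) →ₗ[ℤ] (Cell →₀ ℤ) := lext Dc

lemma dc_single (x : Cell) : dc (single x 1) = Dc x := lext_single_one _ _

lemma dc_dc {z : Cell →₀ ℤ} (hz : z ∈ Sp Cells) : dc (dc z) = 0 := by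
  refine map_congr_of (F := dc ∘ₗ dc) (G := 0) ?_ hz
  intro x hx
  rw [LinearMap.comp_apply, dc_single, LinearMap.zero_apply, Dc, map_sum]
  have : ∀ t ∈ x.ρ, dc (sgn t x.ρ • (single (f0 t x) 1 - single (f1 t x) 1)) =
      sgn t x.ρ • ∑ s ∈ x.ρ.erase t, sgn s (x.ρ.erase t) •
        ((single (f0 s (f0 t x)) 1 - single (f1 s (f0 t x)) 1) -
          (single (f0 s (f1 t x)) 1 - single (f1 s (f1 t x)) 1) : Cell →₀ ℤ) := by
    intro t _
    rw [map_smul, map_sub, dc_single, dc_single, Dc, Dc, f0_ρ, f1_ρ, ← Finset.sum_sub_distrib]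
    congr 1
    refine Finset.sum_congr rfl fun s _ => ?_
    rw [← smul_sub]
  rw [Finset.sum_congr rfl this]
  apply sum_sgn_zero x.ρ (fun t s =>
    ((single (f0 s (f0 t x)) 1 - single (f1 s (f0 t x)) 1) -
          (single (f0 s (f1 t x)) 1 - single (f1 s (f1 t x)) 1) : Cell →₀ ℤ))
  intro s hs t ht hst
  rw [f0_f0 hx t s, f1_f1 hx ht hs hst.symm, f0_f1 hx ht hst, f0_f1 hx hs hst.symm]
  abel

open Classical in
/-- a pivot -/
noncomputable def piv (w x : Cell) : ℝ :=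
  if h : ∃ p, p ∈ w.T ∧ p ∈ MM x then h.choose else 0

/-- there is a pivot -/
def HasPiv (w x : Cell) : Prop := ∃ p, p ∈ w.T ∧ p ∈ MM x

lemma piv_spec {w x : Cell} (h : HasPiv w x) : piv w x ∈ w.T ∧ piv w x ∈ MM x := by
  have h' : ∃ p, p ∈ w.T ∧ p ∈ MM x := h
  unfold piv
  rw [dif_pos h']
  exact h'.choose_spec

lemma piv_congr {w x x' : Cell} (h : MM x' = MM x) : piv w x' = piv w x := by
  unfold piv
  rw [h]

lemma HasPiv_congr {w x x' : Cell} (h : MM x' = MM x) : HasPiv w x' ↔ HasPiv w x := by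
  unfold HasPiv
  rw [h]

open Classical in
/-- homotopy -/
noncomputable def hc (w : Cell) : (Cell →₀ ℤ) →ₗ[ℤ] (Cell →₀ ℤ) :=
  lext fun x => if HasPiv w x ∧ piv w x ∉ x.ρ then
    sgn (piv w x) x.ρ • single (hp (piv w x) x) 1 else 0

open Classical in
lemma hc_single (w x : Cell) : hc w (single x 1) =
    if HasPiv w x ∧ piv w x ∉ x.ρ then
    sgn (piv w x) x.ρ • single (hp (piv w x) x) 1 else 0 := lext_single_one _ _

lemma sgn_aux {p t : ℝ} {ρ : Finset ℝ} (ht : t ∈ ρ) (hp : p ∉ ρ) :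
    sgn p ρ * sgn t (insert p ρ) + sgn t ρ * sgn p (ρ.erase t) = 0 := by
  have hne : t ≠ p := fun h => hp (h ▸ ht)
  rcases lt_or_gt_of_ne hne with h | h
  · rw [sgn_insert_ge h.le, sgn_erase_lt h ht]; ring
  · rw [sgn_insert_lt h hp, sgn_erase_ge h.le]; ring

/-- target of the homotopy formula -/
def Tgt (A : Finset ℝ) (w x : Cell) : Set Cell :=
  {x' | x' ∈ BA A w ∧ x'.ρ.card = x.ρ.card ∧ x'.T.card = x.T.card + 1}

lemma hc_mem {A : Finset ℝ} {w x : Cell} (hx : x ∈ BA A w) :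
    hc w (single x 1) ∈ Sp {x' | x' ∈ BA A w ∧ x'.ρ.card = x.ρ.card + 1 ∧
      x'.T.card = x.T.card + 1} := by
  classical
  rw [hc_single]
  split_ifs with h
  · obtain ⟨h1, h2⟩ := h
    obtain ⟨h3, h4⟩ := piv_spec h1
    apply Submodule.smul_mem
    have hm : hp (piv w x) x ∈ {x' | x' ∈ BA A w ∧ x'.ρ.card = x.ρ.card + 1 ∧
        x'.T.card = x.T.card + 1} := by
      refine ⟨hp_BA hx h4 h2 h3, ?_, ?_⟩
      · rw [hp_ρ, Finset.card_insert_of_notMem h2]
      · rw [hp_T, Finset.card_insert_of_notMem (MM_not_mem_T hx.1 h4 h2)]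
    exact single_mem_Sp hm 1
  · exact Submodule.zero_mem _

lemma hc_f0_mem {A : Finset ℝ} {w x : Cell} (hx : x ∈ BA A w) {t : ℝ} (ht : t ∈ x.ρ) :
    hc w (single (f0 t x) 1) ∈ Sp (Tgt A w x) := by
  refine Sp_mono ?_ (hc_mem (f0_BA hx t))
  rintro x' ⟨h1, h2, h3⟩
  refine ⟨h1, ?_, h3⟩
  rw [h2, f0_ρ, Finset.card_erase_add_one ht]

lemma homotopy {A : Finset ℝ} {w x : Cell} (hx : x ∈ BA A w) (hP : HasPiv w x) :
    dc (hc w (single x 1)) + hc w (dc (single x 1)) + single x 1 ∈ Sp (Tgt A w x) := by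
  classical
  obtain ⟨hpw, hpM⟩ := piv_spec hP
  set p := piv w x with hpdef
  have hpf1 : ∀ t ∈ x.ρ, piv w (f1 t x) = p := fun t ht => piv_congr (MM_f1 hx.1 ht)
  have hPf1 : ∀ t ∈ x.ρ, HasPiv w (f1 t x) := fun t ht => (HasPiv_congr (MM_f1 hx.1 ht)).2 hP
  have e0 : hc w (dc (single x 1)) = ∑ t ∈ x.ρ, sgn t x.ρ •
      (hc w (single (f0 t x) 1) - hc w (single (f1 t x) 1)) := by
    rw [dc_single, Dc, map_sum]
    refine Finset.sum_congr rfl fun t _ => ?_
    rw [map_smul, map_sub]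
  by_cases hpρ : p ∈ x.ρ
  · -- pivot already used
    have e1 : hc w (single x 1) = 0 := by
      rw [hc_single, if_neg]; rintro ⟨_, h⟩; exact h hpρ
    have e2 : ∑ t ∈ x.ρ, sgn t x.ρ • hc w (single (f1 t x) 1) = single x 1 := by
      rw [Finset.sum_eq_single p]
      · rw [hc_single, if_pos ⟨hPf1 p hpρ, by
          rw [hpf1 p hpρ, f1_ρ]; exact Finset.notMem_erase _ _⟩, hpf1 p hpρ, hp_f1 hx.1 hpρ,
          f1_ρ, sgn_erase_ge le_rfl, smul_smul, sgn_mul_self, one_smul]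
      · intro t ht htp
        rw [hc_single, if_neg, smul_zero]
        rintro ⟨_, h⟩
        apply h
        rw [hpf1 t ht, f1_ρ]
        exact Finset.mem_erase.2 ⟨htp.symm, hpρ⟩
      · intro h; exact absurd hpρ h
    have e3 : dc (hc w (single x 1)) + hc w (dc (single x 1)) + single x 1 =
        ∑ t ∈ x.ρ, sgn t x.ρ • hc w (single (f0 t x) 1) := by
      rw [e1, map_zero, zero_add, e0]
      simp only [smul_sub]
      rw [Finset.sum_sub_distrib, e2]
      abel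
    rw [e3]
    exact Submodule.sum_mem _ fun t ht => Submodule.smul_mem _ _ (hc_f0_mem hx ht)
  · -- new pivot
    have e1 : hc w (single x 1) = sgn p x.ρ • single (hp p x) 1 := by
      rw [hc_single, if_pos ⟨hP, hpρ⟩]
    have hpT := MM_not_mem_T hx.1 hpM hpρ
    have hX := hp_BA hx hpM hpρ hpw
    have e2 : ∀ t ∈ x.ρ, hc w (single (f1 t x) 1) =
        sgn p (x.ρ.erase t) • single (f1 t (hp p x)) 1 := by
      intro t ht
      rw [hc_single, if_pos ⟨hPf1 t ht, by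
        rw [hpf1 t ht, f1_ρ]; exact fun h => hpρ (Finset.mem_of_mem_erase h)⟩, hpf1 t ht,
        f1_hp_comm hx.1 hpM hpρ ht, f1_ρ]
    have e3 : dc (hc w (single x 1)) = single (f0 p (hp p x)) 1 - single x 1 +
        ∑ t ∈ x.ρ, (sgn p x.ρ * sgn t (insert p x.ρ)) •
          (single (f0 t (hp p x)) 1 - single (f1 t (hp p x)) 1) := by
      rw [e1, map_smul, dc_single, Dc, hp_ρ, Finset.sum_insert hpρ, smul_add, f1_hp hx.1 hpM hpρ,
        sgn_insert_ge le_rfl, smul_smul, sgn_mul_self, one_smul, Finset.smul_sum]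
      simp only [smul_smul]
    have e4 : dc (hc w (single x 1)) + hc w (dc (single x 1)) + single x 1 =
        single (f0 p (hp p x)) 1 + ∑ t ∈ x.ρ, ((sgn p x.ρ * sgn t (insert p x.ρ)) •
          single (f0 t (hp p x)) 1 + sgn t x.ρ • hc w (single (f0 t x) 1)) := by
      rw [e3, e0]
      have : ∀ t ∈ x.ρ, (sgn p x.ρ * sgn t (insert p x.ρ)) •
          (single (f0 t (hp p x)) 1 - single (f1 t (hp p x)) 1 : Cell →₀ ℤ) +
          sgn t x.ρ • (hc w (single (f0 t x) 1) - hc w (single (f1 t x) 1)) =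
          (sgn p x.ρ * sgn t (insert p x.ρ)) •
          single (f0 t (hp p x)) 1 + sgn t x.ρ • hc w (single (f0 t x) 1) := by
        intro t ht
        have hs := sgn_aux ht hpρ
        have hs' : (sgn p x.ρ * sgn t (insert p x.ρ)) =
            - (sgn t x.ρ * sgn p (x.ρ.erase t)) := by linarith
        rw [e2 t ht, smul_sub, smul_sub, smul_smul, hs']
        simp only [neg_smul]
        abel
      rw [← Finset.sum_congr rfl this, Finset.sum_add_distrib]
      abel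
    rw [e4]
    have hm1 : f0 p (hp p x) ∈ Tgt A w x := by
      refine ⟨f0_BA hX p, ?_, ?_⟩
      · rw [f0_ρ, hp_ρ, Finset.erase_insert hpρ]
      · rw [f0_T, hp_T, Finset.card_insert_of_notMem hpT]
    have hm2 : ∀ t ∈ x.ρ, f0 t (hp p x) ∈ Tgt A w x := by
      intro t ht
      refine ⟨f0_BA hX t, ?_, ?_⟩
      · rw [f0_ρ, hp_ρ]
        have h1 := Finset.card_erase_add_one (Finset.mem_insert_of_mem ht : t ∈ insert p x.ρ)
        have h2 := Finset.card_insert_of_notMem hpρ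
        omega
      · rw [f0_T, hp_T, Finset.card_insert_of_notMem hpT]
    exact Submodule.add_mem _ (single_mem_Sp hm1 1)
      (Submodule.sum_mem _ fun t ht => Submodule.add_mem _ (Submodule.smul_mem _ _
        (single_mem_Sp (hm2 t ht) 1)) (Submodule.smul_mem _ _ (hc_f0_mem hx ht)))

lemma Sp_BA_le (A : Finset ℝ) (w : Cell) (P : Cell → Prop) :
    Sp {x | x ∈ BA A w ∧ P x} ≤ Sp Cells := Sp_mono fun _ hx => hx.1.1

lemma BA_exact_aux (A : Finset ℝ) (w : Cell) (k : ℕ) : ∀ N : ℕ, ∀ z : Cell →₀ ℤ,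
    z ∈ Sp {x | x ∈ BA A w ∧ x.ρ.card = k + 1 ∧ w.T.card + 1 ≤ x.T.card + N} → dc z = 0 →
    ∃ u ∈ Sp {x | x ∈ BA A w ∧ x.ρ.card = k + 2}, dc u = z := by
  intro N
  induction N with
  | zero =>
    intro z hz _
    refine ⟨0, Submodule.zero_mem _, ?_⟩
    rw [map_zero]
    symm
    ext x
    by_contra hx
    obtain ⟨h1, _, h3⟩ := mem_Sp.1 hz x hx
    have := Finset.card_le_card (BA_T_sub h1)
    omega
  | succ N ih =>
    intro z hz hdz
    have h1 : dc (hc w z) + hc w (dc z) + z ∈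
        Sp {x | x ∈ BA A w ∧ x.ρ.card = k + 1 ∧ w.T.card + 1 ≤ x.T.card + N} := by
      refine map_mem_of (F := dc ∘ₗ hc w + hc w ∘ₗ dc + LinearMap.id) ?_ hz
      rintro x ⟨hx1, hx2, hx3⟩
      have hpos : x.ρ.Nonempty := by
        rw [← Finset.card_pos]; omega
      obtain ⟨p, hp⟩ := hpos
      have hP : HasPiv w x := ⟨p, BA_T_sub hx1 (Cells_ρ_sub hx1.1 hp), ρ_sub_MM x p hp⟩
      refine Sp_mono ?_ (homotopy hx1 hP)
      rintro x' ⟨h1, h2, h3⟩
      exact ⟨h1, by omega, by omega⟩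
    have h2 : hc w z ∈ Sp {x | x ∈ BA A w ∧ x.ρ.card = k + 2} := by
      refine map_mem_of ?_ hz
      rintro x ⟨hx1, hx2, hx3⟩
      refine Sp_mono ?_ (hc_mem hx1)
      rintro x' ⟨h1, h2, h3⟩
      exact ⟨h1, by omega⟩
    rw [hdz, map_zero, add_zero] at h1
    obtain ⟨u, hu, hdu⟩ := ih _ h1 (by
      rw [map_add, dc_dc (Sp_BA_le A w _ h2), hdz, add_zero])
    refine ⟨u - hc w z, Submodule.sub_mem _ hu h2, ?_⟩
    rw [map_sub, hdu]
    abel

/-- Cells for the stabiliser of `A` -/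
def CA (A : Finset ℝ) (k : ℕ) : Set Cell :=
  {x | x ∈ Cells ∧ A ⊆ x.T \ x.ρ ∧ x.ρ.card = k}

lemma top_isV {x : Cell} (hx : x ∈ Cells) : IsV (top x) := by
  obtain ⟨n, g, ρ, h, rfl⟩ := hx
  exact ⟨n, g, h.reach, top_cell n g ρ⟩

lemma exists_bound {z : Cell →₀ ℤ} (hz : z ∈ Sp Cells) :
    ∃ w, Le base w ∧ ∀ x, z x ≠ 0 → Le (top x) w := by
  classical
  obtain ⟨w, hw1, hw2⟩ := directed_finset (z.support.image top) (by
    intro y hy
    obtain ⟨x, hx, rfl⟩ := Finset.mem_image.1 hy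
    exact top_isV (mem_Sp.1 hz x (by simpa using hx)))
  exact ⟨w, hw1, fun x hx => hw2 _ (Finset.mem_image.2 ⟨x, by simpa using hx, rfl⟩)⟩

/-- exactness in positive degrees -/
theorem exact_pos (A : Finset ℝ) (k : ℕ) {z : Cell →₀ ℤ} (hz : z ∈ Sp (CA A (k + 1)))
    (hdz : dc z = 0) : ∃ u ∈ Sp (CA A (k + 2)), dc u = z := by
  obtain ⟨w, _, hw⟩ := exists_bound (Sp_mono (fun x hx => hx.1) hz : z ∈ Sp Cells)
  have hz' : z ∈ Sp {x | x ∈ BA A w ∧ x.ρ.card = k + 1 ∧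
      w.T.card + 1 ≤ x.T.card + (w.T.card + 1)} := by
    rw [mem_Sp] at hz ⊢
    intro x hx
    obtain ⟨h1, h2, h3⟩ := hz x hx
    exact ⟨⟨h1, hw x hx, h2⟩, h3, by omega⟩
  obtain ⟨u, hu, hdu⟩ := BA_exact_aux A w k _ z hz' hdz
  refine ⟨u, Sp_mono ?_ hu, hdu⟩
  rintro x ⟨⟨h1, h2, h3⟩, h4⟩
  exact ⟨h1, h3, h4⟩

/-- augmentation -/
noncomputable def aug : (Cell →₀ ℤ) →ₗ[ℤ] ℤ := lext fun _ => 1

lemma aug_single (x : Cell) : aug (single x 1) = 1 := lext_single_one _ _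

lemma vertex_eq {x : Cell} (hx : x ∈ Cells) (h : x.ρ = ∅) : top x = x := by
  obtain ⟨n, g, ρ, hg, rfl⟩ := hx
  have : ρ = ∅ := h
  subst this
  exact top_cell n g ∅

lemma vertex_path (A : Finset ℝ) {x w : Cell} (h : Le x w) (hx : IsV x) (hA : A ⊆ x.T) :
    ∃ u ∈ Sp (CA A 1), dc u = single w 1 - single x 1 := by
  induction h using ReflTransGen.head_induction_on with
  | refl => exact ⟨0, Submodule.zero_mem _, by simp⟩
  | @head x y h1 h2 ih =>
    obtain ⟨u, hu, hdu⟩ := ih h1.isV (hA.trans h1.T_sub)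
    obtain ⟨n, g, i, hg, hi, rfl, rfl⟩ := h1
    have hG : Good n g ∅ := ⟨hg, by simp, by simp, by simp, by simp⟩
    have hG' := hG.split hi (by simp) (by simp)
    have hcell := hp_cell g ∅ hi
    set e := cell (n + 1) (g * lh i) (insert (mid g i) ∅) with he
    have heC : e ∈ Cells := ⟨_, _, _, hG', rfl⟩
    have hd : dc (single e 1) = single (cell (n + 1) (g * lh i) ∅) 1 -
        single (cell n g ∅) 1 := by
      rw [dc_single, Dc]
      have e1 : e.ρ = {mid g i} := rfl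
      rw [e1, Finset.sum_singleton]
      have e2 : sgn (mid g i) {mid g i} = 1 := by
        rw [sgn, Finset.filter_singleton, if_neg (lt_irrefl _)]; simp
      have e3 : f0 (mid g i) e = cell (n + 1) (g * lh i) ∅ := by
        rw [he, f0_cell]; simp
      have e4 : f1 (mid g i) e = cell n g ∅ := by
        rw [← hcell]
        exact f1_hp ⟨n, g, ∅, hG, rfl⟩ (mem_MM_cell.2 (Or.inr ⟨i, hi, rfl, by simp, by simp⟩))
          (by change mid g i ∉ (∅ : Finset ℝ); simp)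
      rw [e2, one_smul, e3, e4]
    have hm : e ∈ CA A 1 := by
      refine ⟨heC, ?_, ?_⟩
      · change A ⊆ Tn (n + 1) (g * lh i) \ {mid g i}
        rw [Tn_split g hi]
        change A ⊆ Tn n g at hA
        intro s hs
        refine Finset.mem_sdiff.2 ⟨Finset.mem_insert_of_mem (hA hs), ?_⟩
        rw [Finset.mem_singleton]
        rintro rfl
        exact mid_not_mem n g i (hA hs)
      · change ({mid g i} : Finset ℝ).card = 1
        simp
    refine ⟨u + single e 1, Submodule.add_mem _ hu (single_mem_Sp hm 1), ?_⟩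
    rw [map_add, hdu, hd]
    abel

/-- exactness in degree zero -/
theorem exact_zero (A : Finset ℝ) {z : Cell →₀ ℤ} (hz : z ∈ Sp (CA A 0))
    (hdz : aug z = 0) : ∃ u ∈ Sp (CA A 1), dc u = z := by
  obtain ⟨w, _, hw⟩ := exists_bound (Sp_mono (fun x hx => hx.1) hz : z ∈ Sp Cells)
  have hz' : z ∈ Sp {x | x ∈ CA A 0 ∧ Le (top x) w} := by
    rw [mem_Sp] at hz ⊢
    intro x hx
    exact ⟨hz x hx, hw x hx⟩
  have h1 : z - aug z • single w 1 ∈ (Sp (CA A 1)).map dc := by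
    refine map_mem_of (F := LinearMap.id - (LinearMap.toSpanSingleton ℤ _ (single w 1)) ∘ₗ aug)
      ?_ hz'
    rintro x ⟨⟨h1, h2, h3⟩, h4⟩
    have h3' := Finset.card_eq_zero.1 h3
    rw [vertex_eq h1 h3'] at h4
    have hV := top_isV h1
    rw [vertex_eq h1 h3'] at hV
    obtain ⟨u, hu, hdu⟩ := vertex_path A h4 hV (h2.trans Finset.sdiff_subset)
    refine ⟨-u, Submodule.neg_mem _ hu, ?_⟩
    rw [map_neg, hdu]
    simp [aug_single]
  rw [hdz, zero_smul, sub_zero] at h1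
  obtain ⟨u, hu, hdu⟩ := h1
  exact ⟨u, hu, hdu⟩

end Pool.Agent.OLF
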