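import Pool.Agent.OLF.Reach
import Pool.Agent.Lib_helper28.OFDefs

set_option autoImplicit false

/-!
Germs of the elements of the group, and the structure of their labels: up to finitely many
quadruples the labels are the product of `chi` with the finitely supported function `af`.
-/

namespace Pool.Agent.OLF

open Pool.Agent.Lib_helper28.OF (IsDyadic)
open Amb Filter Topology

/-- right germ with slope `2^r` -/
def RG (f : ℝ ≃o ℝ) (x : ℝ) (r : ℤ) : Prop := ∀ᶠ y in 𝓝[≥] x, f y = f x + 2 ^ r * (y - x)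

/-- left germ with slope `2^r` -/
def LG (f : ℝ ≃o ℝ) (x : ℝ) (r : ℤ) : Prop := ∀ᶠ y in 𝓝[≤] x, f y = f x + 2 ^ r * (y - x)

lemma tendsto_right (f : ℝ ≃o ℝ) (x : ℝ) : Tendsto f (𝓝[≥] x) (𝓝[≥] (f x)) := by
  refine tendsto_nhdsWithin_of_tendsto_nhds_of_eventually_within _ ?_ ?_
  · exact (f.continuous.tendsto x).mono_left nhdsWithin_le_nhds
  · filter_upwards [self_mem_nhdsWithin] with y hy
    exact f.monotone hy

lemma tendsto_left (f : ℝ ≃o ℝ) (x : ℝ) : Tendsto f (𝓝[≤] x) (𝓝[≤] (f x)) := by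
  refine tendsto_nhdsWithin_of_tendsto_nhds_of_eventually_within _ ?_ ?_
  · exact (f.continuous.tendsto x).mono_left nhdsWithin_le_nhds
  · filter_upwards [self_mem_nhdsWithin] with y hy
    exact f.monotone hy

lemma RG.comp {f g : ℝ ≃o ℝ} {x : ℝ} {r s : ℤ} (hg : RG g x r) (hf : RG f (g x) s) :
    RG (g.trans f) x (s + r) := by
  have h2 := (tendsto_right g x).eventually hf
  filter_upwards [hg, h2] with y h3 h4
  rw [OrderIso.trans_apply, OrderIso.trans_apply, h4, h3, zpow_add₀ (by norm_num)]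
  ring

lemma LG.comp {f g : ℝ ≃o ℝ} {x : ℝ} {r s : ℤ} (hg : LG g x r) (hf : LG f (g x) s) :
    LG (g.trans f) x (s + r) := by
  have h2 := (tendsto_left g x).eventually hf
  filter_upwards [hg, h2] with y h3 h4
  rw [OrderIso.trans_apply, OrderIso.trans_apply, h4, h3, zpow_add₀ (by norm_num)]
  ring

lemma RG.symm {f : ℝ ≃o ℝ} {x : ℝ} {r : ℤ} (hf : RG f x r) : RG f.symm (f x) (-r) := by
  have h2 := tendsto_right f.symm (f x)
  rw [f.symm_apply_apply] at h2
  have h3 := h2.eventually hf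
  filter_upwards [h3] with y hy
  rw [f.apply_symm_apply] at hy
  rw [f.symm_apply_apply, zpow_neg]
  have h5 : (2 : ℝ) ^ r ≠ 0 := by positivity
  have h6 : y - f x = 2 ^ r * (f.symm y - x) := by linarith
  rw [h6, ← mul_assoc, inv_mul_cancel₀ h5]
  ring

lemma LG.symm {f : ℝ ≃o ℝ} {x : ℝ} {r : ℤ} (hf : LG f x r) : LG f.symm (f x) (-r) := by
  have h2 := tendsto_left f.symm (f x)
  rw [f.symm_apply_apply] at h2
  have h3 := h2.eventually hf
  filter_upwards [h3] with y hy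
  rw [f.apply_symm_apply] at hy
  rw [f.symm_apply_apply, zpow_neg]
  have h5 : (2 : ℝ) ^ r ≠ 0 := by positivity
  have h6 : y - f x = 2 ^ r * (f.symm y - x) := by linarith
  rw [h6, ← mul_assoc, inv_mul_cancel₀ h5]
  ring

lemma RG.refl (x : ℝ) : RG (OrderIso.refl ℝ) x 0 := by
  filter_upwards with y
  simp

lemma LG.refl (x : ℝ) : LG (OrderIso.refl ℝ) x 0 := by
  filter_upwards with y
  simp

lemma zpow_two_eq_one {r : ℤ} (h : (2 : ℝ) ^ r = 1) : r = 0 := by
  have := zpow_right_injective₀ (a := (2 : ℝ)) (by norm_num) (by norm_num)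
    (show (2 : ℝ) ^ r = (2 : ℝ) ^ (0 : ℤ) by rw [h]; simp)
  exact this

lemma LG.eq_zero {f : ℝ ≃o ℝ} {x : ℝ} {r : ℤ} (hf : LG f x r)
    (h : ∀ᶠ y in 𝓝[≤] x, f y = y) : r = 0 := by
  have hx : f x = x := h.self_of_nhdsWithin (Set.mem_Iic.2 le_rfl)
  have h1 : ∀ᶠ y in 𝓝[<] x, f y = f x + 2 ^ r * (y - x) :=
    hf.filter_mono (nhdsWithin_mono x Set.Iio_subset_Iic_self)
  have h2 : ∀ᶠ y in 𝓝[<] x, f y = y :=
    h.filter_mono (nhdsWithin_mono x Set.Iio_subset_Iic_self)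
  obtain ⟨y, h3, h4, h5⟩ := (h1.and (h2.and self_mem_nhdsWithin)).exists
  have h6 : y - x ≠ 0 := sub_ne_zero.2 (ne_of_lt h5)
  apply zpow_two_eq_one
  have h7 : 2 ^ r * (y - x) = 1 * (y - x) := by
    rw [h4, hx] at h3; linarith
  exact mul_right_cancel₀ h6 h7

lemma RG.fix {f : ℝ ≃o ℝ} {x : ℝ} (hf : RG f x 0) (hx : f x = x) :
    ∀ᶠ y in 𝓝[≥] x, f y = y := by
  filter_upwards [hf] with y hy
  rw [hy, hx]; simp

/-- an eventual property on the right holds on an interval -/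
lemma exists_right {p : ℝ → Prop} {x : ℝ} (h : ∀ᶠ y in 𝓝[≥] x, p y) :
    ∃ δ > 0, ∀ y, x ≤ y → y < x + δ → p y := by
  rw [eventually_nhdsWithin_iff, Metric.eventually_nhds_iff] at h
  obtain ⟨δ, hδ, h2⟩ := h
  refine ⟨δ, hδ, fun y h3 h4 => ?_⟩
  exact h2 (y := y) (by rw [Real.dist_eq, abs_of_nonneg (by linarith)]; linarith) h3

/-! ### break points -/

/-- preserves the dyadic numbers, with slopes powers of two and dyadic break points -/
structure Gm (f : ℝ ≃o ℝ) : Prop where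
  dy : ∀ x, IsDyadic (f x) ↔ IsDyadic x
  gm : ∀ x, ∃ r l : ℤ, RG f x r ∧ LG f x l ∧ (r ≠ l → IsDyadic x)

lemma Gm.refl : Gm (OrderIso.refl ℝ) :=
  ⟨fun _ => Iff.rfl, fun x => ⟨0, 0, RG.refl x, LG.refl x, fun h => absurd rfl h⟩⟩

lemma Gm.trans {f g : ℝ ≃o ℝ} (hf : Gm f) (hg : Gm g) : Gm (f.trans g) := by
  refine ⟨fun x => ?_, fun x => ?_⟩
  · rw [OrderIso.trans_apply, hg.dy, hf.dy]
  · obtain ⟨r, l, h1, h2, h3⟩ := hf.gm x
    obtain ⟨r', l', h4, h5, h6⟩ := hg.gm (f x)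
    refine ⟨r' + r, l' + l, h1.comp h4, h2.comp h5, fun h => ?_⟩
    by_cases h7 : r = l
    · subst h7
      rw [← hf.dy]
      exact h6 (fun h8 => h (by rw [h8]))
    · exact h3 h7

lemma Gm.symm {f : ℝ ≃o ℝ} (hf : Gm f) : Gm f.symm := by
  refine ⟨fun x => ?_, fun x => ?_⟩
  · rw [← hf.dy, f.apply_symm_apply]
  · obtain ⟨r, l, h1, h2, h3⟩ := hf.gm (f.symm x)
    have h4 := h1.symm
    have h5 := h2.symm
    rw [f.apply_symm_apply] at h4 h5
    refine ⟨-r, -l, h4, h5, fun h => ?_⟩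
    have h6 := h3 (fun h7 => h (by rw [h7]))
    rwa [← hf.dy, f.apply_symm_apply] at h6

lemma dyadic_one : IsDyadic 1 := by exact_mod_cast IsDyadic.int 1

lemma dyadic_nat (n : ℕ) : IsDyadic n := by exact_mod_cast IsDyadic.int n

lemma dyadic_half {x : ℝ} : IsDyadic (x / 2) ↔ IsDyadic x := by
  constructor
  · intro h
    have := (dyadic_nat 2).mul h
    have e : ((2 : ℕ) : ℝ) * (x / 2) = x := by push_cast; ring
    rwa [e] at this
  · intro h
    have := (IsDyadic.two_zpow (-1)).mul h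
    have e : (2 : ℝ) ^ (-1 : ℤ) * x = x / 2 := by rw [zpow_neg_one]; ring
    rwa [e] at this

lemma dyadic_add_iff {x y : ℝ} (hy : IsDyadic y) : IsDyadic (x + y) ↔ IsDyadic x := by
  constructor
  · intro h
    have := h.sub hy
    rwa [add_sub_cancel_right] at this
  · intro h
    exact h.add hy

lemma Gm.lam {u : ℝ} (hu : IsDyadic u) : Gm (lam u) := by
  refine ⟨fun x => ?_, fun x => ?_⟩
  · rw [lam_apply]
    split_ifs
    · exact Iff.rfl
    · rw [dyadic_half, dyadic_add_iff hu]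
    · rw [sub_eq_add_neg, dyadic_add_iff dyadic_one.neg]
  rcases lt_trichotomy x u with h | h | h
  · refine ⟨0, 0, ?_, ?_, fun h => absurd rfl h⟩
    · filter_upwards [mem_nhdsWithin_of_mem_nhds (Iio_mem_nhds h)] with y hy
      rw [lam_of_le (le_of_lt hy), lam_of_le h.le]; simp
    · filter_upwards [self_mem_nhdsWithin] with y hy
      rw [lam_of_le ((show y ≤ x from hy).trans h.le), lam_of_le h.le]; simp
  · subst h
    refine ⟨-1, 0, ?_, ?_, fun _ => hu⟩
    · filter_upwards [self_mem_nhdsWithin,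
        mem_nhdsWithin_of_mem_nhds (Iio_mem_nhds (show x < x + 2 by linarith))] with y hy hy'
      rw [lam_mid hy (le_of_lt hy'), lam_of_le le_rfl, zpow_neg_one]; ring
    · filter_upwards [self_mem_nhdsWithin] with y hy
      rw [lam_of_le hy, lam_of_le le_rfl]; simp
  · rcases lt_trichotomy x (u + 2) with h2 | h2 | h2
    · refine ⟨-1, -1, ?_, ?_, fun h => absurd rfl h⟩
      · filter_upwards [self_mem_nhdsWithin,
          mem_nhdsWithin_of_mem_nhds (Iio_mem_nhds h2)] with y hy hy'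
        rw [lam_mid (h.le.trans hy) (le_of_lt hy'), lam_mid h.le h2.le, zpow_neg_one]; ring
      · filter_upwards [self_mem_nhdsWithin,
          mem_nhdsWithin_of_mem_nhds (Ioi_mem_nhds h)] with y hy hy'
        rw [lam_mid (le_of_lt hy') ((show y ≤ x from hy).trans h2.le), lam_mid h.le h2.le,
          zpow_neg_one]
        ring
    · subst h2
      refine ⟨0, -1, ?_, ?_, fun _ => hu.add (dyadic_nat 2)⟩
      · filter_upwards [self_mem_nhdsWithin] with y hy
        rw [lam_of_ge hy, lam_of_ge le_rfl]; simp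
      · filter_upwards [self_mem_nhdsWithin,
          mem_nhdsWithin_of_mem_nhds (Ioi_mem_nhds h)] with y hy hy'
        rw [lam_mid (le_of_lt hy') hy, lam_mid h.le le_rfl, zpow_neg_one]
        ring
    · refine ⟨0, 0, ?_, ?_, fun h => absurd rfl h⟩
      · filter_upwards [self_mem_nhdsWithin] with y hy
        rw [lam_of_ge (h2.le.trans hy), lam_of_ge h2.le]; simp
      · filter_upwards [mem_nhdsWithin_of_mem_nhds (Ioi_mem_nhds h2)] with y hy
        rw [lam_of_ge (le_of_lt hy), lam_of_ge h2.le]; simp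

lemma Reach.gm {n : ℕ} {g : Amb} (h : Reach n g) : Gm g.f := by
  induction h with
  | one => exact Gm.refl
  | split i _ _ ih => exact (Gm.lam (dyadic_nat i)).trans ih
  | merge i _ _ ih => exact (Gm.lam (dyadic_nat i)).symm.trans ih
  | lab _ _ ih => exact Gm.refl.trans ih

/-! ### structure of the labels -/

/-- all division points -/
def DP : Set ℝ := {t | ∃ (n : ℕ) (g : Amb) (i : ℕ), Reach n g ∧ i ≤ n ∧ t = g.f (i : ℝ)}

/-- the coboundary of `chi` -/
noncomputable def af (f : ℝ ≃o ℝ) (s t : ℝ) : ZMod 2 := chi (f.symm s) (f.symm t) + chi s t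

/-- the finitely supported part of the labels -/
noncomputable def ee (g : Amb) (q : Qd) : ZMod 2 := g.c q + chi (q 0) (q 1) * af g.f (q 2) (q 3)

lemma c_eq (g : Amb) (q : Qd) : g.c q = ee g q + chi (q 0) (q 1) * af g.f (q 2) (q 3) := by
  unfold ee
  generalize g.c q = a
  generalize chi (q 0) (q 1) * af g.f (q 2) (q 3) = b
  revert a b
  decide

lemma af_mul_lh (g : Amb) (i : ℕ) (s t : ℝ) :
    af (g * lh i).f s t = af g.f s t + de i (g.f.symm s) (g.f.symm t) := by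
  have e := chi_lam (i : ℤ) (g.f.symm s) (g.f.symm t)
  rw [Int.cast_natCast] at e
  unfold af
  rw [mul_f_symm_apply, mul_f_symm_apply, lh_f, e]
  ring

lemma ee_mul_lh (g : Amb) (i : ℕ) (q : Qd) :
    ee (g * lh i) q = ee g q + af g.f (q 0) (q 1) * de i (g.f.symm (q 2)) (g.f.symm (q 3)) := by
  unfold ee
  rw [af_mul_lh, mul_c, lh_c]
  simp only [mv_apply]
  unfold af
  generalize g.c q = a
  generalize chi (g.f.symm (q 0)) (g.f.symm (q 1)) = b
  generalize de (i : ℝ) (g.f.symm (q 2)) (g.f.symm (q 3)) = d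
  generalize chi (q 0) (q 1) = e
  generalize chi (g.f.symm (q 2)) (g.f.symm (q 3)) + chi (q 2) (q 3) = k
  revert a b d e k
  decide

lemma de_ne {u s t : ℝ} (h : de u s t ≠ 0) : s = u ∧ t = u + 1 := by
  by_contra hcon
  exact h (if_neg hcon)

lemma de_symm_ne {g : Amb} {i : ℕ} {s t : ℝ} (h : de i (g.f.symm s) (g.f.symm t) ≠ 0) :
    s = g.f (i : ℝ) ∧ t = g.f ((i + 1 : ℕ) : ℝ) := by
  obtain ⟨h1, h2⟩ := de_ne h
  rw [OrderIso.symm_apply_eq] at h1 h2
  exact ⟨h1, by rw [h2]; push_cast; rfl⟩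

/-- support of the labels of a chart -/
def SuppOK (g : Amb) (W : Finset ℝ) : Prop :=
  (∀ w ∈ W, w ∈ DP) ∧ (∀ s t, af g.f s t ≠ 0 → s ∈ W ∧ t ∈ W) ∧ ∀ q, ee g q ≠ 0 → Inq W q

lemma inq_of_mul {W : Finset ℝ} {q : Qd} {a b : ZMod 2} (h : a * b ≠ 0)
    (h1 : a ≠ 0 → q 0 ∈ W ∧ q 1 ∈ W) (h2 : b ≠ 0 → q 2 ∈ W ∧ q 3 ∈ W) : Inq W q := by
  have h3 := h1 (left_ne_zero_of_mul h)
  have h4 := h2 (right_ne_zero_of_mul h)
  intro i
  fin_cases i
  · exact h3.1
  · exact h3.2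
  · exact h4.1
  · exact h4.2

lemma ne_or_of_add {a b : ZMod 2} (h : a + b ≠ 0) : a ≠ 0 ∨ b ≠ 0 := by
  by_contra hcon
  push Not at hcon
  exact h (by rw [hcon.1, hcon.2, add_zero])

lemma Reach.supp {n : ℕ} {g : Amb} (h : Reach n g) : ∃ W : Finset ℝ, SuppOK g W := by
  classical
  induction h with
  | one =>
    have h2 : ∀ a : ZMod 2, a + a = 0 := by decide
    have e : ∀ s t, af (1 : Amb).f s t = 0 := fun s t => by
      unfold af
      rw [one_f_symm_apply, one_f_symm_apply, h2]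
    refine ⟨∅, by simp, fun s t h => absurd (e s t) h, fun q h => absurd ?_ h⟩
    unfold ee
    rw [e, one_c]
    ring
  | @split n g i hg hi ih =>
    obtain ⟨W, h1, h2, h3⟩ := ih
    have ha : g.f ((i : ℕ) : ℝ) ∈ DP := ⟨n, g, i, hg, hi.le, rfl⟩
    have hb : g.f ((i + 1 : ℕ) : ℝ) ∈ DP := ⟨n, g, i + 1, hg, hi, rfl⟩
    have hW : W ⊆ W ∪ {g.f ((i : ℕ) : ℝ), g.f ((i + 1 : ℕ) : ℝ)} := Finset.subset_union_left
    have hde : ∀ {s t : ℝ}, de i (g.f.symm s) (g.f.symm t) ≠ 0 →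
        s ∈ W ∪ {g.f ((i : ℕ) : ℝ), g.f ((i + 1 : ℕ) : ℝ)} ∧
        t ∈ W ∪ {g.f ((i : ℕ) : ℝ), g.f ((i + 1 : ℕ) : ℝ)} := by
      intro s t h
      obtain ⟨rfl, rfl⟩ := de_symm_ne h
      exact ⟨Finset.mem_union_right _ (by simp), Finset.mem_union_right _ (by simp)⟩
    refine ⟨W ∪ {g.f ((i : ℕ) : ℝ), g.f ((i + 1 : ℕ) : ℝ)}, ?_, ?_, ?_⟩
    · intro w hw
      simp only [Finset.mem_union, Finset.mem_insert, Finset.mem_singleton] at hw
      rcases hw with hw | rfl | rfl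
      · exact h1 w hw
      · exact ha
      · exact hb
    · intro s t h
      rw [af_mul_lh] at h
      rcases ne_or_of_add h with h4 | h4
      · exact ⟨hW (h2 s t h4).1, hW (h2 s t h4).2⟩
      · exact hde h4
    · intro q h
      rw [ee_mul_lh] at h
      rcases ne_or_of_add h with h4 | h4
      · exact Inq.mono hW (h3 q h4)
      · exact inq_of_mul h4 (fun h5 => ⟨hW (h2 _ _ h5).1, hW (h2 _ _ h5).2⟩) hde
  | @merge n g i hg hi ih =>
    obtain ⟨W, h1, h2, h3⟩ := ih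
    set g' := g * (lh (i : ℝ))⁻¹ with hg'
    have hgg : g = g' * lh i := by rw [hg', inv_mul_cancel_right]
    have hR : Reach n g' := Reach.merge i hg hi
    have ha : g'.f ((i : ℕ) : ℝ) ∈ DP := ⟨n, g', i, hR, hi.le, rfl⟩
    have hb : g'.f ((i + 1 : ℕ) : ℝ) ∈ DP := ⟨n, g', i + 1, hR, hi, rfl⟩
    have hW : W ⊆ W ∪ {g'.f ((i : ℕ) : ℝ), g'.f ((i + 1 : ℕ) : ℝ)} := Finset.subset_union_left
    have hde : ∀ {s t : ℝ}, de i (g'.f.symm s) (g'.f.symm t) ≠ 0 →
        s ∈ W ∪ {g'.f ((i : ℕ) : ℝ), g'.f ((i + 1 : ℕ) : ℝ)} ∧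
        t ∈ W ∪ {g'.f ((i : ℕ) : ℝ), g'.f ((i + 1 : ℕ) : ℝ)} := by
      intro s t h
      obtain ⟨rfl, rfl⟩ := de_symm_ne h
      exact ⟨Finset.mem_union_right _ (by simp), Finset.mem_union_right _ (by simp)⟩
    have hsw : ∀ a b c : ZMod 2, a = b + c → b = a + c := by decide
    have eaf : ∀ s t, af g'.f s t = af g.f s t + de i (g'.f.symm s) (g'.f.symm t) := by
      intro s t
      apply hsw
      rw [← af_mul_lh, ← hgg]
    have eee : ∀ q, ee g' q = ee g q +
        af g'.f (q 0) (q 1) * de i (g'.f.symm (q 2)) (g'.f.symm (q 3)) := by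
      intro q
      apply hsw
      rw [← ee_mul_lh, ← hgg]
    have haf : ∀ s t, af g'.f s t ≠ 0 →
        s ∈ W ∪ {g'.f ((i : ℕ) : ℝ), g'.f ((i + 1 : ℕ) : ℝ)} ∧
        t ∈ W ∪ {g'.f ((i : ℕ) : ℝ), g'.f ((i + 1 : ℕ) : ℝ)} := by
      intro s t h
      rw [eaf] at h
      rcases ne_or_of_add h with h4 | h4
      · exact ⟨hW (h2 s t h4).1, hW (h2 s t h4).2⟩
      · exact hde h4
    refine ⟨W ∪ {g'.f ((i : ℕ) : ℝ), g'.f ((i + 1 : ℕ) : ℝ)}, ?_, haf, ?_⟩
    · intro w hw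
      simp only [Finset.mem_union, Finset.mem_insert, Finset.mem_singleton] at hw
      rcases hw with hw | rfl | rfl
      · exact h1 w hw
      · exact ha
      · exact hb
    · intro q h
      rw [eee] at h
      rcases ne_or_of_add h with h4 | h4
      · exact Inq.mono hW (h3 q h4)
      · exact inq_of_mul h4 (haf _ _) hde
  | @lab n g c hg hc ih =>
    obtain ⟨W, h1, h2, h3⟩ := ih
    have eaf : ∀ s t, af (g * iota c).f s t = af g.f s t := fun s t => rfl
    refine ⟨W ∪ Tn n g, ?_, ?_, ?_⟩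
    · intro w hw
      rcases Finset.mem_union.1 hw with hw | hw
      · exact h1 w hw
      · obtain ⟨i, hi, rfl⟩ := mem_Tn.1 hw
        exact ⟨n, g, i, hg, hi, rfl⟩
    · intro s t h
      rw [eaf] at h
      exact ⟨Finset.mem_union_left _ (h2 s t h).1, Finset.mem_union_left _ (h2 s t h).2⟩
    · intro q h
      have e : ee (g * iota c) q = ee g q + c (mv g.f.symm q) := by
        unfold ee
        rw [eaf, mul_c, iota_c]
        ring
      rw [e] at h
      rcases ne_or_of_add h with h4 | h4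
      · exact Inq.mono Finset.subset_union_left (h3 q h4)
      · intro a
        obtain ⟨i, hi, h5⟩ := hc _ h4 a
        rw [mv_apply, OrderIso.symm_apply_eq] at h5
        rw [h5]
        exact Finset.mem_union_right _ (f_mem_Tn hi)

end Pool.Agent.OLF
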