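import Pool.Agent.Lib_helper28.OFPerm

set_option autoImplicit false

namespace Pool.Agent.OLF

open Pool.Agent.Lib_helper28.OF
open Finsupp

variable {H : Type} [Group H] {X : Type} [MulAction H X] {Y : Type} [MulAction H Y]

/-- quotient of an `H`-set by a commuting free involution -/
theorem PF_quot {φ : X → Y} (hφ : ∀ (h : H) (x : X), φ (h • x) = h • φ x)
    (ψ : Equiv.Perm X) (hψ : ∀ (h : H) (x : X), ψ (h • x) = h • ψ x) {U : Set X}
    (hψU : ∀ x ∈ U, ψ x ∈ U) (hφψ : ∀ x ∈ U, φ (ψ x) = φ x)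
    (hψψ : ∀ x ∈ U, ψ (ψ x) = x)
    (hfib : ∀ x ∈ U, ∀ x' ∈ U, φ x = φ x' → x' = x ∨ x' = ψ x)
    (hfree : ∀ x ∈ U, ψ x ≠ x)
    (h : ∀ n, PF H n U) : ∀ n, PF H n (φ '' U) := by
  classical
  have iU := (h 0).inv
  -- the maps 1 - ψ and 1 + ψ
  let δ : (X →₀ ℤ) →ₗ[ℤ] (X →₀ ℤ) := LinearMap.id - pushX ψ
  let ε : (X →₀ ℤ) →ₗ[ℤ] (X →₀ ℤ) := LinearMap.id + pushX ψ
  have hδ1 : ∀ x, δ (single x 1) = single x 1 - single (ψ x) 1 := fun x => by
    change single x 1 - pushX ψ (single x 1) = _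
    rw [pushX_single]
  have hε1 : ∀ x, ε (single x 1) = single x 1 + single (ψ x) 1 := fun x => by
    change single x 1 + pushX ψ (single x 1) = _
    rw [pushX_single]
  have hδe : ∀ (h : H) (x : X), δ (single (h • x) 1) =
      MonoidAlgebra.of ℤ H h • δ (single x 1) := by
    intro h x
    rw [hδ1, hδ1, smul_sub, of_smul_single, of_smul_single, hψ]
  have hεe : ∀ (h : H) (x : X), ε (single (h • x) 1) =
      MonoidAlgebra.of ℤ H h • ε (single x 1) := by
    intro h x
    rw [hε1, hε1, smul_add, of_smul_single, of_smul_single, hψ]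
  have hδmem : ∀ z ∈ Sp U, δ z ∈ Sp U := by
    intro z hz
    refine map_mem_of ?_ hz
    intro x hx
    rw [hδ1]
    exact Submodule.sub_mem _ (single_mem_Sp hx 1) (single_mem_Sp (hψU x hx) 1)
  have hεmem : ∀ z ∈ Sp U, ε z ∈ Sp U := by
    intro z hz
    refine map_mem_of ?_ hz
    intro x hx
    rw [hε1]
    exact Submodule.add_mem _ (single_mem_Sp hx 1) (single_mem_Sp (hψU x hx) 1)
  have hεδ : ∀ z ∈ Sp U, ε (δ z) = 0 := by
    intro z hz
    refine map_congr_of (F := ε ∘ₗ δ) (G := 0) ?_ hz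
    intro x hx
    rw [LinearMap.comp_apply, hδ1, map_sub, hε1, hε1, hψψ x hx, LinearMap.zero_apply]
    abel
  have hδε : ∀ z ∈ Sp U, δ (ε z) = 0 := by
    intro z hz
    refine map_congr_of (F := δ ∘ₗ ε) (G := 0) ?_ hz
    intro x hx
    rw [LinearMap.comp_apply, hε1, map_add, hδ1, hδ1, hψψ x hx, LinearMap.zero_apply]
    abel
  have hφδ : ∀ z ∈ Sp U, pushX φ (δ z) = 0 := by
    intro z hz
    refine map_congr_of (F := pushX φ ∘ₗ δ) (G := 0) ?_ hz
    intro x hx
    rw [LinearMap.comp_apply, hδ1, map_sub, pushX_single, pushX_single, hφψ x hx, sub_self,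
      LinearMap.zero_apply]
  -- representatives
  let rep : X → X := fun x => if hy : ∃ x', x' ∈ U ∧ φ x' = φ x then hy.choose else x
  have hrep : ∀ x ∈ U, rep x ∈ U ∧ φ (rep x) = φ x := by
    intro x hx
    have hy : ∃ x', x' ∈ U ∧ φ x' = φ x := ⟨x, hx, rfl⟩
    change (if hy : ∃ x', x' ∈ U ∧ φ x' = φ x then hy.choose else x) ∈ U ∧
      φ (if hy : ∃ x', x' ∈ U ∧ φ x' = φ x then hy.choose else x) = φ x
    rw [dif_pos hy]
    exact hy.choose_spec
  have hrepψ : ∀ x ∈ U, rep (ψ x) = rep x := by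
    intro x hx
    have hy : ∃ x', x' ∈ U ∧ φ x' = φ x := ⟨x, hx, rfl⟩
    have hy' : ∃ x', x' ∈ U ∧ φ x' = φ (ψ x) := ⟨ψ x, hψU x hx, rfl⟩
    change (if hy : ∃ x', x' ∈ U ∧ φ x' = φ (ψ x) then hy.choose else ψ x) =
      (if hy : ∃ x', x' ∈ U ∧ φ x' = φ x then hy.choose else x)
    rw [dif_pos hy, dif_pos hy']
    simp only [hφψ x hx]
  have hcases : ∀ x ∈ U, rep x = x ∨ rep x = ψ x := by
    intro x hx
    obtain ⟨h1, h2⟩ := hrep x hx
    exact hfib x hx _ h1 h2.symm
  -- restriction to representatives and to non-representatives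
  let r : (X →₀ ℤ) →ₗ[ℤ] (X →₀ ℤ) := lext fun x => if rep x = x then single x 1 else 0
  let t : (X →₀ ℤ) →ₗ[ℤ] (X →₀ ℤ) := lext fun x => if rep x = x then 0 else single x 1
  have hr1 : ∀ x, r (single x 1) = if rep x = x then single x 1 else 0 := fun x =>
    lext_single_one _ _
  have ht1 : ∀ x, t (single x 1) = if rep x = x then 0 else single x 1 := fun x =>
    lext_single_one _ _
  have hrmem : ∀ z ∈ Sp U, r z ∈ Sp U := by
    intro z hz
    refine map_mem_of ?_ hz
    intro x hx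
    rw [hr1]
    split_ifs
    · exact single_mem_Sp hx 1
    · exact Submodule.zero_mem _
  have htmem : ∀ z ∈ Sp U, t z ∈ Sp U := by
    intro z hz
    refine map_mem_of ?_ hz
    intro x hx
    rw [ht1]
    split_ifs
    · exact Submodule.zero_mem _
    · exact single_mem_Sp hx 1
  have hψrep : ∀ x ∈ U, (rep x = x → rep (ψ x) ≠ ψ x) ∧ (rep x ≠ x → rep (ψ x) = ψ x) := by
    intro x hx
    constructor
    · intro h1 h2
      rw [hrepψ x hx, h1] at h2
      exact hfree x hx h2.symm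
    · intro h1
      rw [hrepψ x hx]
      exact (hcases x hx).resolve_left h1
  have id1 : ∀ z ∈ Sp U, z = ε (r z) + t (δ z) := by
    intro z hz
    refine map_congr_of (F := LinearMap.id) (G := ε ∘ₗ r + t ∘ₗ δ) ?_ hz
    intro x hx
    rw [LinearMap.id_apply, LinearMap.add_apply, LinearMap.comp_apply, LinearMap.comp_apply,
      hr1, hδ1, map_sub, ht1, ht1]
    obtain ⟨h1, h2⟩ := hψrep x hx
    by_cases hc : rep x = x
    · rw [if_pos hc, if_pos hc, if_neg (h1 hc), hε1]; abel
    · rw [if_neg hc, if_neg hc, if_pos (h2 hc), map_zero]; abel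
  have id2 : ∀ z ∈ Sp U, z = δ (t z) + r (ε z) := by
    intro z hz
    refine map_congr_of (F := LinearMap.id) (G := δ ∘ₗ t + r ∘ₗ ε) ?_ hz
    intro x hx
    rw [LinearMap.id_apply, LinearMap.add_apply, LinearMap.comp_apply, LinearMap.comp_apply,
      ht1, hε1, map_add, hr1, hr1]
    obtain ⟨h1, h2⟩ := hψrep x hx
    by_cases hc : rep x = x
    · rw [if_pos hc, if_pos hc, if_neg (h1 hc), map_zero]; abel
    · rw [if_neg hc, if_neg hc, if_pos (h2 hc), hδ1]; abel
  have hker : ∀ z ∈ Sp U, pushX φ z = 0 → z = δ (t z) := by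
    intro z hz h0
    have e : ∀ z ∈ Sp U, pushX φ (ε z) = (2 : ℤ) • pushX φ z := by
      intro z hz
      refine map_congr_of (F := pushX φ ∘ₗ ε) (G := (2 : ℤ) • pushX φ) ?_ hz
      intro x hx
      rw [LinearMap.comp_apply, hε1, map_add, LinearMap.smul_apply, pushX_single, pushX_single,
        hφψ x hx, two_smul]
    -- chains on representatives are detected by `φ`
    have hinj : Set.InjOn φ {x | x ∈ U ∧ rep x = x} := by
      rintro x ⟨hx, hx2⟩ x' ⟨hx', hx2'⟩ he
      have h3 : rep x = rep x' := by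
        have hy : ∃ x'', x'' ∈ U ∧ φ x'' = φ x := ⟨x, hx, rfl⟩
        have hy' : ∃ x'', x'' ∈ U ∧ φ x'' = φ x' := ⟨x', hx', rfl⟩
        change (if hy : ∃ x'', x'' ∈ U ∧ φ x'' = φ x then hy.choose else x) =
          (if hy : ∃ x'', x'' ∈ U ∧ φ x'' = φ x' then hy.choose else x')
        rw [dif_pos hy, dif_pos hy']
        simp only [he]
      rw [← hx2, h3, hx2']
    have hrr : ∀ z ∈ Sp U, r z ∈ Sp {x | x ∈ U ∧ rep x = x} := by
      intro z hz
      refine map_mem_of ?_ hz
      intro x hx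
      rw [hr1]
      split_ifs with hc
      · exact single_mem_Sp (U := {x | x ∈ U ∧ rep x = x}) (x := x) ⟨hx, hc⟩ 1
      · exact Submodule.zero_mem _
    have h1 : r (ε z) = 0 := by
      apply pushX_injOn hinj (hrr _ (hεmem z hz))
      have h2 : z - δ (t z) = r (ε z) := by
        conv_lhs => rw [id2 z hz]
        rw [← id2 z hz]
        have := id2 z hz
        rw [sub_eq_iff_eq_add']
        exact this
      rw [← h2, map_sub, h0, hφδ _ (htmem z hz), sub_zero]
    have h2 := id2 z hz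
    rwa [h1, add_zero] at h2
  -- group ring modules
  have hfp := fun n => (h n).fp iU
  have hm1 : ∀ z : SpR U iU, (mkR δ hδe ∘ₗ (SpR U iU).subtype) z ∈ SpR U iU :=
    fun z => hδmem z.1 z.2
  have hm2 : ∀ z : SpR U iU, (mkR ε hεe ∘ₗ (SpR U iU).subtype) z ∈ SpR U iU :=
    fun z => hεmem z.1 z.2
  let dm : SpR U iU →ₗ[RH H] SpR U iU := LinearMap.codRestrict (SpR U iU) _ hm1
  let dp : SpR U iU →ₗ[RH H] SpR U iU := LinearMap.codRestrict (SpR U iU) _ hm2
  have hdm : ∀ z : SpR U iU, ((dm z : SpR U iU) : X →₀ ℤ) = δ z := fun _ => rfl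
  have hdp : ∀ z : SpR U iU, ((dp z : SpR U iU) : X →₀ ℤ) = ε z := fun _ => rfl
  have hk1 : ∀ z, dm z ∈ LinearMap.ker dp := by
    intro z
    rw [LinearMap.mem_ker]
    apply Subtype.ext
    rw [hdp, hdm, hεδ _ z.2]; rfl
  have hk2 : ∀ z, dp z ∈ LinearMap.ker dm := by
    intro z
    rw [LinearMap.mem_ker]
    apply Subtype.ext
    rw [hdm, hdp, hδε _ z.2]; rfl
  let q1 : SpR U iU →ₗ[RH H] LinearMap.ker dp := LinearMap.codRestrict _ dm hk1
  let q2 : SpR U iU →ₗ[RH H] LinearMap.ker dm := LinearMap.codRestrict _ dp hk2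
  have hq1 : Function.Surjective q1 := by
    rintro ⟨z, hz⟩
    rw [LinearMap.mem_ker] at hz
    have hz' : ε (z : X →₀ ℤ) = 0 := congrArg Subtype.val hz
    refine ⟨⟨t z, htmem _ z.2⟩, ?_⟩
    apply Subtype.ext
    apply Subtype.ext
    change δ (t z) = z
    have := id2 _ z.2
    rw [hz', map_zero, add_zero] at this
    exact this.symm
  have hq2 : Function.Surjective q2 := by
    rintro ⟨z, hz⟩
    rw [LinearMap.mem_ker] at hz
    have hz' : δ (z : X →₀ ℤ) = 0 := congrArg Subtype.val hz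
    refine ⟨⟨r z, hrmem _ z.2⟩, ?_⟩
    apply Subtype.ext
    apply Subtype.ext
    change ε (r z) = z
    have := id1 _ z.2
    rw [hz', map_zero, add_zero] at this
    exact this.symm
  have hkq1 : LinearMap.ker q1 = LinearMap.ker dm := LinearMap.ker_codRestrict _ _ _
  have hkq2 : LinearMap.ker q2 = LinearMap.ker dp := LinearMap.ker_codRestrict _ _ _
  have main : ∀ n, FP (RH H) n (LinearMap.ker dp) ∧ FP (RH H) n (LinearMap.ker dm) := by
    intro n
    induction n with
    | zero =>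
      have := FP_zero_iff.1 (hfp 0)
      exact ⟨FP_zero_iff.2 (Module.Finite.of_surjective q1 hq1),
        FP_zero_iff.2 (Module.Finite.of_surjective q2 hq2)⟩
    | succ n ih =>
      constructor
      · refine FP.coker q1 hq1 ?_ (hfp (n + 1))
        rw [hkq1]; exact ih.2
      · refine FP.coker q2 hq2 ?_ (hfp (n + 1))
        rw [hkq2]; exact ih.1
  intro n
  refine ⟨iU.image hφ, ?_⟩
  cases n with
  | zero =>
    have := FP_zero_iff.1 (hfp 0)
    exact FP_zero_iff.2 (Module.Finite.of_surjective (pushS hφ iU) (pushS_surj hφ iU))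
  | succ n =>
    refine FP.coker (pushS hφ iU) (pushS_surj hφ iU) ?_ (hfp (n + 1))
    have hkp : LinearMap.ker (pushS hφ iU) = LinearMap.ker dp := by
      ext z
      rw [LinearMap.mem_ker, LinearMap.mem_ker]
      constructor
      · intro hz
        have h1 := hker z z.2 (congrArg Subtype.val hz)
        apply Subtype.ext
        rw [hdp, h1, hεδ _ (htmem _ z.2)]; rfl
      · intro hz
        have hz' : ε (z : X →₀ ℤ) = 0 := congrArg Subtype.val hz
        have h1 := id2 _ z.2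
        rw [hz', map_zero, add_zero] at h1
        apply Subtype.ext
        change pushX φ (z : X →₀ ℤ) = 0
        rw [h1, hφδ _ (htmem _ z.2)]
    rw [hkp]
    exact (main n).1

end Pool.Agent.OLF
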