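import Pool.Agent.OLF.Quot
import Pool.Agent.OLF.Down

set_option autoImplicit false

namespace Pool.Agent.OLF

open Pool.Agent.Lib_helper28.OF
open Amb Finsupp
open scoped Pointwise

/-- a group acting as the subgroup of the stabiliser of `A` of the elements whose labels at the
quadruples in `Q` vanish -/
structure Setup (A : Finset ℝ) (Q : Finset Qd) (H : Type) [Group H] [MulAction H Cell]
    [MulAction H Amb] where
  e : H →* Amb
  hC : ∀ (h : H) (x : Cell), h • x = e h • x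
  hA : ∀ (h : H) (g : Amb), h • g = e h * g
  inj : Function.Injective e
  hQ : ∀ P ∈ Q, ∀ i, P i ∈ A ∨ P i = 0 ∨ P i = 1
  range : ∀ g, (∃ h, e h = g) ↔ Reach 1 g ∧ A.image g.f = A ∧ ∀ P ∈ Q, g.c P = 0

lemma im_mul (u g : Amb) (P : Finset ℕ) : im (u * g) P = (im g P).image u.f := by
  unfold im
  rw [Finset.image_image]
  rfl

/-- elements of height `m` sending the index set `P` to `A` -/
def Bm (A : Finset ℝ) (m : ℕ) (P : Finset ℕ) : Set Amb := {g | Reach m g ∧ im g P = A}

/-- elements with prescribed labels at `Q` -/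
def Bv (A : Finset ℝ) (Q : Finset Qd) (m : ℕ) (P : Finset ℕ) (v : Q → ZMod 2) : Set Amb :=
  {g | g ∈ Bm A m P ∧ ∀ q : Q, g.c q = v q}

lemma ix_lt {T : Finset ℝ} {s t : ℝ} (hs : s ∈ T) (h : s < t) : ix T s < ix T t := by
  unfold ix
  apply Finset.card_lt_card
  refine ⟨fun r hr => ?_, fun hcon => ?_⟩
  · obtain ⟨h1, h2⟩ := Finset.mem_filter.1 hr
    exact Finset.mem_filter.2 ⟨h1, h2.trans h⟩
  · have := (Finset.mem_filter.1 (hcon (Finset.mem_filter.2 ⟨hs, h⟩))).2
    exact lt_irrefl _ this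

lemma fix_of_image {A : Finset ℝ} {e : ℝ ≃o ℝ} (h : A.image e = A) {a : ℝ} (ha : a ∈ A) :
    e a = a := by
  have h1 := ix_image A a e
  rw [h] at h1
  have h2 : e a ∈ A := by
    have := Finset.mem_image_of_mem e ha
    rwa [h] at this
  rcases lt_trichotomy (e a) a with h3 | h3 | h3
  · exact absurd h1 (ix_lt h2 h3).ne
  · exact h3
  · exact absurd h1 (ix_lt ha h3).ne'

lemma Reach.f_one {g : Amb} (h : Reach 1 g) : g.f 1 = 1 := by
  rw [h.f_ge (by simp)]; simp

lemma Reach.f_zero' {n : ℕ} {g : Amb} (h : Reach n g) : g.f 0 = 0 := h.f_nonpos le_rfl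

section setup

variable {A : Finset ℝ} {Q : Finset Qd} {H : Type} [Group H] [MulAction H Cell]
    [MulAction H Amb] (D : Setup A Q H)

include D

lemma Setup.hS (h : H) (y : Set Amb) : h • y = D.e h • y := by
  ext x
  constructor
  · rintro ⟨g, hg, rfl⟩
    exact ⟨g, hg, by simp only [smul_eq_mul]; rw [D.hA]⟩
  · rintro ⟨g, hg, rfl⟩
    exact ⟨g, hg, by simp only [smul_eq_mul]; rw [D.hA]⟩

lemma Setup.fixQ {u : Amb} (hu : Reach 1 u) (hA : A.image u.f = A) {P : Qd} (hP : P ∈ Q) :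
    mv u.f.symm P = P := by
  funext i
  rw [mv_apply, OrderIso.symm_apply_eq]
  rcases D.hQ P hP i with h | h | h
  · exact (fix_of_image hA h).symm
  · rw [h, hu.f_zero']
  · rw [h, hu.f_one]

lemma Setup.exists_of {g g₀ : Amb} {m : ℕ} {P : Finset ℕ} (hg : g ∈ Bm A m P)
    (hg₀ : g₀ ∈ Bm A m P) (hc : ∀ q ∈ Q, g.c q = g₀.c q) : ∃ h : H, g = h • g₀ := by
  have hA' : A.image (g * g₀⁻¹).f = A := by
    conv_lhs => rw [← hg₀.2]
    rw [← im_mul, inv_mul_cancel_right, hg.2]
  have hR : Reach 1 (g * g₀⁻¹) := hg₀.1.torsor hg.1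
  obtain ⟨h, hh⟩ := (D.range (g * g₀⁻¹)).2 ⟨hR, hA', by
    intro q hq
    have h1 := D.fixQ hR hA' hq
    rw [mv_mul_symm, inv_f, OrderIso.symm_symm] at h1
    rw [mul_c, inv_c, h1, hc q hq]
    ring⟩
  refine ⟨h, ?_⟩
  rw [D.hA, hh, inv_mul_cancel_right]

lemma Setup.smul_Bm {h : H} {g : Amb} {m : ℕ} {P : Finset ℕ} (hg : g ∈ Bm A m P) :
    D.e h * g ∈ Bm A m P := by
  obtain ⟨h1, h2, _⟩ := (D.range (D.e h)).1 ⟨h, rfl⟩
  exact ⟨hg.1.left h1, by rw [im_mul, hg.2, h2]⟩

lemma Setup.smul_c (h : H) (g : Amb) {q : Qd} (hq : q ∈ Q) : (D.e h * g).c q = g.c q := by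
  obtain ⟨h1, h2, h3⟩ := (D.range (D.e h)).1 ⟨h, rfl⟩
  rw [mul_c, h3 q hq, D.fixQ h1 h2 hq, zero_add]

lemma PF_B (n m : ℕ) (P : Finset ℕ) : PF H n (Bm A m P) := by
  classical
  have hU : Bm A m P = ⋃ v ∈ (Finset.univ : Finset (Q → ZMod 2)), Bv A Q m P v := by
    ext g
    simp only [Set.mem_iUnion]
    constructor
    · intro hg
      exact ⟨fun q => g.c q, Finset.mem_univ _, hg, fun q => rfl⟩
    · rintro ⟨v, _, hg, _⟩
      exact hg
  rw [hU]
  refine PF.biUnion _ _ ?_ ?_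
  · intro v _ v' _ hne
    rw [Set.disjoint_left]
    rintro g ⟨_, h1⟩ ⟨_, h2⟩
    exact hne (funext fun q => (h1 q).symm.trans (h2 q))
  · intro v _
    by_cases hne : (Bv A Q m P v).Nonempty
    · obtain ⟨g₀, hg₀, hv₀⟩ := hne
      refine PF.torsor g₀ ?_ ?_
      · intro g
        constructor
        · rintro ⟨hg, hv⟩
          exact D.exists_of hg hg₀ (fun q hq => (hv ⟨q, hq⟩).trans (hv₀ ⟨q, hq⟩).symm)
        · rintro ⟨h, rfl⟩
          rw [D.hA]
          exact ⟨D.smul_Bm hg₀, fun q => (D.smul_c h g₀ q.2).trans (hv₀ q)⟩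
      · intro h hh
        rw [D.hA, mul_eq_right] at hh
        apply D.inj
        rw [hh, map_one]
    · rw [Set.not_nonempty_iff_eq_empty] at hne
      rw [hne]
      exact PF.empty n

end setup

/-- quadruples of indices -/
abbrev Id4 := Fin 4 → ℕ

/-- the quadruple of reals -/
def rl (k : Id4) : Qd := fun i => (k i : ℝ)

lemma rl_inj {k k' : Id4} (h : rl k = rl k') : k = k' := by
  funext i
  exact Nat.cast_injective (show ((k i : ℕ) : ℝ) = ((k' i : ℕ) : ℝ) from congrFun h i)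

/-- labels supported on `K` -/
def LK (K : Finset Id4) (c : Qd → ZMod 2) : Prop :=
  ∀ q, c q ≠ 0 → ∃ k ∈ K, q = rl k

/-- coset of labels supported on `K` -/
def cs (K : Finset Id4) (g : Amb) : Set Amb := {x | ∃ c, LK K c ∧ x = g * iota c}

lemma self_mem_cs (K : Finset Id4) (g : Amb) : g ∈ cs K g :=
  ⟨fun _ => 0, fun _ h => absurd rfl h, by rw [iota_zero, mul_one]⟩

lemma LK.add {K : Finset Id4} {c d : Qd → ZMod 2} (hc : LK K c) (hd : LK K d) :
    LK K (fun q => c q + d q) := by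
  intro q h
  by_cases h1 : c q = 0
  · exact hd q (fun h2 => h (by simp [h1, h2]))
  · exact hc q h1

lemma LK.neg {K : Finset Id4} {c : Qd → ZMod 2} (hc : LK K c) :
    LK K (fun q => - c q) := fun q h => hc q (by simpa using h)

lemma cs_eq {K : Finset Id4} {g x : Amb} (h : x ∈ cs K g) : cs K x = cs K g := by
  obtain ⟨c, hc, rfl⟩ := h
  ext y
  constructor
  · rintro ⟨d, hd, rfl⟩
    exact ⟨_, hc.add hd, by rw [mul_assoc, iota_mul_iota]⟩
  · rintro ⟨d, hd, rfl⟩
    refine ⟨_, hc.neg.add hd, ?_⟩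
    rw [mul_assoc, iota_mul_iota]
    congr 2
    funext q
    ring

open Classical in
/-- a single label -/
noncomputable def dl (k : Id4) (n : ZMod 2) : Qd → ZMod 2 :=
  fun q => if q = rl k then n else 0

lemma dl_self (k : Id4) (n : ZMod 2) : dl k n (rl k) = n := if_pos rfl

lemma dl_ne {k : Id4} {n : ZMod 2} {q : Qd} (h : dl k n q ≠ 0) : q = rl k := by
  by_contra hcon
  exact h (if_neg hcon)

lemma dl_add (k : Id4) (n m : ZMod 2) : iota (dl k n) * iota (dl k m) = iota (dl k (n + m)) := by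
  rw [iota_mul_iota]
  congr 1
  funext q
  simp only [dl]
  split_ifs <;> simp

lemma dl_zero (k : Id4) : iota (dl k 0) = 1 := by
  rw [← iota_zero]
  congr 1
  funext q
  simp [dl]

lemma dl_one_sq (k : Id4) : iota (dl k 1) * iota (dl k 1) = 1 := by
  rw [dl_add, show (1 : ZMod 2) + 1 = 0 by decide, dl_zero]

lemma op_smul_cs (K : Finset Id4) (g : Amb) (d : Qd → ZMod 2) :
    MulOpposite.op (iota d) • cs K g = cs K (g * iota d) := by
  ext x
  rw [Set.mem_smul_set_iff_inv_smul_mem, ← MulOpposite.op_inv, MulOpposite.smul_eq_mul_unop,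
    MulOpposite.unop_op]
  constructor
  · rintro ⟨c, hc, h⟩
    refine ⟨c, hc, ?_⟩
    rw [mul_inv_eq_iff_eq_mul] at h
    rw [h, mul_assoc, mul_assoc, iota_mul_iota, iota_mul_iota]
    congr 2
    funext q; ring
  · rintro ⟨c, hc, rfl⟩
    refine ⟨c, hc, ?_⟩
    rw [mul_inv_eq_iff_eq_mul, mul_assoc, mul_assoc, iota_mul_iota, iota_mul_iota]
    congr 2
    funext q; ring

/-- the commuting involution -/
noncomputable def psi (k : Id4) : Equiv.Perm (Set Amb) :=
  MulAction.toPerm (MulOpposite.op (iota (dl k 1)))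

lemma psi_apply (k : Id4) (y : Set Amb) :
    psi k y = MulOpposite.op (iota (dl k 1)) • y := rfl

lemma psi_cs (K : Finset Id4) (k : Id4) (g : Amb) :
    psi k (cs K g) = cs K (g * iota (dl k 1)) := by rw [psi_apply, op_smul_cs]

/-- enlarge a coset -/
def phiK (k : Id4) (y : Set Amb) : Set Amb :=
  {x | ∃ z ∈ y, ∃ n : ZMod 2, x = z * iota (dl k n)}

lemma decomp (K : Finset Id4) (k : Id4) {c : Qd → ZMod 2} (hc : LK (insert k K) c) :
    ∃ d, LK K d ∧ iota c = iota (dl k (c (rl k))) * iota d := by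
  classical
  refine ⟨fun q => if q = rl k then 0 else c q, ?_, ?_⟩
  · intro q h
    simp only [ne_eq, ite_eq_left_iff, not_forall] at h
    obtain ⟨h1, h2⟩ := h
    obtain ⟨k', hk', h3⟩ := hc q h2
    rcases Finset.mem_insert.1 hk' with rfl | hk'
    · exact absurd h3 h1
    · exact ⟨k', hk', h3⟩
  · rw [iota_mul_iota]
    congr 1
    funext q
    simp only [dl]
    split_ifs with h
    · rw [h, add_zero]
    · rw [zero_add]

lemma phiK_cs (K : Finset Id4) (k : Id4) (g : Amb) :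
    phiK k (cs K g) = cs (insert k K) g := by
  ext x
  constructor
  · rintro ⟨z, ⟨c, hc, rfl⟩, n, rfl⟩
    refine ⟨fun q => c q + dl k n q, ?_, by rw [mul_assoc, iota_mul_iota]⟩
    intro q h
    by_cases h1 : c q = 0
    · have h2 : dl k n q ≠ 0 := fun h2 => h (by simp [h1, h2])
      exact ⟨k, Finset.mem_insert_self _ _, dl_ne h2⟩
    · obtain ⟨k', hk', h3⟩ := hc q h1
      exact ⟨k', Finset.mem_insert_of_mem hk', h3⟩
  · rintro ⟨c, hc, rfl⟩
    obtain ⟨d, hd, he⟩ := decomp K k hc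
    refine ⟨g * iota d, ⟨d, hd, rfl⟩, c (rl k), ?_⟩
    rw [he, mul_assoc, iota_mul_iota, iota_mul_iota]
    congr 2
    funext q; ring

lemma Bm_iota {A : Finset ℝ} {m : ℕ} {P : Finset ℕ} {k : Id4} (hk : ∀ i, k i ≤ m)
    {g : Amb} (hg : g ∈ Bm A m P) (n : ZMod 2) : g * iota (dl k n) ∈ Bm A m P := by
  refine ⟨hg.1.lab ?_, ?_⟩
  · intro q h a
    rw [dl_ne h]
    exact ⟨k a, hk a, rfl⟩
  · have : im (g * iota (dl k n)) P = im g P := by
      unfold im
      refine Finset.image_congr fun r _ => ?_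
      rfl
    rw [this, hg.2]

section setup2

variable {A : Finset ℝ} {Q : Finset Qd} {H : Type} [Group H] [MulAction H Cell]
    [MulAction H Amb] (D : Setup A Q H)

include D

lemma PF_cs (m : ℕ) (P : Finset ℕ) (K : Finset Id4) (hK : ∀ k ∈ K, ∀ i, k i ≤ m) :
    ∀ n, PF H n (cs K '' Bm A m P) := by
  classical
  induction K using Finset.induction_on with
  | empty =>
    intro n
    have e0 : ∀ g : Amb, cs ∅ g = {g} := by
      intro g
      ext x
      rw [Set.mem_singleton_iff]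
      constructor
      · rintro ⟨c, hc, rfl⟩
        have : c = fun _ => 0 := by
          funext q
          by_contra h
          obtain ⟨k, hk, _⟩ := hc q h
          simp at hk
        rw [this, iota_zero, mul_one]
      · rintro rfl
        exact self_mem_cs _ _
    refine PF.image (φ := cs ∅) ?_ ?_ (PF_B D n m P)
    · intro h g
      rw [e0, e0, D.hS, D.hA, Set.smul_set_singleton, smul_eq_mul]
    · intro g _ g' _ h
      rw [e0, e0] at h
      exact Set.singleton_injective h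
  | insert k K hk ih =>
    have ih' := ih (fun k' hk' => hK k' (Finset.mem_insert_of_mem hk'))
    have hk2 := hK k (Finset.mem_insert_self _ _)
    have himg : phiK k '' (cs K '' Bm A m P) = cs (insert k K) '' Bm A m P := by
      rw [Set.image_image]
      refine Set.image_congr fun g _ => phiK_cs K k g
    rw [← himg]
    refine PF_quot (φ := phiK k) ?_ (psi k) ?_ ?_ ?_ ?_ ?_ ?_ ih'
    · intro h y
      rw [D.hS, D.hS]
      ext x
      constructor
      · rintro ⟨z, hz, n, rfl⟩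
        obtain ⟨z', hz', rfl⟩ := hz
        exact ⟨z' * iota (dl k n), ⟨z', hz', n, rfl⟩, by
          simp only [smul_eq_mul, mul_assoc]⟩
      · rintro ⟨_, ⟨z, hz, n, rfl⟩, rfl⟩
        exact ⟨D.e h * z, ⟨z, hz, rfl⟩, n, by simp only [smul_eq_mul, mul_assoc]⟩
    · intro h y
      rw [D.hS, D.hS, psi_apply, psi_apply, smul_op_smul]
    · rintro _ ⟨g, hg, rfl⟩
      rw [psi_cs]
      exact ⟨g * iota (dl k 1), Bm_iota hk2 hg _, rfl⟩
    · rintro _ ⟨g, hg, rfl⟩
      rw [psi_cs, phiK_cs, phiK_cs]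
      apply cs_eq
      refine ⟨dl k 1, ?_, rfl⟩
      intro q h
      exact ⟨k, Finset.mem_insert_self _ _, dl_ne h⟩
    · rintro _ ⟨g, hg, rfl⟩
      rw [psi_cs, psi_cs, mul_assoc, dl_one_sq, mul_one]
    · rintro _ ⟨g, hg, rfl⟩ _ ⟨g', hg', rfl⟩ h
      rw [phiK_cs, phiK_cs] at h
      have h1 : g' ∈ cs (insert k K) g := by rw [h]; exact self_mem_cs _ _
      obtain ⟨c, hc, rfl⟩ := h1
      obtain ⟨d, hd, he⟩ := decomp K k hc
      rw [he]
      have e1 : cs K (g * (iota (dl k (c (rl k))) * iota d)) =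
          cs K (g * iota (dl k (c (rl k)))) := by
        apply cs_eq
        exact ⟨d, hd, by rw [mul_assoc]⟩
      rw [e1, psi_cs]
      have h01 : ∀ a : ZMod 2, a = 0 ∨ a = 1 := by decide
      rcases h01 (c (rl k)) with h2 | h2
      · left; rw [h2, dl_zero, mul_one]
      · right; rw [h2]
    · rintro _ ⟨g, hg, rfl⟩ h
      rw [psi_cs] at h
      have h1 : g * iota (dl k 1) ∈ cs K g := by rw [← h]; exact self_mem_cs _ _
      obtain ⟨c, hc, h2⟩ := h1
      have h3 := mul_left_cancel h2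
      have h4 : dl k 1 = c := congrArg Amb.c h3
      have h5 : c (rl k) ≠ 0 := by
        rw [← h4, dl_self]; decide
      obtain ⟨k', hk', h6⟩ := hc _ h5
      exact hk (rl_inj h6 ▸ hk')

omit [MulAction H Cell] [MulAction H Amb] D in
lemma PF.of_image' {X Y : Type} [MulAction H X] [MulAction H Y] {n : ℕ} {φ : X → Y}
    (hφ : ∀ (h : H) (x : X), φ (h • x) = h • φ x) {U : Set X} (hU : Inv H U)
    (hinj : Set.InjOn φ U) (h : PF H n (φ '' U)) : PF H n U := by
  obtain ⟨iU, fU⟩ := h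
  refine ⟨hU, ?_⟩
  have hb : Function.Bijective (pushS hφ hU) := by
    refine ⟨?_, pushS_surj hφ hU⟩
    rw [injective_iff_map_eq_zero]
    intro z hz
    apply Subtype.ext
    exact pushX_injOn hinj z.2 (congrArg Subtype.val hz)
  exact FP.congr (LinearEquiv.ofBijective _ hb).symm fU

end setup2

end Pool.Agent.OLF
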