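import Pool.Agent.OLF.Exact
import Pool.Agent.OLF.Model

set_option autoImplicit false

namespace Pool.Agent.OLF

open Pool.Agent.Lib_helper28.OF

open Amb Finsupp

/-- the part of the differential preserving the top -/
noncomputable def d0 : (Cell →₀ ℤ) →ₗ[ℤ] (Cell →₀ ℤ) :=
  lext fun x => ∑ t ∈ x.ρ, sgn t x.ρ • single (f0 t x) 1

lemma d0_single (x : Cell) : d0 (single x 1) = ∑ t ∈ x.ρ, sgn t x.ρ • single (f0 t x) 1 :=
  lext_single_one _ _

/-- the part of the differential lowering the top -/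
noncomputable def d1 : (Cell →₀ ℤ) →ₗ[ℤ] (Cell →₀ ℤ) :=
  lext fun x => ∑ t ∈ x.ρ, sgn t x.ρ • single (f1 t x) 1

lemma d1_single (x : Cell) : d1 (single x 1) = ∑ t ∈ x.ρ, sgn t x.ρ • single (f1 t x) 1 :=
  lext_single_one _ _

lemma dc_eq (z : Cell →₀ ℤ) : dc z = d0 z - d1 z := by
  refine map_congr_of (U := Set.univ) (F := dc) (G := d0 - d1) ?_ (mem_Sp.2 fun _ _ => trivial)
  intro x _
  rw [dc_single, LinearMap.sub_apply, d0_single, d1_single, Dc, ← Finset.sum_sub_distrib]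
  refine Finset.sum_congr rfl fun t _ => ?_
  rw [smul_sub]

/-- the cells with fixed top height -/
def CAm (A : Finset ℝ) (m j : ℕ) : Set Cell := {x | x ∈ CA A j ∧ x.T.card = m + 1}

/-- pushforward along a map -/
noncomputable def push {X Y : Type} (φ : X → Y) : (X →₀ ℤ) →ₗ[ℤ] (Y →₀ ℤ) :=
  lext fun x => single (φ x) 1

lemma push_single {X Y : Type} (φ : X → Y) (x : X) : push φ (single x 1) = single (φ x) 1 :=
  lext_single_one _ _

lemma push_eq_mapDomain {X Y : Type} (φ : X → Y) (z : X →₀ ℤ) :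
    push φ z = Finsupp.mapDomain φ z := by
  refine map_congr_of (U := Set.univ) (F := push φ) (G := Finsupp.lmapDomain ℤ ℤ φ) ?_
    (mem_Sp.2 fun _ _ => trivial)
  intro x _
  rw [push_single, Finsupp.lmapDomain_apply, Finsupp.mapDomain_single]

lemma push_injOn {X Y : Type} {φ : X → Y} {U : Set X} (h : Set.InjOn φ U) {z : X →₀ ℤ}
    (hz : z ∈ Sp U) (h0 : push φ z = 0) : z = 0 := by
  have := Finsupp.mapDomain_injOn (M := ℤ) U h
  apply this
  · change (z.support : Set X) ⊆ U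
    rw [Sp, Finsupp.mem_supported] at hz
    exact hz
  · change ((0 : X →₀ ℤ).support : Set X) ⊆ U
    simp
  · rw [← push_eq_mapDomain, h0, Finsupp.mapDomain_zero]

lemma Sp_image_le {X Y : Type} (φ : X → Y) {U : Set X} {W : Set Y} (hW : W ⊆ φ '' U)
    {z : Y →₀ ℤ} (hz : z ∈ Sp W) : ∃ z' ∈ Sp U, push φ z' = z := by
  have : z ∈ (Sp U).map (push φ) := by
    refine map_mem_of (F := LinearMap.id) ?_ hz
    intro y hy
    obtain ⟨x, hx, rfl⟩ := hW hy
    exact ⟨single x 1, single_mem_Sp hx 1, push_single φ x⟩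
  obtain ⟨z', h1, h2⟩ := this
  exact ⟨z', h1, h2⟩

section fiber

variable (m : ℕ) (g₀ : Amb)

open Classical in
/-- endpoints -/
noncomputable def endsF : Qd → Finset ℕ :=
  fun e => (Finset.range (m + 1)).filter (fun r : ℕ => ∃ a, g₀.f (r : ℝ) = e a)

lemma mem_endsF {e : Qd} {r : ℕ} : r ∈ endsF m g₀ e ↔
    r ≤ m ∧ ∃ a, g₀.f (r : ℝ) = e a := by
  simp [endsF]

lemma gf_inj {g : Amb} {r s : ℕ} (h : g.f (r : ℝ) = g.f (s : ℝ)) : r = s := by
  have : (r : ℝ) = s := g.f.injective h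
  exact_mod_cast this

lemma endsF_card (e : Qd) : (endsF m g₀ e).card ≤ 4 := by
  classical
  have h1 : (endsF m g₀ e).card ≤ (Finset.univ.image e).card := by
    refine Finset.card_le_card_of_injOn (fun r : ℕ => g₀.f (r : ℝ)) ?_ ?_
    · intro r hr
      obtain ⟨_, a, ha⟩ := (mem_endsF m g₀).1 hr
      exact Finset.mem_coe.2 (Finset.mem_image.2 ⟨a, Finset.mem_univ _, ha.symm⟩)
    · intro a _ b _ h
      exact gf_inj h
  have h2 : (Finset.univ.image e).card ≤ 4 := Finset.card_image_le.trans (by simp)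
  omega

/-- image of index sets -/
noncomputable def im (R : Finset ℕ) : Finset ℝ := R.image (fun r : ℕ => g₀.f (r : ℝ))

lemma mem_im {R : Finset ℕ} {r : ℕ} : g₀.f (r : ℝ) ∈ im g₀ R ↔ r ∈ R := by
  unfold im
  rw [Finset.mem_image]
  constructor
  · rintro ⟨s, hs, h⟩
    rwa [gf_inj h] at hs
  · intro h; exact ⟨r, h, rfl⟩

lemma im_inj {R R' : Finset ℕ} (h : im g₀ R = im g₀ R') : R = R' := by
  ext r
  rw [← mem_im g₀, ← mem_im g₀, h]

lemma im_card (R : Finset ℕ) : (im g₀ R).card = R.card :=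
  Finset.card_image_of_injective _ fun _ _ h => gf_inj h

lemma im_erase (R : Finset ℕ) (r : ℕ) : im g₀ (R.erase r) = (im g₀ R).erase (g₀.f (r : ℝ)) := by
  unfold im
  exact Finset.image_erase (fun _ _ h => gf_inj h) _ _

lemma sgn_im (R : Finset ℕ) (r : ℕ) : sgn (g₀.f (r : ℝ)) (im g₀ R) = sgn r R :=
  sgn_image ((Nat.castOrderEmbedding (α := ℝ)).trans g₀.f.toOrderEmbedding) r R

/-- cell of a model cell -/
noncomputable def phi (x : XM Qd) : Cell :=
  cell m (iota x.2 * g₀) (im g₀ x.1)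

/-- labels off the active quadruples can be dropped -/
lemma phi_res {R : Finset ℕ} {l : Qd → ZMod 2} (hR : ∀ r ∈ R, r ≤ m)
    (hl : ∀ e, l e ≠ 0 → Inq (Tn m g₀) e) :
    phi m g₀ (R, resl (endsF m g₀) R l) = phi m g₀ (R, l) := by
  classical
  unfold phi
  apply cell_congr
  have hT : Tn m (iota l * g₀) = Tn m g₀ := Tn_congr (iota_mul_f _ _)
  rw [hT]
  refine ⟨?_, ?_⟩
  · rw [iota_mul_f, iota_mul_f]
  · intro q hq
    rw [iota_mul_c, iota_mul_c]
    congr 1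
    simp only [resl]
    split_ifs with ha
    · rfl
    · by_contra hne
      have h1 := hl q (Ne.symm hne)
      apply hq
      intro a
      refine Finset.mem_sdiff.2 ⟨h1 a, fun hq2 => ha ?_⟩
      obtain ⟨r, hr, hr'⟩ := Finset.mem_image.1 hq2
      exact ⟨r, (mem_endsF m g₀).2 ⟨hR r hr, a, hr'⟩, hr⟩

variable (A : Finset ℝ)

open Classical in
/-- the admissible vertices -/
noncomputable def VF : Finset ℕ := (Finset.Ico 1 m).filter (fun r : ℕ => g₀.f (r : ℝ) ∉ A)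

lemma mem_VF {r : ℕ} : r ∈ VF m g₀ A ↔ 1 ≤ r ∧ r < m ∧ g₀.f (r : ℝ) ∉ A := by
  simp [VF, and_assoc]

lemma VF_card : m - 1 ≤ (VF m g₀ A).card + A.card := by
  classical
  have h1 : (Finset.Ico 1 m).card ≤ (VF m g₀ A).card +
      ((Finset.Ico 1 m).filter (fun r : ℕ => ¬ (g₀.f (r : ℝ) ∉ A))).card := by
    rw [VF, Finset.card_filter_add_card_filter_not]
  have h2 : ((Finset.Ico 1 m).filter (fun r : ℕ => ¬ (g₀.f (r : ℝ) ∉ A))).card ≤ A.card := by
    refine Finset.card_le_card_of_injOn (fun r : ℕ => g₀.f (r : ℝ)) ?_ ?_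
    · intro r hr
      have := (Finset.mem_filter.1 hr).2
      push Not at this
      exact this
    · intro a _ b _ h
      exact gf_inj h
  rw [Nat.card_Ico] at h1
  omega

/-- edges -/
noncomputable def EF : Finset Qd := Fintype.piFinset (fun _ => Tn m g₀)

lemma mem_EF {e : Qd} : e ∈ EF m g₀ ↔ Inq (Tn m g₀) e := Fintype.mem_piFinset

/-- fibre of the top map -/
def Fib (j : ℕ) : Set Cell := {x | x ∈ CA A j ∧ top x = cell m g₀ ∅}

/-- union of the model cells -/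
def UAll : Set (XM Qd) :=
  {x | x.1 ⊆ VF m g₀ A ∧ Ind x.1 ∧
    ∀ e, x.2 e ≠ 0 → e ∈ EF m g₀ ∧ act (endsF m g₀) x.1 e}

lemma Um_sub_UAll (j : ℕ) : Um (endsF m g₀) (VF m g₀ A) (EF m g₀) j ⊆ UAll m g₀ A := by
  rintro x ⟨h1, h2, _, h4⟩
  exact ⟨h1, h2, h4⟩

lemma fc_UAll {x : XM Qd} (hx : x ∈ UAll m g₀ A) (r : ℕ) :
    fc (endsF m g₀) r x ∈ UAll m g₀ A := by
  obtain ⟨h1, h2, h3⟩ := hx
  refine ⟨(Finset.erase_subset _ _).trans h1, h2.mono (Finset.erase_subset _ _), ?_⟩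
  intro e he
  simp only [fc, resl] at he ⊢
  split_ifs at he with ha
  · exact ⟨(h3 e he).1, ha⟩
  · exact absurd rfl he

lemma phi_injOn : Set.InjOn (phi m g₀) (UAll m g₀ A) := by
  rintro ⟨R, l⟩ hx ⟨R', l'⟩ hx' h
  obtain ⟨_, h2, h3⟩ := cell_eq_imp h
  have hRR : R = R' := im_inj g₀ h2
  subst hRR
  congr 1
  funext e
  by_cases ha : act (endsF m g₀) R e
  · have h4 := h3.2 e (by
      intro h5
      obtain ⟨r, hr, hr'⟩ := ha
      obtain ⟨_, a, h7⟩ := (mem_endsF m g₀).1 hr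
      have h6 := h5 a
      rw [← h7] at h6
      exact (Finset.mem_sdiff.1 h6).2 ((mem_im g₀).2 hr'))
    rw [iota_mul_c, iota_mul_c] at h4
    exact add_right_cancel h4
  · have e1 : l e = 0 := by
      by_contra hne
      exact ha (hx.2.2 e hne).2
    have e2 : l' e = 0 := by
      by_contra hne
      exact ha (hx'.2.2 e hne).2
    rw [e1, e2]

variable {m g₀ A}

lemma reach_iota (hg : Reach m g₀) {l : Qd → ZMod 2}
    (hl : ∀ e, l e ≠ 0 → Inq (Tn m g₀) e) :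
    Reach m (iota l * g₀) := by
  rw [iota_mul']
  apply hg.lab
  intro q hq a
  obtain ⟨i, hi, hi'⟩ := mem_Tn.1 (hl _ hq a)
  exact ⟨i, hi, (g₀.f.injective hi').symm⟩

lemma phi_maps (hg : Reach m g₀) (hA : A ⊆ Tn m g₀) {j : ℕ} {x : XM Qd}
    (hx : x ∈ Um (endsF m g₀) (VF m g₀ A) (EF m g₀) j) : phi m g₀ x ∈ Fib m g₀ A j := by
  obtain ⟨R, l⟩ := x
  obtain ⟨h1, h2, h3, h4⟩ := hx
  simp only at h1 h2 h3 h4
  have hl : ∀ e, l e ≠ 0 → Inq (Tn m g₀) e := fun e he =>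
    (mem_EF m g₀).1 (h4 e he).1
  have hT : Tn m (iota l * g₀) = Tn m g₀ := Tn_congr (iota_mul_f _ _)
  have hRV : ∀ r ∈ R, 1 ≤ r ∧ r < m ∧ g₀.f (r : ℝ) ∉ A := fun r hr =>
    (mem_VF m g₀ A).1 (h1 hr)
  refine ⟨⟨⟨m, _, _, ⟨reach_iota hg hl, ?_, ?_, ?_, ?_⟩, rfl⟩, ?_, ?_⟩, ?_⟩
  · rw [hT]
    intro s hs
    obtain ⟨r, hr, rfl⟩ := Finset.mem_image.1 hs
    exact f_mem_Tn (hRV r hr).2.1.le
  · rw [iota_mul_f, mem_im]
    intro h; have := (hRV 0 h).1; omega
  · rw [iota_mul_f, mem_im]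
    intro h; have := (hRV m h).2.1; omega
  · intro i _
    rw [iota_mul_f, mem_im, mem_im]
    rintro ⟨h5, h6⟩
    exact h2 i h5 h6
  · change A ⊆ Tn m (iota l * g₀) \ im g₀ R
    rw [hT]
    intro s hs
    refine Finset.mem_sdiff.2 ⟨hA hs, fun h => ?_⟩
    obtain ⟨r, hr, rfl⟩ := Finset.mem_image.1 h
    exact (hRV r hr).2.2 hs
  · change (im g₀ R).card = j
    rw [im_card, h3]
  · unfold phi
    rw [top_cell]
    apply cell_congr
    apply iota_mul_mem_cos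
    intro q hq
    by_contra hne
    apply hq
    rw [Finset.sdiff_empty]
    exact hl _ hne

lemma Fib_sub_image (hg : Reach m g₀) {j : ℕ} : Fib m g₀ A j ⊆
    phi m g₀ '' Um (endsF m g₀) (VF m g₀ A) (EF m g₀) j := by
  classical
  rintro _ ⟨⟨⟨n, g, ρ, hG, rfl⟩, h2, h3⟩, h4⟩
  rw [top_cell] at h4
  obtain ⟨rfl, _, h5⟩ := cell_eq_imp h4
  rw [Finset.sdiff_empty] at h5
  obtain ⟨c, hc, rfl⟩ := mem_cos_iff_iota.1 h5
  have hf : (iota c * g₀).f = g₀.f := iota_mul_f c g₀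
  change A ⊆ Tn n (iota c * g₀) \ ρ at h2
  change ρ.card = j at h3
  have hT : Tn n (iota c * g₀) = Tn n g₀ := Tn_congr hf
  rw [hT] at h2
  set R := (Finset.range (n + 1)).filter (fun r : ℕ => g₀.f (r : ℝ) ∈ ρ) with hR
  have hRmem : ∀ r, r ∈ R ↔ r ≤ n ∧ g₀.f (r : ℝ) ∈ ρ := by
    intro r; simp [hR]
  have himR : im g₀ R = ρ := by
    ext s
    constructor
    · intro hs
      obtain ⟨r, hr, rfl⟩ := Finset.mem_image.1 hs
      exact ((hRmem r).1 hr).2
    · intro hs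
      have := hG.sub hs
      rw [hT] at this
      obtain ⟨r, hr, rfl⟩ := mem_Tn.1 this
      rw [mem_im]
      exact (hRmem r).2 ⟨hr, hs⟩
  have hl : ∀ e : Qd, c e ≠ 0 → Inq (Tn n g₀) e := by
    intro e he
    by_contra hcon
    exact he (hc _ hcon)
  refine ⟨(R, resl (endsF n g₀) R c), ⟨?_, ?_, ?_, ?_⟩, ?_⟩
  · intro r hr
    obtain ⟨hr1, hr2⟩ := (hRmem r).1 hr
    refine (mem_VF n g₀ A).2 ⟨?_, ?_, ?_⟩
    · rcases Nat.eq_zero_or_pos r with rfl | h
      · have := hG.zero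
        rw [hf] at this
        exact absurd hr2 this
      · exact h
    · rcases Nat.lt_or_ge r n with h | h
      · exact h
      · have : r = n := by omega
        subst this
        have := hG.last
        rw [hf] at this
        exact absurd hr2 this
    · intro hA
      exact (Finset.mem_sdiff.1 (h2 hA)).2 hr2
  · intro r hr hr'
    obtain ⟨hr1, hr2⟩ := (hRmem r).1 hr
    obtain ⟨hr3, hr4⟩ := (hRmem (r + 1)).1 hr'
    have := hG.ind r (by omega)
    rw [hf] at this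
    exact this ⟨hr2, hr4⟩
  · change R.card = j
    rw [← im_card g₀, himR, h3]
  · intro e he
    simp only [resl] at he ⊢
    split_ifs at he with ha
    · exact ⟨(mem_EF n g₀).2 (hl e he), ha⟩
    · exact absurd rfl he
  · rw [phi_res n g₀ (fun r hr => ((hRmem r).1 hr).1) hl]
    unfold phi
    rw [himR]

lemma d0_push {j : ℕ} {z : XM Qd →₀ ℤ}
    (hz : z ∈ Sp (Um (endsF m g₀) (VF m g₀ A) (EF m g₀) j)) :
    d0 (push (phi m g₀) z) = push (phi m g₀) (dM (endsF m g₀) z) := by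
  refine map_congr_of (F := d0 ∘ₗ push (phi m g₀))
    (G := push (phi m g₀) ∘ₗ dM (endsF m g₀)) ?_ hz
  rintro ⟨R, l⟩ ⟨h1, h2, h3, h4⟩
  simp only at h1 h2 h3 h4
  simp only [LinearMap.comp_apply]
  rw [push_single, d0_single, dM_single, DM, map_sum]
  have hρ : (phi m g₀ (R, l)).ρ = im g₀ R := rfl
  rw [hρ, im, Finset.sum_image (fun _ _ _ _ h => gf_inj h)]
  refine Finset.sum_congr rfl fun r hr => ?_
  rw [map_smul, push_single]
  have e1 : sgn (g₀.f (r : ℝ)) (R.image (fun r : ℕ => g₀.f (r : ℝ))) = sgn r R := sgn_im g₀ R r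
  rw [e1]
  congr 2
  unfold fc
  have hl : ∀ e, l e ≠ 0 → Inq (Tn m g₀) e := fun e he =>
    (mem_EF m g₀).1 (h4 e he).1
  rw [phi_res m g₀ (fun r hr => ((mem_VF m g₀ A).1 (h1 (Finset.mem_of_mem_erase hr))).2.1.le) hl]
  unfold phi
  rw [f0_cell, im_erase]

theorem fiber_exact (hg : Reach m g₀) (hA : A ⊆ Tn m g₀) {j : ℕ}
    (hj : 5 * j + 1 + A.card < m) {z : Cell →₀ ℤ} (hz : z ∈ Sp (Fib m g₀ A j))
    (hdz : d0 z = 0) : ∃ u ∈ Sp (Fib m g₀ A (j + 1)), d0 u = z := by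
  obtain ⟨z', hz', rfl⟩ := Sp_image_le (phi m g₀) (Fib_sub_image hg) hz
  rw [d0_push hz'] at hdz
  have h1 : dM (endsF m g₀) z' ∈ Sp (UAll m g₀ A) := by
    refine map_mem_of ?_ hz'
    intro x hx
    rw [dM_single, DM]
    exact Submodule.sum_mem _ fun r _ => Submodule.smul_mem _ _
      (single_mem_Sp (fc_UAll m g₀ A (Um_sub_UAll m g₀ A j hx) r) 1)
  have h2 := push_injOn (phi_injOn m g₀ A) h1 hdz
  have h3 := VF_card m g₀ A
  obtain ⟨u', hu', hdu'⟩ := model_exact (endsF m g₀) (endsF_card m g₀) (EF m g₀)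
    (VF m g₀ A) j (by omega) z' hz' h2
  refine ⟨push (phi m g₀) u', ?_, ?_⟩
  · refine map_mem_of ?_ hu'
    intro x hx
    rw [push_single]
    exact single_mem_Sp (phi_maps hg hA hx) 1
  · rw [d0_push hu', hdu']

end fiber

end Pool.Agent.OLF
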