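import Pool.Agent.OLF.Stab
import Pool.Agent.Lib_helper28.OFRes
import Pool.Agent.Lib_helper28.OFDefs

set_option autoImplicit false

namespace Pool.Agent.OLF

open Pool.Agent.Lib_helper28.OF
open Amb Finsupp
open scoped Pointwise

/-- index quadruples of free labels -/
def KR (m : ℕ) (R : Finset ℕ) : Finset Id4 :=
  Fintype.piFinset (fun _ => Finset.range (m + 1) \ R)

lemma mem_KR {m : ℕ} {R : Finset ℕ} {k : Id4} :
    k ∈ KR m R ↔ ∀ i, k i ≤ m ∧ k i ∉ R := by
  simp [KR, Fintype.mem_piFinset]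

lemma mem_Tn_sdiff {m : ℕ} {R : Finset ℕ} {g : Amb} {s : ℝ} :
    g.f s ∈ Tn m g \ im g R ↔ ∃ i : ℕ, i ≤ m ∧ i ∉ R ∧ s = i := by
  rw [Finset.mem_sdiff, mem_Tn]
  constructor
  · rintro ⟨⟨i, hi, h⟩, h2⟩
    have h3 : (i : ℝ) = s := g.f.injective h
    subst h3
    exact ⟨i, hi, fun h4 => h2 ((mem_im g).2 h4), rfl⟩
  · rintro ⟨i, hi, h2, rfl⟩
    exact ⟨⟨i, hi, rfl⟩, fun h4 => h2 ((mem_im g).1 h4)⟩

lemma cos_eq_cs (m : ℕ) (g : Amb) (R : Finset ℕ) :
    cos (Tn m g \ im g R) g = cs (KR m R) g := by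
  ext x
  rw [mem_cos_iff_iota]
  constructor
  · rintro ⟨c, hc, rfl⟩
    refine ⟨fun q => c (mv g.f q), ?_, iota_mul' g c⟩
    intro q h
    have h2 : Inq (Tn m g \ im g R) (mv g.f q) := by
      by_contra hcon; exact h (hc _ hcon)
    have h3 : ∀ i, ∃ a : ℕ, a ≤ m ∧ a ∉ R ∧ q i = a := fun i => mem_Tn_sdiff.1 (h2 i)
    choose k hk1 hk2 hk3 using h3
    exact ⟨k, mem_KR.2 fun i => ⟨hk1 i, hk2 i⟩, funext hk3⟩
  · rintro ⟨c, hc, rfl⟩
    refine ⟨fun q => c (mv g.f.symm q), ?_, mul_iota g c⟩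
    intro q hq
    by_contra h
    obtain ⟨k, hk, h1⟩ := hc _ h
    apply hq
    intro i
    have h2 := mem_KR.1 hk i
    have h3 : q i = g.f ((k i : ℕ) : ℝ) := by
      have := congrFun h1 i
      rw [mv_apply, OrderIso.symm_apply_eq] at this
      exact this
    rw [h3]
    exact mem_Tn_sdiff.2 ⟨k i, h2.1, h2.2, rfl⟩

/-- cells of fixed combinatorial type -/
def UC (A : Finset ℝ) (m : ℕ) (R P : Finset ℕ) : Set Cell :=
  (fun g => cell m g (im g R)) '' Bm A m P

lemma im_congr {g h : Amb} (e : g.f = h.f) (R : Finset ℕ) : im g R = im h R := by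
  unfold im; rw [e]

/-- admissible combinatorial types -/
def OKR (m j : ℕ) (R P : Finset ℕ) : Prop :=
  (∀ r ∈ R, 1 ≤ r ∧ r < m) ∧ Ind R ∧ R.card = j ∧ Disjoint P R ∧ ∀ p ∈ P, p ≤ m

lemma good_of_OKR {m j : ℕ} {R P : Finset ℕ} (h : OKR m j R P) {g : Amb} (hg : Reach m g) :
    Good m g (im g R) := by
  obtain ⟨h1, h2, h3, h4, h5⟩ := h
  refine ⟨hg, ?_, ?_, ?_, ?_⟩
  · intro s hs
    obtain ⟨r, hr, rfl⟩ := Finset.mem_image.1 hs
    exact f_mem_Tn (h1 r hr).2.le
  · rw [mem_im]; intro h; have := (h1 0 h).1; omega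
  · rw [mem_im]; intro h; have := (h1 m h).2; omega
  · intro i _
    rw [mem_im, mem_im]
    rintro ⟨h6, h7⟩
    exact h2 i h6 h7

open Classical in
/-- the pieces -/
noncomputable def Us (A : Finset ℝ) (j : ℕ) (i : ℕ × Finset ℕ × Finset ℕ) : Set Cell :=
  if OKR i.1 j i.2.1 i.2.2 then UC A i.1 i.2.1 i.2.2 else ∅

/-- the index set -/
def Ix (M : ℕ) : Finset (ℕ × Finset ℕ × Finset ℕ) :=
  Finset.range (M + 1) ×ˢ ((Finset.range (M + 1)).powerset ×ˢ (Finset.range (M + 1)).powerset)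

lemma CL_eq (A : Finset ℝ) (j M : ℕ) : CL A j M = ⋃ i ∈ Ix M, Us A j i := by
  classical
  ext x
  simp only [Set.mem_iUnion]
  constructor
  · rintro ⟨⟨⟨m, g, ρ, hG, rfl⟩, h2, h3⟩, h4⟩
    change A ⊆ Tn m g \ ρ at h2
    change ρ.card = j at h3
    change (Tn m g).card ≤ M + 1 at h4
    rw [Tn_card] at h4
    set R := (Finset.range (m + 1)).filter (fun r : ℕ => g.f (r : ℝ) ∈ ρ) with hR
    set P := (Finset.range (m + 1)).filter (fun r : ℕ => g.f (r : ℝ) ∈ A) with hP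
    have hRmem : ∀ r, r ∈ R ↔ r ≤ m ∧ g.f (r : ℝ) ∈ ρ := by
      intro r; simp [hR]
    have hPmem : ∀ r, r ∈ P ↔ r ≤ m ∧ g.f (r : ℝ) ∈ A := by
      intro r; simp [hP]
    have himR : im g R = ρ := by
      ext s
      constructor
      · intro hs
        obtain ⟨r, hr, rfl⟩ := Finset.mem_image.1 hs
        exact ((hRmem r).1 hr).2
      · intro hs
        obtain ⟨r, hr, rfl⟩ := mem_Tn.1 (hG.sub hs)
        rw [mem_im]
        exact (hRmem r).2 ⟨hr, hs⟩
    have himP : im g P = A := by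
      ext s
      constructor
      · intro hs
        obtain ⟨r, hr, rfl⟩ := Finset.mem_image.1 hs
        exact ((hPmem r).1 hr).2
      · intro hs
        obtain ⟨r, hr, rfl⟩ := mem_Tn.1 (Finset.mem_sdiff.1 (h2 hs)).1
        rw [mem_im]
        exact (hPmem r).2 ⟨hr, hs⟩
    refine ⟨(m, R, P), ?_, ?_⟩
    · simp only [Ix, Finset.mem_product, Finset.mem_range, Finset.mem_powerset]
      refine ⟨by omega, ?_, ?_⟩
      · intro r hr
        have := ((hRmem r).1 hr).1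
        simp only [Finset.mem_range]; omega
      · intro r hr
        have := ((hPmem r).1 hr).1
        simp only [Finset.mem_range]; omega
    · have hOK : OKR m j R P := by
        refine ⟨?_, ?_, ?_, ?_, ?_⟩
        · intro r hr
          obtain ⟨hr1, hr2⟩ := (hRmem r).1 hr
          constructor
          · rcases Nat.eq_zero_or_pos r with rfl | h
            · exact absurd hr2 hG.zero
            · exact h
          · rcases Nat.lt_or_ge r m with h | h
            · exact h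
            · have : r = m := by omega
              subst this
              exact absurd hr2 hG.last
        · intro r hr hr'
          obtain ⟨hr1, hr2⟩ := (hRmem r).1 hr
          obtain ⟨hr3, hr4⟩ := (hRmem (r + 1)).1 hr'
          exact hG.ind r (by omega) ⟨hr2, hr4⟩
        · rw [← im_card g R, himR, h3]
        · rw [Finset.disjoint_left]
          intro r hr hr'
          exact (Finset.mem_sdiff.1 (h2 ((hPmem r).1 hr).2)).2 ((hRmem r).1 hr').2
        · intro p hp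
          exact ((hPmem p).1 hp).1
      rw [Us, if_pos hOK]
      exact ⟨g, ⟨hG.reach, himP⟩, by simp only [himR]⟩
  · rintro ⟨⟨m, R, P⟩, hi, hx⟩
    simp only [Ix, Finset.mem_product, Finset.mem_range, Finset.mem_powerset] at hi
    rw [Us] at hx
    split_ifs at hx with hOK
    · simp only at hOK
      obtain ⟨g, ⟨hg, hP⟩, rfl⟩ := hx
      refine ⟨⟨⟨m, g, _, good_of_OKR hOK hg, rfl⟩, ?_, ?_⟩, ?_⟩
      · change A ⊆ Tn m g \ im g R
        rw [← hP]
        intro s hs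
        obtain ⟨p, hp, rfl⟩ := Finset.mem_image.1 hs
        refine Finset.mem_sdiff.2 ⟨f_mem_Tn (hOK.2.2.2.2 p hp), ?_⟩
        rw [mem_im]
        exact fun h => Finset.disjoint_left.1 hOK.2.2.2.1 hp h
      · change (im g R).card = j
        rw [im_card, hOK.2.2.1]
      · change (Tn m g).card ≤ M + 1
        rw [Tn_card]; omega
    · exact hx.elim

lemma Us_disjoint (A : Finset ℝ) (j : ℕ) {i i' : ℕ × Finset ℕ × Finset ℕ} (hne : i ≠ i') :
    Disjoint (Us A j i) (Us A j i') := by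
  classical
  rw [Set.disjoint_left]
  intro x hx hx'
  rw [Us] at hx hx'
  split_ifs at hx hx' with h1 h2
  · obtain ⟨g, ⟨hg, hP⟩, rfl⟩ := hx
    obtain ⟨g', ⟨hg', hP'⟩, h⟩ := hx'
    obtain ⟨h3, h4, h5⟩ := cell_eq_imp h
    have hf : g'.f = g.f := h5.1
    rw [im_congr hf] at h4 hP'
    apply hne
    refine Prod.ext h3.symm (Prod.ext (im_inj g h4).symm (im_inj g (hP.trans hP'.symm)))
  all_goals first | exact hx | exact hx'

section setup

variable {A : Finset ℝ} {Q : Finset Qd} {H : Type} [Group H] [MulAction H Cell]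
    [MulAction H Amb] (D : Setup A Q H)

include D

lemma PF_UC (m : ℕ) (R P : Finset ℕ) (n : ℕ) : PF H n (UC A m R P) := by
  refine PF.of_image' (φ := Cell.y) ?_ ?_ ?_ ?_
  · intro h x
    rw [D.hC, Cell.smul_y, D.hS]
  · rintro h _ ⟨g, ⟨hg, hP⟩, rfl⟩
    obtain ⟨h1, h2, _⟩ := (D.range (D.e h)).1 ⟨h, rfl⟩
    refine ⟨D.e h * g, ⟨hg.left h1, by rw [im_mul, hP, h2]⟩, ?_⟩
    simp only
    rw [D.hC, smul_cell, im_mul]
  · rintro _ ⟨g, hg, rfl⟩ _ ⟨g', hg', rfl⟩ h
    simp only at h ⊢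
    have h1 : cos (Tn m g \ im g R) g = cos (Tn m g' \ im g' R) g' := h
    have hf : g.f = g'.f := cos_eq_f h1
    refine Cell.ext (Tn_congr hf) (im_congr hf R) h1
  · have : Cell.y '' UC A m R P = cs (KR m R) '' Bm A m P := by
      rw [UC, Set.image_image]
      refine Set.image_congr fun g _ => ?_
      exact cos_eq_cs m g R
    rw [this]
    exact PF_cs D m P (KR m R) (fun k hk i => (mem_KR.1 hk i).1) n

lemma PF_CL (j M n : ℕ) : PF H n (CL A j M) := by
  classical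
  rw [CL_eq]
  refine PF.biUnion _ _ (fun i _ i' _ h => Us_disjoint A j h) ?_
  intro i _
  rw [Us]
  split_ifs
  · exact PF_UC D _ _ _ n
  · exact PF.empty n

lemma dc_equiv (h : H) (x : Cell) :
    dc (single (h • x) 1) = MonoidAlgebra.of ℤ H h • dc (single x 1) := by
  rw [of_smul_def, dc_single, dc_single, Dc, Dc, map_sum, D.hC, Cell.smul_ρ,
    Finset.sum_image (fun _ _ _ _ h' => (D.e h).f.injective h')]
  refine Finset.sum_congr rfl fun t _ => ?_
  rw [map_smul, map_sub, permRep_single, permRep_single, ← smul_f0, ← smul_f1, D.hC, D.hC]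
  congr 1
  exact sgn_image (D.e h).f.toOrderEmbedding t x.ρ

/-- the differential over the group ring -/
noncomputable def dR : (Cell →₀ ℤ) →ₗ[RH H] (Cell →₀ ℤ) := mkR dc (dc_equiv D)

lemma dR_apply (z : Cell →₀ ℤ) : dR D z = dc z := rfl

/-- chains -/
noncomputable def CC (j M : ℕ) : Submodule (RH H) (Cell →₀ ℤ) :=
  SpR (CL A j M) (PF_CL D j M 0).inv

lemma mem_CC {j M : ℕ} {z : Cell →₀ ℤ} : z ∈ CC D j M ↔ z ∈ Sp (CL A j M) := Iff.rfl

lemma FP_CC (j M n : ℕ) : FP (RH H) n (CC D j M) := (PF_CL D j M n).fp _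

/-- boundaries -/
noncomputable def ZZ (j M : ℕ) : Submodule (RH H) (Cell →₀ ℤ) := (CC D (j + 1) M).map (dR D)

lemma ZZ_le (j M : ℕ) : ZZ D j M ≤ CC D j M := by
  rintro _ ⟨u, hu, rfl⟩
  exact dc_CL hu

lemma dR_ZZ {j M : ℕ} {z : Cell →₀ ℤ} (hz : z ∈ ZZ D j M) : dR D z = 0 := by
  obtain ⟨u, hu, rfl⟩ := hz
  exact dc_dc (Sp_mono (fun x hx => hx.1.1) hu)

lemma FP_ZZ (M : ℕ) : ∀ i j : ℕ, 5 * (j + i + 1) + 1 + A.card < M + 1 →
    FP (RH H) i (ZZ D j M) := by
  intro i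
  induction i with
  | zero =>
    intro j _
    have h1 := FP_zero_iff.1 (FP_CC D (j + 1) M 0)
    have hm : ∀ z : CC D (j + 1) M, (dR D ∘ₗ (CC D (j + 1) M).subtype) z ∈ ZZ D j M :=
      fun z => ⟨z, z.2, rfl⟩
    refine FP_zero_iff.2 (Module.Finite.of_surjective (LinearMap.codRestrict (ZZ D j M) _ hm) ?_)
    rintro ⟨_, ⟨u, hu, rfl⟩⟩
    exact ⟨⟨u, hu⟩, rfl⟩
  | succ i ih =>
    intro j hj
    have hm : ∀ z : CC D (j + 1) M, (dR D ∘ₗ (CC D (j + 1) M).subtype) z ∈ ZZ D j M :=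
      fun z => ⟨z, z.2, rfl⟩
    refine FP.coker (LinearMap.codRestrict (ZZ D j M) _ hm) ?_ ?_ (FP_CC D (j + 1) M (i + 1))
    · rintro ⟨_, ⟨u, hu, rfl⟩⟩
      exact ⟨⟨u, hu⟩, rfl⟩
    · have hz := ih (j + 1) (by omega)
      have hk : ∀ z : ZZ D (j + 1) M, (Submodule.inclusion (ZZ_le D (j + 1) M)) z ∈
          LinearMap.ker (LinearMap.codRestrict (ZZ D j M) _ hm) := by
        rintro ⟨z, hz⟩
        rw [LinearMap.mem_ker]
        apply Subtype.ext
        exact dR_ZZ D hz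
      refine FP.of_bij (LinearMap.codRestrict _ _ hk) ?_ ?_ hz
      · rintro ⟨a, ha⟩ ⟨b, hb⟩ hab
        have : a = b := congrArg (fun y => (y.1.1 : Cell →₀ ℤ)) hab
        exact Subtype.ext this
      · rintro ⟨⟨z, hz⟩, hz2⟩
        have hz3 : dc z = 0 := congrArg Subtype.val hz2
        obtain ⟨u, hu, hdu⟩ := trunc_pos (k := j) (by omega) hz hz3
        exact ⟨⟨z, ⟨u, hu, hdu⟩⟩, rfl⟩

end setup

section final

variable {A : Finset ℝ} {Q : Finset Qd} {H : Type} [Group H] [MulAction H Cell]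
    [MulAction H Amb] (D : Setup A Q H)

include D

theorem typeFP_of_setup {m₀ : ℕ} {g₀ : Amb} (hg₀ : Reach m₀ g₀) (hA : A ⊆ Tn m₀ g₀) (n : ℕ) :
    TypeFP n H := by
  let instU : MulAction H Unit :=
    { smul := fun _ x => x
      one_smul := fun _ => rfl
      mul_smul := fun _ _ _ => rfl }
  obtain ⟨M, hM1, hM2⟩ : ∃ M : ℕ, m₀ ≤ M ∧ 5 * (n + 1) + 1 + A.card < M + 1 :=
    ⟨m₀ + (5 * (n + 1) + 1 + A.card), by omega, by omega⟩
  have hφ : ∀ (h : H) (x : Cell), (fun _ : Cell => ()) (h • x) = h • (fun _ : Cell => ()) x :=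
    fun _ _ => rfl
  let q : CC D 0 M →ₗ[RH H] (Unit →₀ ℤ) :=
    mkR (pushX (fun _ : Cell => ())) (pushX_equiv hφ) ∘ₗ (CC D 0 M).subtype
  have hq : ∀ z : CC D 0 M, q z = pushX (fun _ : Cell => ()) (z : Cell →₀ ℤ) := fun _ => rfl
  have haug : ∀ z : Cell →₀ ℤ, pushX (fun _ : Cell => ()) z = single () (aug z) := by
    intro z
    refine map_congr_of (U := Set.univ) (F := pushX (fun _ : Cell => ()))
      (G := Finsupp.lsingle () ∘ₗ aug) ?_ (mem_Sp.2 fun _ _ => trivial)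
    intro x _
    rw [pushX_single, LinearMap.comp_apply, aug_single, Finsupp.lsingle_apply]
  have hqs : Function.Surjective q := by
    intro z
    have hv : cell m₀ g₀ ∅ ∈ CL A 0 M := by
      refine ⟨⟨⟨m₀, g₀, ∅, ⟨hg₀, by simp, by simp, by simp, by simp⟩, rfl⟩, ?_, rfl⟩, ?_⟩
      · change A ⊆ Tn m₀ g₀ \ ∅
        rw [Finset.sdiff_empty]; exact hA
      · change (Tn m₀ g₀).card ≤ M + 1
        rw [Tn_card]; omega
    refine ⟨⟨single (cell m₀ g₀ ∅) (z ()), single_mem_Sp hv _⟩, ?_⟩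
    rw [hq]
    simp only
    rw [haug]
    have : aug (single (cell m₀ g₀ ∅) (z ())) = z () := by
      simp [aug]
    rw [this]
    ext
    simp
  have hker : FP (RH H) n (LinearMap.ker q) := by
    have hk : ∀ z : ZZ D 0 M, (Submodule.inclusion (ZZ_le D 0 M)) z ∈ LinearMap.ker q := by
      rintro ⟨_, ⟨u, hu, rfl⟩⟩
      rw [LinearMap.mem_ker, hq]
      change pushX (fun _ : Cell => ()) (dc u) = 0
      rw [haug, aug_dc (Sp_mono (fun x hx => hx.1) hu), Finsupp.single_zero]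
    refine FP.of_bij (LinearMap.codRestrict _ _ hk) ?_ ?_ (FP_ZZ D M n 0 (by omega))
    · rintro ⟨a, ha⟩ ⟨b, hb⟩ hab
      have : a = b := congrArg (fun y => (y.1.1 : Cell →₀ ℤ)) hab
      exact Subtype.ext this
    · rintro ⟨⟨z, hz⟩, hz2⟩
      rw [LinearMap.mem_ker, hq, haug] at hz2
      have hz3 : aug z = 0 := by
        have := congrArg (fun w : Unit →₀ ℤ => w ()) hz2
        simpa using this
      obtain ⟨u, hu, hdu⟩ := trunc_zero (by omega) hz hz3
      exact ⟨⟨z, ⟨u, hu, hdu⟩⟩, rfl⟩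
  have hFP : FP (RH H) (n + 1) (Unit →₀ ℤ) := FP.coker q hqs hker (FP_CC D 0 M (n + 1))
  obtain ⟨P, d, ε, h1, h2, h3, h4, h5⟩ := hFP.pred.hasRes
  refine ⟨fun i => P i, fun i => inferInstance, fun i => inferInstance, d,
    (Finsupp.applyAddHom ()).comp ε.toAddMonoidHom, h1, ?_, ?_, ?_, h4, h5⟩
  · intro h x
    change (ε (MonoidAlgebra.of ℤ H h • x)) () = (ε x) ()
    rw [ε.map_smul]
    have key : ∀ w : Unit →₀ ℤ, MonoidAlgebra.of ℤ H h • w = w := by
      intro w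
      rw [of_smul_def]
      refine map_congr_of (U := Set.univ) (F := permRep H Unit h) (G := LinearMap.id) ?_
        (mem_Sp.2 fun _ _ => trivial)
      intro x _
      rw [permRep_single, LinearMap.id_apply]
    rw [key]
  · intro k
    obtain ⟨x, hx⟩ := h2 (single () k)
    refine ⟨x, ?_⟩
    change (ε x) () = k
    rw [hx]; simp
  · intro x
    rw [← h3 x]
    change (ε x) () = 0 ↔ ε x = 0
    constructor
    · intro h
      ext
      exact h
    · intro h
      rw [h]; rfl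

end final

end Pool.Agent.OLF
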